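import Pool.Agent.Lib.EMU.B.Defs

/-!
# MP_9aab3b_gt, module B.Chart: local trivialisations

PROOF. `exists_good`: `LinearMap.range (P x₀)` has dimension `K`; compose `P x₀` (as a map onto its range) with a linear isomorphism of the
range with `Fin K → ℂ`. A `v` with `P x₀ v = v` is in the range.
`exists_chart`: `J` restricted to the fibre `R₀ = LinearMap.range (P x₀) = {v | P x₀ v = v}` is injective, so bijective onto `Fin K → ℂ`
(dimension `K`); let `R : (Fin K → ℂ) →L[ℂ] E` be its inverse composed with the inclusion: `J (R w) = w`, `P x₀ (R w) = R w`.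
`M x = J ∘L P x ∘L R` is continuous on `O`, `M x₀ = id`. On a small closed ball `M x` is invertible (the units of a complete normed
ring are open) and `x ↦ (M x)⁻¹` (`Ring.inverse`) is continuous (`NormedRing.inverse_continuousAt`). Put
`T x = P x ∘L R ∘L (M x)⁻¹`. Then `J (T x w) = w`, `P x (T x w) = T x w` (idempotent). `T x` is injective with values in the fibre at `x`,
which has dimension `K`, so every `v` of the fibre is `T x w`, and then `T x (J v) = T x w = v`.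
`IsChart.good`: `J v = 0` gives `v = T x (J v) = 0`. `IsChart.mono`: trivial.
`IsChart.bound`: `T` is bounded on the compact ball; `‖T x (e y)‖ ≤ ‖T x‖ ‖e‖ ‖y‖`.
`IsChart.isSec_bump`: inside `ball x₀ r` the function is continuous, outside the compact set `C ⊆ ball x₀ r` it is zero, and these two open
sets cover `X`; `P x (T x w) = T x w` in the ball and `T x (e 0) = 0` outside `C`.
-/

set_option autoImplicit false

open Set Metric Topology

namespace EMU

variable {X E : Type*} [NormedAddCommGroup X] [NormedSpace ℝ X] [FiniteDimensional ℝ X]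
  [NormedAddCommGroup E] [NormedSpace ℂ E] [FiniteDimensional ℂ E] {K : ℕ}
  {O : Set X} {P : X → E →L[ℂ] E}

theorem exists_good (hP : IsBun O P K) {x₀ : X} (hx : x₀ ∈ O) :
    ∃ J : E →L[ℂ] (Fin K → ℂ), Good P J x₀ := by
  have hr : Module.finrank ℂ (LinearMap.range (P x₀ : E →ₗ[ℂ] E)) =
      Module.finrank ℂ (Fin K → ℂ) := by
    rw [hP.rank x₀ hx, Module.finrank_fin_fun]
  obtain ⟨φ⟩ : Nonempty (LinearMap.range (P x₀ : E →ₗ[ℂ] E) ≃ₗ[ℂ] (Fin K → ℂ)) :=
    ⟨LinearEquiv.ofFinrankEq _ _ hr⟩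
  refine ⟨LinearMap.toContinuousLinearMap
    ((φ : LinearMap.range (P x₀ : E →ₗ[ℂ] E) →ₗ[ℂ] (Fin K → ℂ)) ∘ₗ
      (P x₀ : E →ₗ[ℂ] E).rangeRestrict), ?_⟩
  intro v hv h0
  have h1 : φ ((P x₀ : E →ₗ[ℂ] E).rangeRestrict v) = 0 := h0
  have h2 : (P x₀ : E →ₗ[ℂ] E).rangeRestrict v = 0 := by
    rwa [LinearEquiv.map_eq_zero_iff] at h1
  have h3 : P x₀ v = 0 := congrArg Subtype.val h2
  rw [← hv, h3]

theorem exists_chart (hO : IsOpen O) (hP : IsBun O P K) {x₀ : X} (hx : x₀ ∈ O)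
    {J : E →L[ℂ] (Fin K → ℂ)} (hJ : Good P J x₀) : ∃ r T, IsChart O P x₀ r J T := by
  have hr : ∀ x ∈ O, Module.finrank ℂ (Fin K → ℂ) =
      Module.finrank ℂ (LinearMap.range (P x : E →ₗ[ℂ] E)) := by
    intro x hx
    rw [hP.rank x hx, Module.finrank_fin_fun]
  obtain ⟨R, hJR, hPR⟩ : ∃ R : (Fin K → ℂ) →L[ℂ] E, (∀ w, J (R w) = w) ∧
      ∀ w, P x₀ (R w) = R w := by
    have hinj : Function.Injective ((J : E →ₗ[ℂ] (Fin K → ℂ)) ∘ₗ
        (LinearMap.range (P x₀ : E →ₗ[ℂ] E)).subtype) := by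
      rw [injective_iff_map_eq_zero]
      rintro ⟨v, hv⟩ h0
      obtain ⟨v', hv'⟩ := hv
      have hv1 : P x₀ v = v := by
        rw [← hv']
        exact hP.idem x₀ hx v'
      have h3 : v = 0 := hJ v hv1 h0
      exact Subtype.ext h3
    obtain ⟨ψ, hψ⟩ : ∃ ψ : LinearMap.range (P x₀ : E →ₗ[ℂ] E) ≃ₗ[ℂ] (Fin K → ℂ),
        ∀ v, ψ v = J v :=
      ⟨LinearMap.linearEquivOfInjective _ hinj (hr x₀ hx).symm, fun v => rfl⟩
    refine ⟨LinearMap.toContinuousLinearMap
      ((LinearMap.range (P x₀ : E →ₗ[ℂ] E)).subtype ∘ₗ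
        (ψ.symm : (Fin K → ℂ) →ₗ[ℂ] LinearMap.range (P x₀ : E →ₗ[ℂ] E))), ?_, ?_⟩
    · intro w
      have h3 := hψ (ψ.symm w)
      rw [LinearEquiv.apply_symm_apply] at h3
      exact h3.symm
    · intro w
      obtain ⟨v', hv'⟩ := (ψ.symm w).2
      change P x₀ (ψ.symm w : E) = (ψ.symm w : E)
      rw [← hv']
      exact hP.idem x₀ hx v'
  obtain ⟨M, hM⟩ : ∃ M : X → (Fin K → ℂ) →L[ℂ] (Fin K → ℂ), M = fun x => J ∘L P x ∘L R :=
    ⟨_, rfl⟩
  have hMc : ContinuousOn M O := by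
    rw [hM]
    exact continuousOn_const.clm_comp (hP.cont.clm_comp continuousOn_const)
  have hM0 : M x₀ = 1 := by
    rw [hM]
    ext w : 1
    change J (P x₀ (R w)) = w
    rw [hPR, hJR]
  have hnhds : {x | x ∈ O ∧ IsUnit (M x)} ∈ 𝓝 x₀ := by
    have h1 : M ⁻¹' {A | IsUnit A} ∈ 𝓝 x₀ :=
      (hMc.continuousAt (hO.mem_nhds hx)).preimage_mem_nhds
        (Units.isOpen.mem_nhds (by rw [Set.mem_setOf_eq, hM0]; exact isUnit_one))
    filter_upwards [hO.mem_nhds hx, h1] with z hz hz'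
    exact ⟨hz, hz'⟩
  obtain ⟨r, hr0, hrs⟩ := Metric.nhds_basis_closedBall.mem_iff.1 hnhds
  have hJT : ∀ x ∈ closedBall x₀ r, ∀ w, J (P x (R (Ring.inverse (M x) w))) = w := by
    intro x hx' w
    have h1 : M x * Ring.inverse (M x) = 1 := Ring.mul_inverse_cancel _ (hrs hx').2
    have h2 := DFunLike.congr_fun h1 w
    rw [hM] at h2 ⊢
    exact h2
  refine ⟨r, fun x => P x ∘L R ∘L Ring.inverse (M x), hr0, fun x hx' => (hrs hx').1, ?_, hJT,
    ?_, ?_⟩
  · refine (hP.cont.mono fun x hx' => (hrs hx').1).clm_comp (continuousOn_const.clm_comp ?_)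
    intro x hx'
    obtain ⟨a, ha⟩ := (hrs hx').2
    have h1 := NormedRing.inverse_continuousAt a
    rw [ha] at h1
    exact h1.comp_continuousWithinAt ((hMc.mono fun x hx' => (hrs hx').1) x hx')
  · intro x hx' w
    exact hP.idem x (hrs hx').1 _
  · intro x hx' v hv
    have hinj : Function.Injective ((P x : E →ₗ[ℂ] E).rangeRestrict ∘ₗ
        ((R ∘L Ring.inverse (M x) : (Fin K → ℂ) →L[ℂ] E) : (Fin K → ℂ) →ₗ[ℂ] E)) := by
      intro w w' hww
      have h1 : P x (R (Ring.inverse (M x) w)) = P x (R (Ring.inverse (M x) w')) :=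
        congrArg Subtype.val hww
      rw [← hJT x hx' w, h1, hJT x hx' w']
    have hsurj := (LinearMap.injective_iff_surjective_of_finrank_eq_finrank
      (hr x (hrs hx').1)).1 hinj
    obtain ⟨w, hw⟩ := hsurj ⟨v, ⟨v, hv⟩⟩
    have h1 : P x (R (Ring.inverse (M x) w)) = v := congrArg Subtype.val hw
    change P x (R (Ring.inverse (M x) (J v))) = v
    rw [← h1, hJT x hx' w]

theorem IsChart.mono {x₀ : X} {r r' : ℝ} {J : E →L[ℂ] (Fin K → ℂ)} {T : X → (Fin K → ℂ) →L[ℂ] E}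
    (h : IsChart O P x₀ r J T) (h0 : 0 < r') (hr : r' ≤ r) : IsChart O P x₀ r' J T := by
  have hs := closedBall_subset_closedBall (x := x₀) hr
  exact ⟨h0, hs.trans h.sub, h.cont.mono hs, fun x hx => h.JT x (hs hx),
    fun x hx => h.PT x (hs hx), fun x hx => h.TJ x (hs hx)⟩

theorem IsChart.good {x₀ : X} {r : ℝ} {J : E →L[ℂ] (Fin K → ℂ)} {T : X → (Fin K → ℂ) →L[ℂ] E}
    (h : IsChart O P x₀ r J T) {x : X} (hx : x ∈ closedBall x₀ r) : Good P J x := by
  intro v hv h0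
  rw [← h.TJ x hx v hv, h0, map_zero]

theorem IsChart.bound {x₀ : X} {r : ℝ} {J : E →L[ℂ] (Fin K → ℂ)} {T : X → (Fin K → ℂ) →L[ℂ] E}
    (h : IsChart O P x₀ r J T) (e : X ≃L[ℝ] (Fin K → ℂ)) :
    ∃ M : ℝ, 0 < M ∧ ∀ x ∈ closedBall x₀ r, ∀ y : X, ‖T x (e y)‖ ≤ M * ‖y‖ := by
  have hprop : ProperSpace X := FiniteDimensional.proper_real X
  obtain ⟨C, hC⟩ := (isCompact_closedBall x₀ r).exists_bound_of_continuousOn h.cont
  refine ⟨(|C| + 1) * (‖(e : X →L[ℝ] (Fin K → ℂ))‖ + 1), by positivity, ?_⟩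
  intro x hx y
  have h1 := (T x).le_opNorm (e y)
  have h2 := (e : X →L[ℝ] (Fin K → ℂ)).le_opNorm y
  have h3 := hC x hx
  have h4 := le_abs_self C
  calc ‖T x (e y)‖ ≤ ‖T x‖ * ‖e y‖ := h1
    _ ≤ (|C| + 1) * (‖(e : X →L[ℝ] (Fin K → ℂ))‖ * ‖y‖) := by
        apply mul_le_mul (by linarith) h2 (norm_nonneg _) (by positivity)
    _ ≤ (|C| + 1) * ((‖(e : X →L[ℝ] (Fin K → ℂ))‖ + 1) * ‖y‖) := by
        apply mul_le_mul_of_nonneg_left _ (by positivity)
        apply mul_le_mul_of_nonneg_right _ (norm_nonneg _)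
        linarith
    _ = _ := by ring

theorem IsChart.isSec_bump {x₀ : X} {r : ℝ} {J : E →L[ℂ] (Fin K → ℂ)}
    {T : X → (Fin K → ℂ) →L[ℂ] E} (h : IsChart O P x₀ r J T) (e : X ≃L[ℝ] (Fin K → ℂ)) {d : X → X}
    (hd : Continuous d) {C : Set X} (hC : IsCompact C) (hCr : C ⊆ ball x₀ r)
    (h0 : ∀ x, x ∉ C → d x = 0) : IsSec O P (fun x => T x (e (d x))) := by
  have hz : ∀ x, x ∉ C → T x (e (d x)) = 0 := by
    intro x hx
    rw [h0 x hx, map_zero, map_zero]
  constructor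
  · intro x _
    apply ContinuousAt.continuousWithinAt
    by_cases hx : x ∈ ball x₀ r
    · have h1 : ContinuousOn (fun x => T x (e (d x))) (ball x₀ r) :=
        (h.cont.mono ball_subset_closedBall).clm_apply
          (e.continuous.comp hd).continuousOn
      exact h1.continuousAt (isOpen_ball.mem_nhds hx)
    · have hx' : x ∈ Cᶜ := fun h => hx (hCr h)
      refine (continuousAt_const (y := (0 : E))).congr ?_
      filter_upwards [hC.isClosed.isOpen_compl.mem_nhds hx'] with z hz'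
      exact (hz z hz').symm
  · intro x _
    by_cases hx : x ∈ C
    · exact h.PT x (ball_subset_closedBall (hCr hx)) _
    · change P x (T x (e (d x))) = T x (e (d x))
      rw [hz x hx, map_zero]

end EMU
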