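import Pool.Agent.Lib.EMU.B.Ind

/-!
# MP_9aab3b_gt, module B.CubeInd: cubing the line component multiplies the index by 3

PROOF. `cubeSec_isSec`: `PC x (cb (h x)) = cb (h x)` (`mem`), `cb` continuous. `isBun_dsum`: the range of `(PF x).prodMap (PL x)` is the product
of the ranges (`LinearMap.range_prodMap`), `Module.finrank_prod`.
`ind_cube`. Fix `x`, an isolated zero. Let `J_F : F →L[ℂ] (Fin K₁ → ℂ)` be good for `PF` at `x` (`exists_good`), `j : A →L[ℂ] (Fin 1 → ℂ)` good for
`PL` at `x`, `k : A →L[ℂ] (Fin 1 → ℂ)` good for `PC` at `x`. Define `J, J' : F × A →L[ℂ] (Fin (K₁+1) → ℂ)` by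
`J (v, a) = Fin.snoc (J_F v) (j a 0)` and `J' (v, a) = Fin.snoc (J_F v) (k a 0)`; they are good at `x` for the two direct sums. Let
`a₀ ≠ 0` span the fibre of `PL` at `x` and `a y = PL y a₀`: for `y` near `x` it is non zero and spans the fibre of `PL` at `y` (rank one),
`j (a y) 0 ≠ 0`. `h y = η y • a y` for a complex number `η y = j (h y) 0 / j (a y) 0` (by the chart of `j`: on the fibre `j` is
injective), and `cb (h y) = η y ^ 3 • cb (a y)`. So `k (cb (h y)) 0 = η y ^ 3 * k (cb (a y)) 0 = (j (h y) 0) ^ 3 * u y` with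
`u y = k (cb (a y)) 0 / (j (a y) 0) ^ 3`, continuous near `x`, and `u x ≠ 0` because `cb a₀ ≠ 0` is in the fibre of `PC` at `x` and `k` is
good. So with `c v = Function.update v (last) (v last ^ 3)`: `J' (s'' y) = D_y (c (J (s' y)))` where `D_y` multiplies the last coordinate by
`u y`. On small spheres `‖D_y w - D_x w‖ ≤ ‖u y - u x‖ ‖w‖ < ‖D_x w‖` for `w = c (J (s' y)) ≠ 0` and `y` close to `x`, so (through
`e.symm`, whose norm distorts by a constant) `deg_rouche` and `deg_comp_left` (`det_real_pos`) and `deg_cube` give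
`deg (ball x r) (loc e J' s'') = deg (ball x r) (e.symm (c (e (loc e J s')))) = 3 * deg (ball x r) (loc e J s')` for small `r`. `ind_spec` twice.
(`s'' y = 0 ↔ s' y = 0` since `cb v = 0 → v = 0`, `cb 0 = 0` by `hom` with `c = 0`.)
`cntS_cube`: same zeros, all isolated; `mul_finsum_mem` for a finite set.
-/

set_option autoImplicit false

open Set Metric Topology

namespace EMU

variable {X F A : Type*} [NormedAddCommGroup X] [NormedSpace ℝ X] [FiniteDimensional ℝ X]
  [Nontrivial X] [NormedAddCommGroup F] [NormedSpace ℂ F] [FiniteDimensional ℂ F]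
  [NormedAddCommGroup A] [NormedSpace ℂ A] [FiniteDimensional ℂ A] {K₁ : ℕ}
  {O : Set X} {PF : X → F →L[ℂ] F} {PL PC : X → A →L[ℂ] A} {cb : A → A}

omit [NormedSpace ℝ X] [FiniteDimensional ℝ X] [Nontrivial X] [FiniteDimensional ℂ F]
  [FiniteDimensional ℂ A] in
private theorem CubeInd_dsum (PL : X → A →L[ℂ] A) (x : X) (v : F) (a : A) :
    dsum PF PL x (v, a) = (PF x v, PL x a) := rfl

omit [FiniteDimensional ℝ X] [Nontrivial X] in
theorem isBun_dsum (hF : IsBun O PF K₁) (hL : IsBun O PL 1) : IsBun O (dsum PF PL) (K₁ + 1) := by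
  refine ⟨?_, ?_, ?_⟩
  · exact ContinuousOn.prod_mapL ℂ hF.cont hL.cont
  · rintro x hx ⟨v, a⟩
    rw [CubeInd_dsum, CubeInd_dsum, hF.idem x hx, hL.idem x hx]
  · intro x hx
    have h1 : LinearMap.range (dsum PF PL x : F × A →ₗ[ℂ] F × A) =
        (LinearMap.range (PF x : F →ₗ[ℂ] F)).prod (LinearMap.range (PL x : A →ₗ[ℂ] A)) := by
      rw [← LinearMap.range_prodMap]
      rfl
    rw [h1]
    have h2 : (LinearMap.range (PF x : F →ₗ[ℂ] F)).prod (LinearMap.range (PL x : A →ₗ[ℂ] A)) =
        LinearMap.range ((LinearMap.range (PF x : F →ₗ[ℂ] F)).subtype.prodMap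
          (LinearMap.range (PL x : A →ₗ[ℂ] A)).subtype) := by
      rw [LinearMap.range_prodMap, Submodule.range_subtype, Submodule.range_subtype]
    rw [h2, LinearMap.finrank_range_of_inj, Module.finrank_prod, hF.rank x hx, hL.rank x hx]
    intro p p' hp
    obtain ⟨e1, e2⟩ := Prod.ext_iff.1 hp
    exact Prod.ext (Subtype.ext e1) (Subtype.ext e2)

omit [FiniteDimensional ℝ X] [Nontrivial X] [FiniteDimensional ℂ F] [FiniteDimensional ℂ A] in
theorem isSec_dsum {f : X → F} {h : X → A} (hf : IsSec O PF f) (hh : IsSec O PL h) :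
    IsSec O (dsum PF PL) (fun x => (f x, h x)) := by
  refine ⟨hf.cont.prodMk hh.cont, ?_⟩
  intro x hx
  rw [CubeInd_dsum, hf.mem x hx, hh.mem x hx]

omit [FiniteDimensional ℝ X] [Nontrivial X] [FiniteDimensional ℂ F] [FiniteDimensional ℂ A] in
private theorem CubeInd_mem {f : X → F} {h : X → A}
    (hs : IsSec O (dsum PF PL) (fun x => (f x, h x))) :
    ∀ x ∈ O, PF x (f x) = f x ∧ PL x (h x) = h x := by
  intro x hx
  have h1 := hs.mem x hx
  rw [CubeInd_dsum] at h1
  exact Prod.ext_iff.1 h1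

omit [FiniteDimensional ℝ X] [Nontrivial X] [FiniteDimensional ℂ F] [FiniteDimensional ℂ A] in
theorem isSec_cube (hc : IsCube O PL PC cb) {f : X → F} {h : X → A}
    (hs : IsSec O (dsum PF PL) (fun x => (f x, h x))) :
    IsSec O (dsum PF PC) (fun x => (f x, cb (h x))) := by
  have hf : ContinuousOn f O := continuous_fst.comp_continuousOn hs.cont
  have hh : ContinuousOn h O := continuous_snd.comp_continuousOn hs.cont
  refine ⟨hf.prodMk (hc.cont.comp_continuousOn hh), ?_⟩
  intro x hx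
  rw [CubeInd_dsum, (CubeInd_mem hs x hx).1, hc.mem x hx _ (CubeInd_mem hs x hx).2]

/-- a trivialisation of the direct sum -/
private noncomputable def CubeInd_mk (J : F →L[ℂ] (Fin K₁ → ℂ)) (j : A →L[ℂ] (Fin 1 → ℂ)) :
    (F × A) →L[ℂ] (Fin (K₁ + 1) → ℂ) :=
  ContinuousLinearMap.pi fun i => Fin.lastCases (motive := fun _ => (F × A) →L[ℂ] ℂ)
    ((ContinuousLinearMap.proj (R := ℂ) (φ := fun _ : Fin 1 => ℂ) 0).comp
      (j.comp (ContinuousLinearMap.snd ℂ F A)))
    (fun i => (ContinuousLinearMap.proj (R := ℂ) (φ := fun _ : Fin K₁ => ℂ) i).comp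
      (J.comp (ContinuousLinearMap.fst ℂ F A))) i

omit [FiniteDimensional ℂ F] [FiniteDimensional ℂ A] in
private theorem CubeInd_mk_last (J : F →L[ℂ] (Fin K₁ → ℂ)) (j : A →L[ℂ] (Fin 1 → ℂ)) (p : F × A) :
    CubeInd_mk J j p (Fin.last K₁) = j p.2 0 := by
  simp [CubeInd_mk]

omit [FiniteDimensional ℂ F] [FiniteDimensional ℂ A] in
private theorem CubeInd_mk_castSucc (J : F →L[ℂ] (Fin K₁ → ℂ)) (j : A →L[ℂ] (Fin 1 → ℂ)) (p : F × A)
    (i : Fin K₁) : CubeInd_mk J j p (Fin.castSucc i) = J p.1 i := by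
  simp [CubeInd_mk]

omit [FiniteDimensional ℝ X] [Nontrivial X] [FiniteDimensional ℂ F] [FiniteDimensional ℂ A] in
private theorem CubeInd_good {J : F →L[ℂ] (Fin K₁ → ℂ)} {j : A →L[ℂ] (Fin 1 → ℂ)} {x : X}
    (hJ : Good PF J x) (hj : Good PL j x) : Good (dsum PF PL) (CubeInd_mk J j) x := by
  rintro ⟨v, a⟩ hv h0
  rw [CubeInd_dsum] at hv
  obtain ⟨h1, h2⟩ := Prod.ext_iff.1 hv
  have h3 : v = 0 := by
    refine hJ v h1 ?_
    funext i
    rw [← CubeInd_mk_castSucc J j (v, a) i, h0]
    rfl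
  have h4 : a = 0 := by
    refine hj a h2 ?_
    funext i
    have e : i = 0 := Subsingleton.elim _ _
    rw [e, ← CubeInd_mk_last J j (v, a), h0]
    rfl
  rw [h3, h4]
  rfl

/-- multiplication of the last coordinate by `u` -/
private noncomputable def CubeInd_M (u : ℂˣ) : (Fin (K₁ + 1) → ℂ) ≃L[ℂ] (Fin (K₁ + 1) → ℂ) :=
  ContinuousLinearEquiv.piCongrRight
    (fun i => ContinuousLinearEquiv.unitsEquivAut ℂ (if i = Fin.last K₁ then u else 1))

private theorem CubeInd_M_apply (u : ℂˣ) (v : Fin (K₁ + 1) → ℂ) (i : Fin (K₁ + 1)) :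
    CubeInd_M u v i = v i * ((if i = Fin.last K₁ then u else 1 : ℂˣ) : ℂ) := rfl

omit [FiniteDimensional ℂ F] [FiniteDimensional ℂ A] in
private theorem CubeInd_cb0 (hc : IsCube O PL PC cb) : cb 0 = 0 := by
  have := hc.hom 0 0
  simpa using this

omit [FiniteDimensional ℂ F] [FiniteDimensional ℂ A] in
private theorem CubeInd_iff (hc : IsCube O PL PC cb) (v : F) (a : A) :
    (v, cb a) = 0 ↔ (v, a) = 0 := by
  constructor
  · intro h
    obtain ⟨h1, h2⟩ := Prod.ext_iff.1 h
    exact Prod.ext h1 (hc.inj a h2)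
  · intro h
    obtain ⟨h1, h2⟩ := Prod.ext_iff.1 h
    have h3 : a = 0 := h2
    refine Prod.ext h1 ?_
    show cb a = 0
    rw [h3]
    exact CubeInd_cb0 hc

theorem ind_cube (hO : IsOpen O) (hF : IsBun O PF K₁) (hL : IsBun O PL 1) (hC : IsBun O PC 1)
    (hc : IsCube O PL PC cb) (e : X ≃L[ℝ] (Fin (K₁ + 1) → ℂ)) {f : X → F} {h : X → A}
    (hs : IsSec O (dsum PF PL) (fun x => (f x, h x))) {x : X} (hx : x ∈ O)
    (hz : ∀ᶠ y in 𝓝[≠] x, (f y, h y) ≠ 0) :
    ind e (dsum PF PC) (fun x => (f x, cb (h x))) x =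
      3 * ind e (dsum PF PL) (fun x => (f x, h x)) x := by
  classical
  obtain ⟨JF, hJF⟩ := exists_good hF hx
  obtain ⟨j, hj⟩ := exists_good hL hx
  obtain ⟨k, hk⟩ := exists_good hC hx
  set J := CubeInd_mk JF j with hJd
  set J' := CubeInd_mk JF k with hJ'd
  have hJ : Good (dsum PF PL) J x := CubeInd_good hJF hj
  have hJ' : Good (dsum PF PC) J' x := CubeInd_good hJF hk
  have hs' := isSec_cube hc hs
  have hB := isBun_dsum hF hL
  have hB' := isBun_dsum hF hC
  have hz' : ∀ᶠ y in 𝓝[≠] x, (f y, cb (h y)) ≠ 0 := by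
    filter_upwards [hz] with y hy h0
    exact hy ((CubeInd_iff hc _ _).1 h0)
  have hi := ind_spec hO hB e hs hx hz hJ
  have hi' := ind_spec hO hB' e hs' hx hz' hJ'
  obtain ⟨R, T, hT⟩ := exists_chart hO hB hx hJ
  obtain ⟨RL, TL, hTL⟩ := exists_chart hO hL hx hj
  set a : X → A := fun y => TL y (fun _ => 1) with ha
  set u : X → ℂ := fun y => k (cb (a y)) 0 with hu
  have hac : ContinuousOn a (closedBall x RL) := hTL.cont.clm_apply continuousOn_const
  have huc : ContinuousOn u (closedBall x RL) := by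
    have h1 : ContinuousOn (fun y => k (cb (a y))) (closedBall x RL) :=
      k.continuous.comp_continuousOn (hc.cont.comp_continuousOn hac)
    exact (continuous_apply 0).comp_continuousOn h1
  have hxL : x ∈ closedBall x RL := mem_closedBall_self hTL.pos.le
  have hux : u x ≠ 0 := by
    intro h0
    have h1 : k (cb (a x)) = 0 := by
      funext i
      have ei : i = 0 := Subsingleton.elim _ _
      rw [ei]
      exact h0
    have h2 : cb (a x) = 0 := hk _ (hc.mem x hx _ (hTL.PT x hxL _)) h1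
    have h3 : a x = 0 := hc.inj _ h2
    have h4 : j (a x) = fun _ => 1 := hTL.JT x hxL _
    rw [h3, map_zero] at h4
    have h5 := congrFun h4 0
    simp at h5
  set ux : ℂˣ := Units.mk0 (u x) hux with huxd
  have hline : ∀ y ∈ closedBall x RL, y ∈ O → k (cb (h y)) 0 = u y * (j (h y) 0) ^ 3 := by
    intro y hy hyO
    have h1 : h y = (j (h y) 0) • a y := by
      have h2 := hTL.TJ y hy (h y) (CubeInd_mem hs y hyO).2
      have h3 : j (h y) = (j (h y) 0) • (fun _ : Fin 1 => (1 : ℂ)) := by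
        funext i
        have ei : i = 0 := Subsingleton.elim _ _
        rw [ei]
        simp
      rw [h3, map_smul] at h2
      exact h2.symm
    have h4 : cb (h y) = (j (h y) 0) ^ 3 • cb (a y) := by
      conv_lhs => rw [h1]
      exact hc.hom _ _
    rw [h4, map_smul]
    simp only [Pi.smul_apply, smul_eq_mul, hu]
    ring
  -- the three functions
  set l := Fin.last K₁ with hl
  set w : X → (Fin (K₁ + 1) → ℂ) := fun y =>
    Function.update (J (f y, h y)) l ((J (f y, h y)) l ^ 3) with hw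
  set Al : X ≃L[ℝ] X := (e.trans ((CubeInd_M (K₁ := K₁) ux).restrictScalars ℝ)).trans e.symm
    with hAl
  have hg1 : ∀ y, e (loc e J (fun x => (f x, h x)) y) = J (f y, h y) := by
    intro y
    simp [loc]
  have hloc' : ∀ y ∈ closedBall x RL, y ∈ O →
      loc e J' (fun x => (f x, cb (h x))) y = e.symm (CubeInd_M (K₁ := K₁) ux (w y) +
        Pi.single l ((u y - u x) * w y l)) := by
    intro y hy hyO
    have h1 : J' (f y, cb (h y)) = CubeInd_M (K₁ := K₁) ux (w y) +
        Pi.single l ((u y - u x) * w y l) := by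
      funext i
      refine Fin.lastCases ?_ (fun i => ?_) i
      · rw [hJ'd, CubeInd_mk_last]
        show k (cb (h y)) 0 = _
        rw [hline y hy hyO]
        have h2 : w y (Fin.last K₁) = (j (h y) 0) ^ 3 := by
          simp only [hw, hl, Function.update_self, hJd, CubeInd_mk_last]
        rw [Pi.add_apply, CubeInd_M_apply, if_pos rfl, hl, Pi.single_eq_same, h2]
        have h3 : ((ux : ℂˣ) : ℂ) = u x := rfl
        rw [h3]
        ring
      · rw [hJ'd, CubeInd_mk_castSucc]
        have hne : (Fin.castSucc i) ≠ l := by rw [hl]; exact (Fin.castSucc_lt_last i).ne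
        rw [Pi.add_apply, CubeInd_M_apply, if_neg hne, Pi.single_eq_of_ne hne, add_zero]
        simp only [hw, Units.val_one, mul_one]
        rw [Function.update_of_ne hne, hJd, CubeInd_mk_castSucc]
    show e.symm (J' (f y, cb (h y))) = _
    rw [h1]
  -- constants
  set Cc : ℝ := ‖(e.symm : (Fin (K₁ + 1) → ℂ) →L[ℝ] X)‖ *
    (‖((CubeInd_M (K₁ := K₁) ux).symm : (Fin (K₁ + 1) → ℂ) →L[ℂ] (Fin (K₁ + 1) → ℂ))‖ *
      ‖(e : X →L[ℝ] (Fin (K₁ + 1) → ℂ))‖) + 1 with hCc
  have hCc0 : 0 < Cc := by positivity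
  have hev1 : ∀ᶠ y in 𝓝 x, ‖u y - u x‖ * Cc < 1 := by
    have h1 : ContinuousAt u x := huc.continuousAt (closedBall_mem_nhds x hTL.pos)
    have h2 : ContinuousAt (fun y => ‖u y - u x‖ * Cc) x :=
      ((h1.sub continuousAt_const).norm).mul continuousAt_const
    refine h2.eventually_lt_const ?_
    simp
  have hev2 : ∀ᶠ y in 𝓝 x, y ≠ x → (f y, h y) ≠ 0 := eventually_nhdsWithin_iff.1 hz
  obtain ⟨ρ₁, hρ₁, hball1⟩ := Metric.eventually_nhds_iff_ball.1
    (hev1.and (hev2.and (hO.eventually_mem hx)))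
  have hmain : ∀ᶠ r in 𝓝[>] (0 : ℝ), deg (ball x r) (loc e J' (fun x => (f x, cb (h x)))) =
      3 * deg (ball x r) (loc e J (fun x => (f x, h x))) := by
    have hpos : (0 : ℝ) < min (min ρ₁ R) RL := lt_min (lt_min hρ₁ hT.pos) hTL.pos
    filter_upwards [Ioo_mem_nhdsGT hpos] with r hr
    have hr0 : 0 < r := hr.1
    have hrρ : r < ρ₁ := hr.2.trans_le ((min_le_left _ _).trans (min_le_left _ _))
    have hrR : r < R := hr.2.trans_le ((min_le_left _ _).trans (min_le_right _ _))
    have hrL : r < RL := hr.2.trans_le (min_le_right _ _)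
    have hcl : closure (ball x r) ⊆ closedBall x r := closure_ball_subset_closedBall
    have hfr : frontier (ball x r) ⊆ sphere x r := frontier_ball_subset_sphere
    have hsub : ∀ y ∈ closedBall x r, y ∈ O ∧ y ∈ closedBall x RL ∧ y ∈ closedBall x R ∧
        y ∈ ball x ρ₁ := by
      intro y hy
      have hy1 : y ∈ ball x ρ₁ := closedBall_subset_ball hrρ hy
      exact ⟨(hball1 y hy1).2.2, closedBall_subset_closedBall hrL.le hy,
        closedBall_subset_closedBall hrR.le hy, hy1⟩
    have hOcb : closedBall x r ⊆ O := fun y hy => (hsub y hy).1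
    have hgc : ContinuousOn (loc e J (fun x => (f x, h x))) (closure (ball x r)) := by
      have h1 := hs.cont.mono (hcl.trans hOcb)
      exact e.symm.continuous.comp_continuousOn (J.continuous.comp_continuousOn h1)
    have hg'c : ContinuousOn (loc e J' (fun x => (f x, cb (h x)))) (closure (ball x r)) := by
      have h1 := hs'.cont.mono (hcl.trans hOcb)
      exact e.symm.continuous.comp_continuousOn (J'.continuous.comp_continuousOn h1)
    have hJne : ∀ y ∈ frontier (ball x r), J (f y, h y) ≠ 0 := by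
      intro y hy h0
      have hy1 : y ∈ sphere x r := hfr hy
      have hyc : y ∈ closedBall x r := sphere_subset_closedBall hy1
      obtain ⟨hyO, hyL, hyR, hyρ⟩ := hsub y hyc
      have hyx : y ≠ x := by
        intro h1
        rw [h1, mem_sphere, dist_self] at hy1
        exact hr0.ne hy1
      exact (hball1 y hyρ).2.1 hyx (hT.good hyR _ (hs.mem y hyO) h0)
    have h0 : ∀ y ∈ frontier (ball x r), loc e J (fun x => (f x, h x)) y ≠ 0 := by
      intro y hy h1
      have h2 := hg1 y
      rw [h1, map_zero] at h2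
      exact hJne y hy h2.symm
    have hd1 := deg_cube isOpen_ball isBounded_ball hgc h0 e l
    have hd1' : deg (ball x r) (fun y => e.symm (w y)) =
        3 * deg (ball x r) (loc e J (fun x => (f x, h x))) := by
      rw [← hd1]
      congr 1
      funext y
      rw [hg1 y]
    have hwne : ∀ y ∈ frontier (ball x r), w y ≠ 0 := by
      intro y hy h1
      apply hJne y hy
      funext i
      by_cases hi : i = l
      · have h2 := congrFun h1 l
        simp only [hw, Function.update_self, Pi.zero_apply] at h2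
        rw [hi]
        exact (pow_eq_zero_iff (by norm_num)).1 h2
      · have h2 := congrFun h1 i
        simp only [hw, Pi.zero_apply] at h2
        rw [Function.update_of_ne hi] at h2
        exact h2
    have hwc : ContinuousOn (fun y => e.symm (w y)) (closure (ball x r)) := by
      have h1 : ContinuousOn (fun y => J (f y, h y)) (closure (ball x r)) :=
        J.continuous.comp_continuousOn (hs.cont.mono (hcl.trans hOcb))
      have h2 : ContinuousOn w (closure (ball x r)) := by
        refine continuousOn_pi.2 fun i => ?_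
        by_cases hi : i = l
        · subst hi
          have h3 : (fun y => w y l) = fun y => (J (f y, h y)) l ^ 3 := by
            funext y
            simp only [hw, Function.update_self]
          rw [h3]
          exact ((continuous_apply l).comp_continuousOn h1).pow 3
        · have h3 : (fun y => w y i) = fun y => (J (f y, h y)) i := by
            funext y
            simp only [hw]
            rw [Function.update_of_ne hi]
          rw [h3]
          exact (continuous_apply i).comp_continuousOn h1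
      exact e.symm.continuous.comp_continuousOn h2
    have hw0 : ∀ y ∈ frontier (ball x r), e.symm (w y) ≠ 0 := by
      intro y hy h1
      exact hwne y hy ((map_eq_zero_iff e.symm e.symm.injective).1 h1)
    have hd2 := deg_comp_left isOpen_ball isBounded_ball hwc hw0 Al
    have hsign : ((SignType.sign ((Al : X ≃L[ℝ] X) : X →L[ℝ] X).det : SignType) : ℤ) = 1 := by
      rw [sign_pos (det_real_pos e (CubeInd_M (K₁ := K₁) ux))]
      rfl
    rw [hsign, one_mul] at hd2
    have hAc : ContinuousOn (fun y => Al (e.symm (w y))) (closure (ball x r)) :=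
      Al.continuous.comp_continuousOn hwc
    have hd3 : deg (ball x r) (loc e J' (fun x => (f x, cb (h x)))) =
        deg (ball x r) (fun y => Al (e.symm (w y))) := by
      refine deg_rouche isOpen_ball isBounded_ball hAc hg'c ?_
      intro y hy
      have hyc : y ∈ closedBall x r := sphere_subset_closedBall (hfr hy)
      obtain ⟨hyO, hyL, hyR, hyρ⟩ := hsub y hyc
      have hAy : Al (e.symm (w y)) = e.symm (CubeInd_M (K₁ := K₁) ux (w y)) := by
        show e.symm (CubeInd_M (K₁ := K₁) ux (e (e.symm (w y)))) = _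
        rw [e.apply_symm_apply]
      have hAne : Al (e.symm (w y)) ≠ 0 := by
        intro h1
        exact hw0 y hy ((map_eq_zero_iff Al Al.injective).1 h1)
      have hpos' : 0 < ‖Al (e.symm (w y))‖ := norm_pos_iff.2 hAne
      rw [hloc' y hyL hyO, map_add, hAy, add_sub_cancel_left]
      rw [← hAy]
      have hwb : ‖w y‖ ≤ ‖((CubeInd_M (K₁ := K₁) ux).symm :
          (Fin (K₁ + 1) → ℂ) →L[ℂ] (Fin (K₁ + 1) → ℂ))‖ *
          (‖(e : X →L[ℝ] (Fin (K₁ + 1) → ℂ))‖ * ‖Al (e.symm (w y))‖) := by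
        have h1 : w y = (CubeInd_M (K₁ := K₁) ux).symm (e (Al (e.symm (w y)))) := by
          rw [hAy, e.apply_symm_apply, ContinuousLinearEquiv.symm_apply_apply]
        have h2 := ((CubeInd_M (K₁ := K₁) ux).symm :
          (Fin (K₁ + 1) → ℂ) →L[ℂ] (Fin (K₁ + 1) → ℂ)).le_opNorm (e (Al (e.symm (w y))))
        have h3 := (e : X →L[ℝ] (Fin (K₁ + 1) → ℂ)).le_opNorm (Al (e.symm (w y)))
        calc ‖w y‖ = ‖(CubeInd_M (K₁ := K₁) ux).symm (e (Al (e.symm (w y))))‖ := by rw [← h1]
          _ ≤ _ * ‖e (Al (e.symm (w y)))‖ := h2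
          _ ≤ _ := mul_le_mul_of_nonneg_left h3 (norm_nonneg _)
      have hsb : ‖e.symm (Pi.single l ((u y - u x) * w y l))‖ ≤
          ‖(e.symm : (Fin (K₁ + 1) → ℂ) →L[ℝ] X)‖ * (‖u y - u x‖ * ‖w y‖) := by
        refine ((e.symm : (Fin (K₁ + 1) → ℂ) →L[ℝ] X).le_opNorm _).trans ?_
        refine mul_le_mul_of_nonneg_left ?_ (norm_nonneg _)
        rw [Pi.norm_single, norm_mul]
        exact mul_le_mul_of_nonneg_left (norm_le_pi_norm _ _) (norm_nonneg _)
      have hlt := (hball1 y hyρ).1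
      have hM0 := norm_nonneg ((CubeInd_M (K₁ := K₁) ux).symm :
          (Fin (K₁ + 1) → ℂ) →L[ℂ] (Fin (K₁ + 1) → ℂ))
      calc ‖e.symm (Pi.single l ((u y - u x) * w y l))‖
          ≤ ‖(e.symm : (Fin (K₁ + 1) → ℂ) →L[ℝ] X)‖ * (‖u y - u x‖ * ‖w y‖) := hsb
        _ ≤ ‖(e.symm : (Fin (K₁ + 1) → ℂ) →L[ℝ] X)‖ * (‖u y - u x‖ *
            (‖((CubeInd_M (K₁ := K₁) ux).symm :
              (Fin (K₁ + 1) → ℂ) →L[ℂ] (Fin (K₁ + 1) → ℂ))‖ *
              (‖(e : X →L[ℝ] (Fin (K₁ + 1) → ℂ))‖ * ‖Al (e.symm (w y))‖))) := by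
            refine mul_le_mul_of_nonneg_left ?_ (norm_nonneg _)
            exact mul_le_mul_of_nonneg_left hwb (norm_nonneg _)
        _ = ‖u y - u x‖ * (Cc - 1) * ‖Al (e.symm (w y))‖ := by
            rw [hCc]
            ring
        _ < 1 * ‖Al (e.symm (w y))‖ := by
            refine mul_lt_mul_of_pos_right ?_ hpos'
            have : ‖u y - u x‖ * (Cc - 1) ≤ ‖u y - u x‖ * Cc :=
              mul_le_mul_of_nonneg_left (by linarith) (norm_nonneg _)
            linarith
        _ = ‖Al (e.symm (w y))‖ := one_mul _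
    rw [hd3, hd2, hd1']
  obtain ⟨r, h1, h2, h3⟩ := (hi.and (hi'.and hmain)).exists
  rw [← h1, ← h2, h3]

theorem cntS_cube (hO : IsOpen O) (hF : IsBun O PF K₁) (hL : IsBun O PL 1) (hC : IsBun O PC 1)
    (hc : IsCube O PL PC cb) (e : X ≃L[ℝ] (Fin (K₁ + 1) → ℂ)) {f : X → F} {h : X → A}
    (hs : IsSec O (dsum PF PL) (fun x => (f x, h x))) {U : Set X} (hU : IsOpen U) (hUO : U ⊆ O)
    (hf : {x | x ∈ U ∧ (f x, h x) = 0}.Finite) :
    cntS e (dsum PF PC) (fun x => (f x, cb (h x))) U =
      3 * cntS e (dsum PF PL) (fun x => (f x, h x)) U := by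
  unfold cntS
  have hset : {x | x ∈ U ∧ (f x, cb (h x)) = 0} = {x | x ∈ U ∧ (f x, h x) = 0} := by
    ext x
    simp only [mem_setOf_eq]
    rw [CubeInd_iff hc]
  rw [hset, mul_finsum_mem]
  refine finsum_mem_congr rfl ?_
  intro x hx
  refine ind_cube hO hF hL hC hc e hs (hUO hx.1) ?_
  have h1 : {y | y ∈ U ∧ (f y, h y) = 0} \ {x} ⊆ {y | y ∈ U ∧ (f y, h y) = 0} := fun y hy => hy.1
  have h2 : IsClosed ({y | y ∈ U ∧ (f y, h y) = 0} \ {x}) := (hf.subset h1).isClosed
  have h3 : x ∉ {y | y ∈ U ∧ (f y, h y) = 0} \ {x} := fun h => h.2 rfl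
  rw [eventually_nhdsWithin_iff]
  filter_upwards [h2.isOpen_compl.mem_nhds h3, hU.mem_nhds hx.1]
    with y hy hyU hyx h0
  exact hy ⟨⟨hyU, h0⟩, hyx⟩

end EMU
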