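import Pool.Agent.Lib.EMU.D.Defs

/-!
# MP_9aab3b_gt, part B: counting zeros of sections of complex bundles (definitions)

A bundle of rank `K` over `O ⊆ X` is a continuous family `P x` of idempotents of rank `K` of a complex space `E`; a section is a
continuous `s : X → E` (on `O`) with `P x (s x) = s x`. `e : X ≃L[ℝ] (Fin K → ℂ)` is a fixed real linear isomorphism (an
orientation of `X`). `J : E →L[ℂ] (Fin K → ℂ)` is good at `x` if it is injective on the fibre at `x`. The index `ind e P s x` of an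
isolated zero is the degree on small balls of `e.symm ∘ J ∘ s` for any good `J`.
-/

set_option autoImplicit false

open Set Metric Topology

namespace EMU

section Defs

variable {X E : Type*} [NormedAddCommGroup X] [NormedSpace ℝ X]
  [NormedAddCommGroup E] [NormedSpace ℂ E] {K : ℕ}

/-- a bundle of rank `K` over `O` -/
structure IsBun (O : Set X) (P : X → E →L[ℂ] E) (K : ℕ) : Prop where
  cont : ContinuousOn P O
  idem : ∀ x ∈ O, ∀ v, P x (P x v) = P x v
  rank : ∀ x ∈ O, Module.finrank ℂ (LinearMap.range (P x : E →ₗ[ℂ] E)) = K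

/-- a continuous section over `O` -/
structure IsSec (O : Set X) (P : X → E →L[ℂ] E) (s : X → E) : Prop where
  cont : ContinuousOn s O
  mem : ∀ x ∈ O, P x (s x) = s x

/-- `J` is injective on the fibre at `x` -/
def Good (P : X → E →L[ℂ] E) (J : E →L[ℂ] (Fin K → ℂ)) (x : X) : Prop :=
  ∀ v, P x v = v → J v = 0 → v = 0

/-- the section `s` read in the trivialisation `J` -/
noncomputable def loc (e : X ≃L[ℝ] (Fin K → ℂ)) (J : E →L[ℂ] (Fin K → ℂ)) (s : X → E) (x : X) : X :=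
  e.symm (J (s x))

open Classical in
/-- index of an isolated zero of a section -/
noncomputable def ind (e : X ≃L[ℝ] (Fin K → ℂ)) (P : X → E →L[ℂ] E) (s : X → E) (x : X) : ℤ :=
  if h : ∃ m : ℤ, ∃ J : E →L[ℂ] (Fin K → ℂ), Good P J x ∧
      ∀ᶠ r in 𝓝[>] (0 : ℝ), deg (ball x r) (loc e J s) = m then h.choose else 0

/-- number of zeros in `U` counted with their indices -/
noncomputable def cntS (e : X ≃L[ℝ] (Fin K → ℂ)) (P : X → E →L[ℂ] E) (s : X → E) (U : Set X) : ℤ :=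
  ∑ᶠ x ∈ {x | x ∈ U ∧ s x = 0}, ind e P s x

open Classical in
/-- number of zeros in `U` of a section without zeros on the frontier of `U` -/
noncomputable def Nz (e : X ≃L[ℝ] (Fin K → ℂ)) (O : Set X) (P : X → E →L[ℂ] E) (s : X → E)
    (U : Set X) : ℤ :=
  if h : ∃ s' : X → E, IsSec O P s' ∧ {x | x ∈ closure U ∧ s' x = 0}.Finite ∧
      ∀ x ∈ frontier U, ‖s' x - s x‖ < ‖s x‖ then cntS e P h.choose U else 0

/-- `J` and its inverse `T x` on the fibres over a closed ball -/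
structure IsChart (O : Set X) (P : X → E →L[ℂ] E) (x₀ : X) (r : ℝ) (J : E →L[ℂ] (Fin K → ℂ))
    (T : X → (Fin K → ℂ) →L[ℂ] E) : Prop where
  pos : 0 < r
  sub : closedBall x₀ r ⊆ O
  cont : ContinuousOn T (closedBall x₀ r)
  JT : ∀ x ∈ closedBall x₀ r, ∀ w, J (T x w) = w
  PT : ∀ x ∈ closedBall x₀ r, ∀ w, P x (T x w) = T x w
  TJ : ∀ x ∈ closedBall x₀ r, ∀ v, P x v = v → T x (J v) = v

/-- a group acting on the bundle, `τ` is only multiplicative on the fibres -/
structure IsEqBun {Γ : Type*} [Group Γ] (O : Set X) (P : X → E →L[ℂ] E) (ρ : Γ →* (X ≃ₗᵢ[ℝ] X))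
    (τ : Γ → (E ≃L[ℂ] E)) : Prop where
  inv : ∀ γ, ∀ x ∈ O, ρ γ x ∈ O
  eqv : ∀ γ, ∀ x ∈ O, ∀ v, P (ρ γ x) (τ γ v) = τ γ (P x v)
  mul : ∀ γ γ', ∀ x ∈ O, ∀ v, P x v = v → τ γ (τ γ' v) = τ (γ * γ') v

/-- equivariant section -/
def IsEqSec {Γ : Type*} [Group Γ] (O : Set X) (ρ : Γ →* (X ≃ₗᵢ[ℝ] X)) (τ : Γ → (E ≃L[ℂ] E))
    (s : X → E) : Prop :=
  ∀ γ, ∀ x ∈ O, s (ρ γ x) = τ γ (s x)

end Defs

section Cube

variable {X F A : Type*} [NormedAddCommGroup X] [NormedSpace ℝ X]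
  [NormedAddCommGroup F] [NormedSpace ℂ F] [NormedAddCommGroup A] [NormedSpace ℂ A]

/-- direct sum of two bundles -/
noncomputable def dsum (PF : X → F →L[ℂ] F) (PL : X → A →L[ℂ] A) (x : X) : (F × A) →L[ℂ] (F × A) :=
  (PF x).prodMap (PL x)

/-- `cb` is a homogeneous map of degree `3` from the line bundle `PL` to the line bundle `PC` -/
structure IsCube (O : Set X) (PL PC : X → A →L[ℂ] A) (cb : A → A) : Prop where
  cont : Continuous cb
  hom : ∀ (c : ℂ) (v : A), cb (c • v) = c ^ 3 • cb v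
  inj : ∀ v, cb v = 0 → v = 0
  mem : ∀ x ∈ O, ∀ v, PL x v = v → PC x (cb v) = cb v

end Cube

end EMU
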