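import Pool.Agent.Lib.EMU.B.Ind

/-!
# MP_9aab3b_gt, module B.DegSum: the degree in a trivialisation is the sum of the indices

PROOF. For `x ∈ closure W` the function `g = loc e J s` vanishes at `x` iff `s x = 0` (`J` good at `x`). Let `F` be the finite set of zeros of
`s` in `W`; each is isolated (the zeros in the open set `W` are finite in number). Choose `r > 0` such that the balls `ball x r`, `x ∈ F`, are
contained in `W` and pairwise disjoint, and such that `deg (ball x r) g = ind e P s x` for all `x ∈ F` (`ind_spec`, finitely many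
conditions, all valid eventually for `r → 0+`; `J` is good at `x`). `deg_sum` with `s = F.toFinset`, `U x = ball x r`: a zero of `g` in
`closure W` is not on the frontier, so it is in `W`, so in `F`. Finally `cntS` is the finite sum over `F`
(`finsum_mem_eq_finite_toFinset_sum`). `loc e J s` is continuous on `closure W ⊆ O`.
-/

set_option autoImplicit false

open Set Metric Topology

namespace EMU

variable {X E : Type*} [NormedAddCommGroup X] [NormedSpace ℝ X] [FiniteDimensional ℝ X] [Nontrivial X]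
  [NormedAddCommGroup E] [NormedSpace ℂ E] [FiniteDimensional ℂ E] {K : ℕ}
  {O : Set X} {P : X → E →L[ℂ] E}

theorem deg_eq_cntS (hO : IsOpen O) (hP : IsBun O P K) (e : X ≃L[ℝ] (Fin K → ℂ)) {s : X → E}
    (hs : IsSec O P s) {W : Set X} (hW : IsOpen W) (hb : Bornology.IsBounded W)
    (hWO : closure W ⊆ O) {J : E →L[ℂ] (Fin K → ℂ)} (hJ : ∀ x ∈ closure W, Good P J x)
    (h0 : ∀ x ∈ frontier W, s x ≠ 0) (hf : {x | x ∈ W ∧ s x = 0}.Finite) :
    deg W (loc e J s) = cntS e P s W := by
  classical
  have hmem : ∀ x, x ∈ hf.toFinset ↔ x ∈ W ∧ s x = 0 := by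
    intro x
    rw [Set.Finite.mem_toFinset]
    rfl
  have hcont : ContinuousOn (loc e J s) (closure W) := by
    unfold loc
    exact e.symm.continuous.comp_continuousOn (J.continuous.comp_continuousOn (hs.cont.mono hWO))
  have hne : ∀ y ∈ closure W, s y ≠ 0 → loc e J s y ≠ 0 := by
    intro y hy h h1
    apply h
    apply hJ y hy _ (hs.mem y (hWO hy))
    unfold loc at h1
    exact (map_eq_zero_iff e.symm e.symm.injective).mp h1
  have hiso : ∀ x ∈ hf.toFinset, ∀ᶠ y in 𝓝[≠] x, s y ≠ 0 := by
    intro x hx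
    have h1 : ∀ᶠ y in 𝓝 x, y ∈ W := hW.mem_nhds ((hmem x).mp hx).1
    have h2 : ∀ᶠ y in 𝓝 x, y ∉ (hf.toFinset : Set X) \ {x} := by
      have hc : IsClosed ((hf.toFinset : Set X) \ {x}) :=
        ((Finset.finite_toSet _).subset diff_subset).isClosed
      exact hc.isOpen_compl.mem_nhds (by simp)
    rw [eventually_nhdsWithin_iff]
    filter_upwards [h1, h2] with y hy1 hy2 hyx hsy
    exact hy2 ⟨Finset.mem_coe.mpr ((hmem y).mpr ⟨hy1, hsy⟩), hyx⟩
  have e1 : ∀ᶠ r in 𝓝[>] (0 : ℝ), ∀ x ∈ hf.toFinset,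
      deg (ball x r) (loc e J s) = ind e P s x := by
    rw [Filter.eventually_all_finset]
    intro x hx
    have hxW := subset_closure ((hmem x).mp hx).1
    exact ind_spec hO hP e hs (hWO hxW) (hiso x hx) (hJ x hxW)
  have e2 : ∀ᶠ r in 𝓝[>] (0 : ℝ), ∀ x ∈ hf.toFinset, ball x r ⊆ W := by
    rw [Filter.eventually_all_finset]
    intro x hx
    obtain ⟨ε, hε, hs⟩ := Metric.isOpen_iff.mp hW x ((hmem x).mp hx).1
    filter_upwards [Ioo_mem_nhdsGT hε] with r hr
    exact (ball_subset_ball hr.2.le).trans hs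
  have e3 : ∀ᶠ r in 𝓝[>] (0 : ℝ), ∀ x ∈ hf.toFinset, ∀ y ∈ hf.toFinset, x ≠ y →
      Disjoint (ball x r) (ball y r) := by
    rw [Filter.eventually_all_finset]
    intro x _
    rw [Filter.eventually_all_finset]
    intro y _
    by_cases hxy : x = y
    · exact Filter.Eventually.of_forall fun r h => absurd hxy h
    · have hd : 0 < dist x y / 2 := half_pos (dist_pos.mpr hxy)
      filter_upwards [Ioo_mem_nhdsGT hd] with r hr _
      apply ball_disjoint_ball
      have := hr.2
      linarith
  have e4 : ∀ᶠ r in 𝓝[>] (0 : ℝ), 0 < r := self_mem_nhdsWithin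
  obtain ⟨r, h1, h2, h3, h4⟩ := (e1.and (e2.and (e3.and e4))).exists
  rw [deg_sum hW hb hcont hf.toFinset (fun x => ball x r) (fun _ _ => isOpen_ball) h2 h3 ?_]
  · unfold cntS
    rw [finsum_mem_eq_finite_toFinset_sum _ hf]
    exact Finset.sum_congr rfl h1
  · intro y hy hn
    apply hne y hy
    intro hsy
    have hyf : y ∉ frontier W := fun h => h0 y h hsy
    have hyW : y ∈ W := by
      rw [hW.frontier_eq] at hyf
      by_contra hc
      exact hyf ⟨hy, hc⟩
    exact hn y ((hmem y).mpr ⟨hyW, hsy⟩) (mem_ball_self h4)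

end EMU
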