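import Pool.Agent.Lib.EMU.B.Ind
import Pool.Agent.Lib.EMU.D.Lin

/-!
# MP_9aab3b_gt, module B.Eqv: equivariance of the index

PROOF. `ind_eqv`: let `J` be good at `x` (`exists_good`). `J' = J ∘ (τ γ)⁻¹` is good at `ρ γ x` : if `P (ρ γ x) v = v` then, with
`w = (τ γ).symm v`, `τ γ (P x w) = P (ρ γ x) (τ γ w) = τ γ w`, so `P x w = w`; `J w = 0` gives `w = 0`, `v = 0`. For `y` near `x`:
`J' (s (ρ γ y)) = J (s y)` (`hse`). So `loc e J' s (ρ γ y) = loc e J s y` for `y ∈ O`, and `ball (ρ γ x) r = ρ γ '' ball x r`, i.e.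
`ball x r = (ρ γ) ⁻¹' ball (ρ γ x) r`. `deg_comp_right` with `B = ρ γ` (determinant positive, sign `1`), `g = loc e J' s`,
`V = ball (ρ γ x) r` (small `r`: the zeros of `s` are isolated at `ρ γ x` too, because `s (ρ γ y) = τ γ (s y)`; `deg_congr` to pass from
`g ∘ ρ γ` to `loc e J s`) gives equality of the degrees, and `ind_spec` at both points.
`cntS_image`: `ρ γ` is a bijection from the zeros in `U` to the zeros in `ρ γ '' U` (`U ⊆ O`; `finsum_mem_image`, injective), and the zeros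
in `U` are isolated (finite number in the open set `U`).
`card_dvd_cntS`: the finite set `F` of zeros in `U` is invariant under `Γ` (`U` is invariant), `Γ` acts freely on it, and `ind` is constant on
orbits. So the sum over `F` is divisible by `Nat.card Γ`: group by orbits (`Finset.sum` over the quotient, or induction on `F.card`: remove one
orbit, which has `Nat.card Γ` elements).
-/

set_option autoImplicit false

open Set Metric Topology

namespace EMU

variable {X E : Type*} [NormedAddCommGroup X] [NormedSpace ℝ X] [FiniteDimensional ℝ X] [Nontrivial X]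
  [NormedAddCommGroup E] [NormedSpace ℂ E] [FiniteDimensional ℂ E] {K : ℕ}
  {O : Set X} {P : X → E →L[ℂ] E} {Γ : Type*} [Group Γ] {ρ : Γ →* (X ≃ₗᵢ[ℝ] X)}
  {τ : Γ → (E ≃L[ℂ] E)}

omit [FiniteDimensional ℝ X] [Nontrivial X] [FiniteDimensional ℂ E] in
private theorem eqv_isolated {s : X → E} {U : Set X} (hU : IsOpen U)
    (hf : {x | x ∈ U ∧ s x = 0}.Finite) {x : X} (hx : x ∈ U) : ∀ᶠ y in 𝓝[≠] x, s y ≠ 0 := by
  have h1 : ∀ᶠ y in 𝓝 x, y ∉ {x | x ∈ U ∧ s x = 0} \ {x} := by
    have hcl : IsClosed ({x | x ∈ U ∧ s x = 0} \ {x}) := (hf.subset Set.sdiff_subset).isClosed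
    exact hcl.isOpen_compl.mem_nhds fun h => h.2 rfl
  have h2 : ∀ᶠ y in 𝓝 x, y ∈ U := hU.mem_nhds hx
  filter_upwards [nhdsWithin_le_nhds h1, nhdsWithin_le_nhds h2, self_mem_nhdsWithin]
    with y hy1 hy2 hy3 hy4
  exact hy1 ⟨⟨hy2, hy4⟩, hy3⟩

omit [FiniteDimensional ℝ X] [Nontrivial X] [FiniteDimensional ℂ E] in
private theorem eqv_loc_cont {s : X → E} (hs : IsSec O P s) (e : X ≃L[ℝ] (Fin K → ℂ))
    (J : E →L[ℂ] (Fin K → ℂ)) : ContinuousOn (loc e J s) O := by
  unfold loc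
  exact e.symm.continuous.comp_continuousOn (J.continuous.comp_continuousOn hs.cont)

omit [FiniteDimensional ℝ X] [Nontrivial X] in
private theorem eqv_sum {Γ : Type*} [Group Γ] [Fintype Γ] (ρ : Γ →* (X ≃ₗᵢ[ℝ] X)) (f : X → ℤ) :
    ∀ n : ℕ, ∀ F : Finset X, F.card = n → (∀ γ, ∀ x ∈ F, ρ γ x ∈ F) →
      (∀ x ∈ F, ∀ γ, γ ≠ 1 → ρ γ x ≠ x) → (∀ γ, ∀ x ∈ F, f (ρ γ x) = f x) →
      (Fintype.card Γ : ℤ) ∣ ∑ x ∈ F, f x := by
  classical
  intro n
  induction n using Nat.strong_induction_on with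
  | _ n ih =>
    intro F hn hinv hfree hf
    rcases F.eq_empty_or_nonempty with h0 | ⟨x, hx⟩
    · rw [h0, Finset.sum_empty]
      exact dvd_zero _
    · set W : Finset X := Finset.univ.image fun γ : Γ => ρ γ x with hW
      have hinj : Function.Injective fun γ : Γ => ρ γ x := by
        intro a b hab
        by_contra hne
        have h1 : b⁻¹ * a ≠ 1 := by
          intro h
          apply hne
          have := congrArg (fun z => b * z) h
          simpa using this
        apply hfree x hx _ h1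
        rw [map_mul]
        have hab' : ρ a x = ρ b x := hab
        show ρ b⁻¹ (ρ a x) = x
        rw [hab']
        have h2 : (ρ b⁻¹ * ρ b) x = x := by
          rw [← map_mul, inv_mul_cancel, map_one]
          rfl
        exact h2
      have hWF : W ⊆ F := by
        intro y hy
        obtain ⟨γ, _, rfl⟩ := Finset.mem_image.1 hy
        exact hinv γ x hx
      have hxW : x ∈ W := by
        refine Finset.mem_image.2 ⟨1, Finset.mem_univ _, ?_⟩
        rw [map_one]
        rfl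
      have hsumW : ∑ y ∈ W, f y = (Fintype.card Γ : ℤ) * f x := by
        rw [hW, Finset.sum_image (fun a _ b _ h => hinj h)]
        rw [Finset.sum_congr rfl fun γ _ => hf γ x hx]
        rw [Finset.sum_const, Finset.card_univ, nsmul_eq_mul]
      have hWinv : ∀ γ, ∀ y ∈ W, ρ γ y ∈ W := by
        intro γ y hy
        obtain ⟨γ', _, rfl⟩ := Finset.mem_image.1 hy
        refine Finset.mem_image.2 ⟨γ * γ', Finset.mem_univ _, ?_⟩
        rw [map_mul]
        rfl
      have hback : ∀ γ y, ρ γ⁻¹ (ρ γ y) = y := by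
        intro γ y
        have h2 : (ρ γ⁻¹ * ρ γ) y = y := by
          rw [← map_mul, inv_mul_cancel, map_one]
          rfl
        exact h2
      have hlt : (F \ W).card < n := by
        rw [← hn]
        exact Finset.card_lt_card ⟨Finset.sdiff_subset, fun h => (Finset.mem_sdiff.1 (h hx)).2 hxW⟩
      have hrec := ih _ hlt (F \ W) rfl (fun γ y hy => by
          rw [Finset.mem_sdiff] at hy ⊢
          refine ⟨hinv γ y hy.1, fun h => hy.2 ?_⟩
          have := hWinv γ⁻¹ _ h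
          rwa [hback] at this)
        (fun y hy => hfree y (Finset.mem_sdiff.1 hy).1)
        (fun γ y hy => hf γ y (Finset.mem_sdiff.1 hy).1)
      rw [← Finset.sum_sdiff hWF, hsumW]
      exact dvd_add hrec (dvd_mul_right _ _)

theorem ind_eqv (hO : IsOpen O) (hP : IsBun O P K) (e : X ≃L[ℝ] (Fin K → ℂ))
    (hE : IsEqBun O P ρ τ) {s : X → E} (hs : IsSec O P s) (hse : IsEqSec O ρ τ s) {γ : Γ}
    (hdet : 0 < (((ρ γ).toContinuousLinearEquiv : X ≃L[ℝ] X) : X →L[ℝ] X).det) {x : X}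
    (hx : x ∈ O) (hz : ∀ᶠ y in 𝓝[≠] x, s y ≠ 0) :
    ind e P s (ρ γ x) = ind e P s x := by
  obtain ⟨J, hJ⟩ := exists_good hP hx
  set B : X ≃L[ℝ] X := (ρ γ).toContinuousLinearEquiv with hB
  set J' : E →L[ℂ] (Fin K → ℂ) := J.comp ((τ γ).symm : E →L[ℂ] E) with hJ'
  have hJv : ∀ v, J' v = J ((τ γ).symm v) := fun v => rfl
  have hJ'good : Good P J' (ρ γ x) := by
    intro v hv hJv'
    have h1 : τ γ (P x ((τ γ).symm v)) = v := by
      rw [← hE.eqv γ x hx, ContinuousLinearEquiv.apply_symm_apply, hv]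
    have h2 : P x ((τ γ).symm v) = (τ γ).symm v := by
      apply (τ γ).injective
      rw [h1, ContinuousLinearEquiv.apply_symm_apply]
    have h3 := hJ _ h2 (by rw [← hJv]; exact hJv')
    have h4 := congrArg (τ γ) h3
    rwa [ContinuousLinearEquiv.apply_symm_apply, map_zero] at h4
  have hz' : ∀ᶠ y in 𝓝[≠] (ρ γ x), s y ≠ 0 := by
    have h1 : ∀ᶠ y in 𝓝[≠] x, s y ≠ 0 ∧ y ∈ O :=
      hz.and (nhdsWithin_le_nhds (hO.mem_nhds hx))
    have ht : Filter.Tendsto (ρ γ).symm (𝓝[≠] (ρ γ x)) (𝓝[≠] x) := by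
      refine tendsto_nhdsWithin_of_tendsto_nhds_of_eventually_within _ ?_ ?_
      · have h2 : Filter.Tendsto (ρ γ).symm (𝓝 (ρ γ x)) (𝓝 ((ρ γ).symm (ρ γ x))) :=
          (ρ γ).symm.continuous.continuousAt
        rw [LinearIsometryEquiv.symm_apply_apply] at h2
        exact h2.mono_left nhdsWithin_le_nhds
      · filter_upwards [self_mem_nhdsWithin] with y hy h2
        apply hy
        have h3 : (ρ γ).symm y = x := h2
        show y = ρ γ x
        rw [← h3, LinearIsometryEquiv.apply_symm_apply]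
    filter_upwards [ht.eventually h1] with y hy h0
    obtain ⟨hy1, hy2⟩ := hy
    have h4 := hse γ _ hy2
    rw [LinearIsometryEquiv.apply_symm_apply, h0] at h4
    exact hy1 (by simpa using h4.symm)
  have a1 := ind_spec hO hP e hs (hE.inv γ x hx) hz' hJ'good
  have a2 := ind_spec hO hP e hs hx hz hJ
  obtain ⟨R, T, hch⟩ := exists_chart hO hP hx hJ
  have hloc : ∀ y ∈ O, loc e J' s (ρ γ y) = loc e J s y := by
    intro y hy
    unfold loc
    rw [hse γ y hy, hJv, ContinuousLinearEquiv.symm_apply_apply]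
  obtain ⟨δ, hδ, hball⟩ := Metric.mem_nhdsWithin_iff.1 hz
  have a3 : ∀ᶠ r in 𝓝[>] (0 : ℝ), 0 < r ∧ r < min R δ := by
    have h1 : Ioo (0 : ℝ) (min R δ) ∈ 𝓝[>] (0 : ℝ) := Ioo_mem_nhdsGT (lt_min hch.pos hδ)
    filter_upwards [h1] with r hr
    exact hr
  obtain ⟨r, hr1, hr2, hr0, hr3⟩ := (a1.and (a2.and a3)).exists
  have hrR : r ≤ R := (hr3.le).trans (min_le_left _ _)
  have hrδ : r < δ := hr3.trans_le (min_le_right _ _)
  have hsubO : closedBall x r ⊆ O := (closedBall_subset_closedBall hrR).trans hch.sub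
  have hne : ∀ y ∈ sphere x r, loc e J s y ≠ 0 := by
    intro y hy h0
    have hyx : y ≠ x := by
      rintro rfl
      rw [mem_sphere, dist_self] at hy
      exact hr0.ne hy
    have hy1 : y ∈ closedBall x r := sphere_subset_closedBall hy
    have hy2 : s y ≠ 0 := hball ⟨by rw [mem_ball, mem_sphere.1 hy]; exact hrδ, hyx⟩
    have h1 : J (s y) = 0 := by
      have h2 := congrArg e h0
      unfold loc at h2
      rwa [ContinuousLinearEquiv.apply_symm_apply, map_zero] at h2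
    exact hy2 (hch.good (closedBall_subset_closedBall hrR hy1) _ (hs.mem y (hsubO hy1)) h1)
  have himg : ∀ z ∈ closedBall (ρ γ x) r, ∃ y ∈ closedBall x r, ρ γ y = z := by
    intro z hz
    refine ⟨(ρ γ).symm z, ?_, LinearIsometryEquiv.apply_symm_apply _ _⟩
    rw [mem_closedBall] at hz ⊢
    rw [← LinearIsometryEquiv.dist_map (ρ γ), LinearIsometryEquiv.apply_symm_apply]
    exact hz
  have hsubO' : closedBall (ρ γ x) r ⊆ O := by
    intro z hz
    obtain ⟨y, hy, rfl⟩ := himg z hz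
    exact hE.inv γ y (hsubO hy)
  have hdeg := deg_comp_right (V := ball (ρ γ x) r) isOpen_ball isBounded_ball
    (g := loc e J' s) ((eqv_loc_cont hs e J').mono (closure_ball_subset_closedBall.trans hsubO'))
    (by
      intro z hz
      have hz1 : z ∈ sphere (ρ γ x) r := frontier_ball_subset_sphere hz
      obtain ⟨y, hy, rfl⟩ := himg z (sphere_subset_closedBall hz1)
      rw [hloc y (hsubO hy)]
      apply hne
      rw [mem_sphere, ← LinearIsometryEquiv.dist_map (ρ γ)]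
      exact hz1) B
  have hpre : B ⁻¹' ball (ρ γ x) r = ball x r := (ρ γ).isometry.preimage_ball x r
  rw [hpre, sign_pos hdet, SignType.coe_one, one_mul] at hdeg
  have hcg : deg (ball x r) (fun y => loc e J' s (B y)) = deg (ball x r) (loc e J s) := by
    refine deg_congr fun y hy => ?_
    exact hloc y (hsubO (sphere_subset_closedBall (frontier_ball_subset_sphere hy)))
  rw [← hr1, ← hr2, ← hcg, hdeg]

theorem cntS_image (hO : IsOpen O) (hP : IsBun O P K) (e : X ≃L[ℝ] (Fin K → ℂ))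
    (hE : IsEqBun O P ρ τ) {s : X → E} (hs : IsSec O P s) (hse : IsEqSec O ρ τ s) {γ : Γ}
    (hdet : 0 < (((ρ γ).toContinuousLinearEquiv : X ≃L[ℝ] X) : X →L[ℝ] X).det) {U : Set X}
    (hU : IsOpen U) (hUO : U ⊆ O) (hf : {x | x ∈ U ∧ s x = 0}.Finite) :
    cntS e P s (ρ γ '' U) = cntS e P s U := by
  unfold cntS
  have hset : {x | x ∈ ρ γ '' U ∧ s x = 0} = ρ γ '' {x | x ∈ U ∧ s x = 0} := by
    ext y
    constructor
    · rintro ⟨⟨x, hx, rfl⟩, h0⟩
      refine ⟨x, ⟨hx, ?_⟩, rfl⟩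
      rw [hse γ x (hUO hx)] at h0
      simpa using h0
    · rintro ⟨x, ⟨hx, h0⟩, rfl⟩
      refine ⟨⟨x, hx, rfl⟩, ?_⟩
      rw [hse γ x (hUO hx), h0, map_zero]
  rw [hset, finsum_mem_image (ρ γ).injective.injOn]
  refine finsum_mem_congr rfl fun x hx => ?_
  exact ind_eqv hO hP e hE hs hse hdet (hUO hx.1) (eqv_isolated hU hf hx.1)

theorem card_dvd_cntS [Finite Γ] (hO : IsOpen O) (hP : IsBun O P K) (e : X ≃L[ℝ] (Fin K → ℂ))
    (hE : IsEqBun O P ρ τ) {s : X → E} (hs : IsSec O P s) (hse : IsEqSec O ρ τ s)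
    (hdet : ∀ γ, 0 < (((ρ γ).toContinuousLinearEquiv : X ≃L[ℝ] X) : X →L[ℝ] X).det) {U : Set X}
    (hU : IsOpen U) (hUO : U ⊆ O) (hUi : ∀ γ, ∀ x ∈ U, ρ γ x ∈ U)
    (hf : {x | x ∈ U ∧ s x = 0}.Finite) (hfree : ∀ x ∈ U, s x = 0 → ∀ γ, γ ≠ 1 → ρ γ x ≠ x) :
    (Nat.card Γ : ℤ) ∣ cntS e P s U := by
  classical
  have := Fintype.ofFinite Γ
  rw [Nat.card_eq_fintype_card]
  unfold cntS
  rw [finsum_mem_eq_finite_toFinset_sum _ hf]
  refine eqv_sum ρ (ind e P s) _ hf.toFinset rfl ?_ ?_ ?_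
  · intro γ x hx
    rw [Set.Finite.mem_toFinset] at hx ⊢
    refine ⟨hUi γ x hx.1, ?_⟩
    rw [hse γ x (hUO hx.1), hx.2, map_zero]
  · intro x hx
    rw [Set.Finite.mem_toFinset] at hx
    exact hfree x hx.1 hx.2
  · intro γ x hx
    rw [Set.Finite.mem_toFinset] at hx
    exact ind_eqv hO hP e hE hs hse (hdet γ) (hUO hx.1) (eqv_isolated hU hf hx.1)

end EMU
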