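import Pool.Agent.Lib.EMU.B.ExStep

/-!
# MP_9aab3b_gt, module B.Ex: equivariant perturbation with finitely many zeros in a compact set

PROOF. For every `x ∈ C` there are a good `J`, a chart (`exists_good`, `exists_chart`) of radius `r_x`, and since `Γ` is finite and acts freely at
`x`, one can shrink `r_x` (`IsChart.mono`) so that `ρ γ '' closedBall x r_x` is disjoint from `closedBall x r_x` for all `γ ≠ 1`
(`2 r_x < dist (ρ γ x) x`, `ρ γ` is an isometry: the image is `closedBall (ρ γ x) r_x`). The balls `ball x (r_x / 2)` cover the compact set `C`: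
finitely many points `x_1, ..., x_n`. Induction on `j`: there are an equivariant section `s_j` with `‖s_j - s‖ ≤ j ε / n` on `O` and an
open set `N_j ⊆ O` containing the compact invariant set `C_j = ⋃ i ≤ j, ⋃ γ, ρ γ '' closedBall x_i (r_i / 2)` in which `s_j` has finitely many
zeros: `ex_step` (with `C₀ = C_j`, `r₁ = r_{j+1} / 2`). (For `j = 0`: `C₀ = ∅`, `N = ∅`.) At the end `C ⊆ C_n ⊆ N_n`.
If `n = 0` then `C = ∅` and `s' = s`.
-/

set_option autoImplicit false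

open Set Metric Topology

namespace EMU

variable {X E : Type*} [NormedAddCommGroup X] [NormedSpace ℝ X] [FiniteDimensional ℝ X] [Nontrivial X]
  [NormedAddCommGroup E] [NormedSpace ℂ E] [FiniteDimensional ℂ E] {K : ℕ}
  {O : Set X} {P : X → E →L[ℂ] E} {Γ : Type*} [Group Γ] {ρ : Γ →* (X ≃ₗᵢ[ℝ] X)}
  {τ : Γ → (E ≃L[ℂ] E)}

omit [Nontrivial X] in
private theorem Ex_loc [Finite Γ] (hO : IsOpen O) (hP : IsBun O P K) {x : X} (hxO : x ∈ O)
    (hfree : ∀ γ, γ ≠ 1 → ρ γ x ≠ x) :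
    ∃ (r : ℝ) (J : E →L[ℂ] (Fin K → ℂ)) (T : X → (Fin K → ℂ) →L[ℂ] E), IsChart O P x r J T ∧
      ∀ γ, γ ≠ 1 → Disjoint (ρ γ '' closedBall x r) (closedBall x r) := by
  classical
  obtain ⟨J, hJ⟩ := exists_good hP hxO
  obtain ⟨r₀, T, hch⟩ := exists_chart hO hP hxO hJ
  let f : Γ → ℝ := fun γ => if γ = 1 then 1 else dist (ρ γ x) x
  have hf : ∀ γ, 0 < f γ := by
    intro γ
    by_cases h : γ = 1
    · simp [f, h]
    · simp only [f, if_neg h]
      exact dist_pos.2 (hfree γ h)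
  obtain ⟨γ₀, hγ₀⟩ := Finite.exists_min f
  refine ⟨min r₀ (f γ₀ / 3), J, T, hch.mono (lt_min hch.pos (by linarith [hf γ₀])) (min_le_left _ _),
    fun γ hγ => ?_⟩
  rw [Set.disjoint_left]
  rintro y ⟨z, hz, rfl⟩ hy
  rw [mem_closedBall] at hz hy
  have h1 : f γ₀ ≤ dist (ρ γ x) x := by
    have := hγ₀ γ
    simpa only [f, if_neg hγ] using this
  have h2 : dist (ρ γ x) (ρ γ z) = dist x z := (ρ γ).dist_map x z
  have h3 := dist_triangle (ρ γ x) (ρ γ z) x
  have h4 : min r₀ (f γ₀ / 3) ≤ f γ₀ / 3 := min_le_right _ _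
  rw [dist_comm] at hz
  linarith [hf γ₀]

theorem exists_finite_equivariant [Finite Γ] (hO : IsOpen O) (hP : IsBun O P K)
    (e : X ≃L[ℝ] (Fin K → ℂ)) (hE : IsEqBun O P ρ τ) {s : X → E} (hs : IsSec O P s)
    (hse : IsEqSec O ρ τ s) {C : Set X} (hC : IsCompact C) (hCO : C ⊆ O)
    (hfree : ∀ x ∈ C, ∀ γ, γ ≠ 1 → ρ γ x ≠ x) {ε : ℝ} (hε : 0 < ε) :
    ∃ s' : X → E, IsSec O P s' ∧ IsEqSec O ρ τ s' ∧ (∀ x ∈ O, ‖s' x - s x‖ ≤ ε) ∧
      {x | x ∈ C ∧ s' x = 0}.Finite := by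
  classical
  have hloc : ∀ x ∈ C, ∃ (r : ℝ) (J : E →L[ℂ] (Fin K → ℂ)) (T : X → (Fin K → ℂ) →L[ℂ] E),
      IsChart O P x r J T ∧ ∀ γ, γ ≠ 1 → Disjoint (ρ γ '' closedBall x r) (closedBall x r) :=
    fun x hx => Ex_loc hO hP (hCO hx) (hfree x hx)
  choose! r J T hch hdisj using hloc
  have key : ∀ t : Finset X, (∀ x ∈ t, x ∈ C) → ∀ ε : ℝ, 0 < ε →
      ∃ s' : X → E, IsSec O P s' ∧ IsEqSec O ρ τ s' ∧ (∀ x ∈ O, ‖s' x - s x‖ ≤ ε) ∧
        ∃ N : Set X, IsOpen N ∧ N ⊆ O ∧ (⋃ x ∈ t, ⋃ γ, ρ γ '' closedBall x (r x / 2)) ⊆ N ∧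
          {x | x ∈ N ∧ s' x = 0}.Finite := by
    intro t
    induction t using Finset.induction_on with
    | empty =>
      intro _ ε hε
      refine ⟨s, hs, hse, fun x _ => ?_, ∅, isOpen_empty, empty_subset _, by simp, by simp⟩
      rw [sub_self, norm_zero]
      exact hε.le
    | insert a t hat ih =>
      intro htC ε hε
      obtain ⟨s₁, hs₁, hse₁, hd₁, N, hN, hNO, hCN, hfin⟩ :=
        ih (fun x hx => htC x (Finset.mem_insert_of_mem hx)) (ε / 2) (half_pos hε)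
      have haC : a ∈ C := htC a (Finset.mem_insert_self _ _)
      have hcomp : IsCompact (⋃ x ∈ t, ⋃ γ, ρ γ '' closedBall x (r x / 2)) := by
        refine t.isCompact_biUnion fun x _ => isCompact_iUnion fun γ => ?_
        exact (isCompact_closedBall x (r x / 2)).image (ρ γ).continuous
      have hinv : ∀ γ, ∀ x ∈ (⋃ x ∈ t, ⋃ γ, ρ γ '' closedBall x (r x / 2)),
          ρ γ x ∈ (⋃ x ∈ t, ⋃ γ, ρ γ '' closedBall x (r x / 2)) := by
        intro δ x hx
        simp only [mem_iUnion] at hx ⊢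
        obtain ⟨y, hy, γ, z, hz, rfl⟩ := hx
        refine ⟨y, hy, δ * γ, z, hz, ?_⟩
        rw [map_mul]
        rfl
      have hra := (hch a haC).pos
      obtain ⟨s₂, hs₂, hse₂, hd₂, N₂, hN₂, hNO₂, hCN₂, hbN₂, hfin₂⟩ :=
        ex_step hO hP e hE hcomp hinv hs₁ hse₁ hN hNO hCN hfin (hch a haC) (hdisj a haC)
          (r₁ := r a / 2) (by linarith) (by linarith) (half_pos hε)
      refine ⟨s₂, hs₂, hse₂, fun x hx => ?_, N₂, hN₂, hNO₂, ?_, hfin₂⟩
      · have h1 := hd₁ x hx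
        have h2 := hd₂ x hx
        have h3 : s₂ x - s x = (s₂ x - s₁ x) + (s₁ x - s x) := by abel
        rw [h3]
        refine (norm_add_le _ _).trans ?_
        linarith
      · intro x hx
        simp only [mem_iUnion] at hx
        obtain ⟨y, hy, γ, hγ⟩ := hx
        rcases Finset.mem_insert.1 hy with rfl | hy
        · exact hbN₂ γ hγ
        · apply hCN₂
          simp only [mem_iUnion]
          exact ⟨y, hy, γ, hγ⟩
  obtain ⟨t, htC, htcov⟩ := hC.elim_nhds_subcover (fun x => ball x (r x / 2))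
    (fun x hx => ball_mem_nhds x (by linarith [(hch x hx).pos]))
  obtain ⟨s', hs', hse', hd', N, hN, hNO, hCN, hfin⟩ := key t htC ε hε
  refine ⟨s', hs', hse', hd', hfin.subset ?_⟩
  rintro x ⟨hx, hx0⟩
  refine ⟨hCN ?_, hx0⟩
  have h1 := htcov hx
  simp only [mem_iUnion] at h1 ⊢
  obtain ⟨y, hy, hxy⟩ := h1
  refine ⟨y, hy, 1, x, ball_subset_closedBall hxy, ?_⟩
  rw [map_one]
  rfl

end EMU
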