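import Pool.Agent.Lib.EMU.B.Chart
import Pool.Agent.Lib.EMU.D.Pert

/-!
# MP_9aab3b_gt, module B.ExStep: making the zeros finite in one more (orbit of a) ball, equivariantly

PROOF. Choose `r₁ < r₁' < r`. `V = ball x₁ r`, `g = loc e J s` (continuous on `closedBall x₁ r ⊆ O`), `K' = closedBall x₁ r₁'`.
If `C₀ = ∅` take `A₁ = A₂ = ∅`. Otherwise: `C₀` is compact in the open set `N`, so there is `ρ₀ > 0` with
`{x | infDist x C₀ ≤ ρ₀} ⊆ N` (`IsCompact.exists_cthickening_subset_open`; `X` is proper); only finitely many values of `infDist x C₀` are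
attained at the zeros of `s` in `N`, so there are `0 < ρ' < ρ'' < ρ₀` such that no zero `x ∈ N` has `infDist x C₀ ∈ [ρ', ρ'']`. Put
`A₁ = {x | infDist x C₀ ≤ ρ'}`, `A₂ = {x | infDist x C₀ ≤ ρ''}` (closed, `A₁ ⊆ interior A₂ `, both invariant because `C₀` is
invariant and `ρ γ` is an isometry, and `{infDist < ρ'} ⊆ interior A₁`).
Apply `exists_pert_rel` (with `K = K'`; the hypothesis `hne`: for `x ∈ K' ∩ A₂ \ interior A₁` one has `x ∈ N`, `infDist ∈ [ρ', ρ'']`, so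
`s x ≠ 0`, and `J` is good at `x`, so `g x ≠ 0`) with a small `ε'`: it gives `d`, `C ⊆ V` compact with `d = 0` off `C` and on `A₁`.
Put `t x = T x (e (d x))` (a section over `O` supported in `C`, `IsChart.isSec_bump`) and
`s' x = s x + ∑ γ, τ γ (t (ρ γ⁻¹ x))`. (finite sum, `Finite Γ`.)
* It is a section: `P x (τ γ v) = τ γ (P (ρ γ⁻¹ x) v)` for `x ∈ O` (`eqv` at `ρ γ⁻¹ x`, which is in `O`).
* Equivariance: `s' (ρ δ x) = τ δ (s x) + ∑ γ, τ γ (t (ρ (γ⁻¹ δ) x))`; put `γ = δ γ'`: `τ (δ γ') v = τ δ (τ γ' v)` for `v` in a fibre (`mul`).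
* The supports `ρ γ '' C` are disjoint (`hdisj` applied to `γ⁻¹ γ'`), so at most one term is non zero at each `x` and
  `‖s' x - s x‖ ≤ (max_γ ‖τ γ‖) M ‖d‖ ≤ ε` for `ε'` small (`IsChart.bound`).
* On `closedBall x₁ r`: `s' x = s x + t x` (for `γ ≠ 1` the term vanishes by `hdisj`; for `γ = 1`, `τ 1 v = v` on fibres: `mul` with `γ = γ' = 1`
  gives `τ 1 (τ 1 v) = τ 1 v` and `τ 1` is injective), so `J (s' x) = J (s x) + e (d x)`, i.e. `loc e J s' x = g x + d x`, and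
  `s' x = 0` iff `g x + d x = 0`. Hence the zeros of `s'` in `K' \ A₁` are finite in number, and by equivariance the same holds in
  `ρ γ '' K' \ A₁`. On `A₁` (invariant, `d = 0` there) `s' = s`, whose zeros in `N ⊇ A₁` are finite in number.
* `N' = interior A₁ ∪ ⋃ γ, ρ γ '' ball x₁ r₁'` (if `C₀ = ∅`, only the second part).
-/

set_option autoImplicit false

open Set Metric Topology

namespace EMU

variable {X E : Type*} [NormedAddCommGroup X] [NormedSpace ℝ X] [FiniteDimensional ℝ X] [Nontrivial X]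
  [NormedAddCommGroup E] [NormedSpace ℂ E] [FiniteDimensional ℂ E] {K : ℕ}
  {O : Set X} {P : X → E →L[ℂ] E} {Γ : Type*} [Group Γ] {ρ : Γ →* (X ≃ₗᵢ[ℝ] X)}
  {τ : Γ → (E ≃L[ℂ] E)}

omit [FiniteDimensional ℝ X] [Nontrivial X] in
private theorem es_mul (γ γ' : Γ) (x : X) : ρ (γ * γ') x = ρ γ (ρ γ' x) := by
  rw [map_mul]
  rfl

omit [FiniteDimensional ℝ X] [Nontrivial X] in
private theorem es_one (x : X) : ρ 1 x = x := by
  rw [map_one]
  rfl

private theorem es_inv (γ : Γ) (x : X) : ρ γ (ρ γ⁻¹ x) = x := by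
  rw [← es_mul, mul_inv_cancel, es_one]

private theorem es_shell {C₀ : Set X} (hC : IsCompact C₀) (hCi : ∀ γ, ∀ x ∈ C₀, ρ γ x ∈ C₀)
    {s : X → E} {N : Set X} (hN : IsOpen N) (hCN : C₀ ⊆ N)
    (hfin : {x | x ∈ N ∧ s x = 0}.Finite) :
    ∃ A₁ A₂ : Set X, IsClosed A₁ ∧ IsClosed A₂ ∧ A₁ ⊆ interior A₂ ∧ A₂ ⊆ N ∧
      C₀ ⊆ interior A₁ ∧ (∀ γ, ∀ x ∈ A₁, ρ γ x ∈ A₁) ∧
        ∀ x ∈ A₂, x ∉ interior A₁ → s x ≠ 0 := by
  rcases C₀.eq_empty_or_nonempty with h | hne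
  · refine ⟨∅, ∅, isClosed_empty, isClosed_empty, empty_subset _, empty_subset _, ?_, ?_, ?_⟩
    · rw [h]
      exact empty_subset _
    · intro γ x hx
      exact hx.elim
    · intro x hx
      exact hx.elim
  · obtain ⟨δ, hδ, hδN⟩ := hC.exists_cthickening_subset_open hN hCN
    obtain ⟨D, hDdef⟩ : ∃ D : Set ℝ, D = (fun x => infDist x C₀) '' {x | x ∈ N ∧ s x = 0} :=
      ⟨_, rfl⟩
    have hD : D.Finite := by
      rw [hDdef]
      exact hfin.image _
    obtain ⟨a, ⟨ha0, haδ⟩, haD⟩ : ∃ a ∈ Ioo (0 : ℝ) δ, a ∉ D := by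
      obtain ⟨a, ha, haD⟩ := ((Ioo_infinite hδ).sdiff hD).nonempty
      exact ⟨a, ha, haD⟩
    obtain ⟨η, hη, hball⟩ := Metric.isOpen_iff.1 hD.isClosed.isOpen_compl a haD
    obtain ⟨b, hb0, hba, hbD⟩ : ∃ b, 0 < b ∧ b < a ∧ ∀ y, b ≤ y → y ≤ a → y ∉ D := by
      refine ⟨max (a / 2) (a - η / 2), lt_max_of_lt_left (by linarith),
        max_lt (by linarith) (by linarith), fun y hy1 hy2 hyD => ?_⟩
      have h1 : a - η / 2 ≤ y := (le_max_right _ _).trans hy1
      have h2 : y ∈ ball a η := by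
        rw [mem_ball, Real.dist_eq, abs_lt]
        constructor <;> linarith
      exact hball h2 hyD
    have hcont : Continuous fun x : X => infDist x C₀ := continuous_infDist_pt C₀
    have hint : ∀ c : ℝ, {x : X | infDist x C₀ < c} ⊆ interior {x : X | infDist x C₀ ≤ c} :=
      fun c => interior_maximal (fun x (hx : infDist x C₀ < c) => (le_of_lt hx : infDist x C₀ ≤ c))
        (isOpen_lt hcont continuous_const)
    refine ⟨{x | infDist x C₀ ≤ b}, {x | infDist x C₀ ≤ a}, isClosed_le hcont continuous_const,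
      isClosed_le hcont continuous_const, ?_, ?_, ?_, ?_, ?_⟩
    · intro x hx
      exact hint a (lt_of_le_of_lt hx hba)
    · intro x hx
      refine hδN (thickening_subset_cthickening δ C₀ ?_)
      rw [mem_thickening_iff_infDist_lt hne]
      exact lt_of_le_of_lt hx haδ
    · intro x hx
      refine hint b ?_
      show infDist x C₀ < b
      rw [infDist_zero_of_mem hx]
      exact hb0
    · intro γ x hx
      obtain ⟨c, hc, hxc⟩ := hC.exists_infDist_eq_dist hne x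
      have h1 : infDist (ρ γ x) C₀ ≤ dist (ρ γ x) (ρ γ c) := infDist_le_dist_of_mem (hCi γ c hc)
      rw [LinearIsometryEquiv.dist_map, ← hxc] at h1
      exact h1.trans hx
    · intro x hx hxi h0
      have h1 : b ≤ infDist x C₀ := by
        by_contra h2
        exact hxi (hint b (not_le.1 h2))
      refine hbD _ h1 hx ?_
      rw [hDdef]
      refine ⟨x, ⟨?_, h0⟩, rfl⟩
      refine hδN (thickening_subset_cthickening δ C₀ ?_)
      rw [mem_thickening_iff_infDist_lt hne]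
      exact lt_of_le_of_lt hx haδ

omit [FiniteDimensional ℂ E] [Group Γ] in
private theorem es_bdd [Finite Γ] (τ : Γ → (E ≃L[ℂ] E)) :
    ∃ B : ℝ, 0 < B ∧ ∀ γ v, ‖τ γ v‖ ≤ B * ‖v‖ := by
  have : Fintype Γ := Fintype.ofFinite Γ
  refine ⟨∑ γ, ‖((τ γ : E ≃L[ℂ] E) : E →L[ℂ] E)‖ + 1, ?_, fun γ v => ?_⟩
  · have : 0 ≤ ∑ γ, ‖((τ γ : E ≃L[ℂ] E) : E →L[ℂ] E)‖ := Finset.sum_nonneg fun _ _ => norm_nonneg _
    linarith
  · have h1 : ‖((τ γ : E ≃L[ℂ] E) : E →L[ℂ] E)‖ ≤ ∑ γ, ‖((τ γ : E ≃L[ℂ] E) : E →L[ℂ] E)‖ :=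
      Finset.single_le_sum (f := fun γ => ‖((τ γ : E ≃L[ℂ] E) : E →L[ℂ] E)‖)
        (fun _ _ => norm_nonneg _) (Finset.mem_univ γ)
    have h2 : ‖((τ γ : E ≃L[ℂ] E) : E →L[ℂ] E) v‖ ≤ ‖((τ γ : E ≃L[ℂ] E) : E →L[ℂ] E)‖ * ‖v‖ :=
      ContinuousLinearMap.le_opNorm _ _
    have h3 : τ γ v = ((τ γ : E ≃L[ℂ] E) : E →L[ℂ] E) v := rfl
    rw [h3]
    refine h2.trans (mul_le_mul_of_nonneg_right ?_ (norm_nonneg _))
    linarith

omit [FiniteDimensional ℝ X] [Nontrivial X] [FiniteDimensional ℂ E] in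
private theorem es_tau_one (hE : IsEqBun O P ρ τ) {x : X} (hx : x ∈ O) {v : E} (hv : P x v = v) :
    τ 1 v = v := by
  have h1 := hE.mul 1 1 x hx v hv
  rw [mul_one] at h1
  exact (τ 1).injective h1

theorem ex_step [Finite Γ] (hO : IsOpen O) (hP : IsBun O P K) (e : X ≃L[ℝ] (Fin K → ℂ))
    (hE : IsEqBun O P ρ τ) {C₀ : Set X} (hC : IsCompact C₀) (hCi : ∀ γ, ∀ x ∈ C₀, ρ γ x ∈ C₀)
    {s : X → E} (hs : IsSec O P s) (hse : IsEqSec O ρ τ s) {N : Set X} (hN : IsOpen N)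
    (hNO : N ⊆ O) (hCN : C₀ ⊆ N) (hfin : {x | x ∈ N ∧ s x = 0}.Finite) {x₁ : X} {r : ℝ}
    {J : E →L[ℂ] (Fin K → ℂ)} {T : X → (Fin K → ℂ) →L[ℂ] E} (hch : IsChart O P x₁ r J T)
    (hdisj : ∀ γ, γ ≠ 1 → Disjoint (ρ γ '' closedBall x₁ r) (closedBall x₁ r)) {r₁ : ℝ}
    (h1 : 0 < r₁) (hr : r₁ < r) {ε : ℝ} (hε : 0 < ε) :
    ∃ s' : X → E, IsSec O P s' ∧ IsEqSec O ρ τ s' ∧ (∀ x ∈ O, ‖s' x - s x‖ ≤ ε) ∧
      ∃ N' : Set X, IsOpen N' ∧ N' ⊆ O ∧ C₀ ⊆ N' ∧ (∀ γ, ρ γ '' closedBall x₁ r₁ ⊆ N') ∧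
        {x | x ∈ N' ∧ s' x = 0}.Finite := by
  classical
  have : Fintype Γ := Fintype.ofFinite Γ
  obtain ⟨A₁, A₂, hA1, hA2, h12, hA2N, hCA, hAi, hA⟩ := es_shell (ρ := ρ) hC hCi hN hCN hfin
  obtain ⟨M, hM, hMb⟩ := hch.bound e
  obtain ⟨B, hB, hBb⟩ := es_bdd (τ := τ)
  obtain ⟨r', hr1', hr'⟩ : ∃ r', r₁ < r' ∧ r' < r := exists_between hr
  have hVcl : closure (ball x₁ r) ⊆ closedBall x₁ r := closure_ball_subset_closedBall
  have hsub := hch.sub
  have hg : ContinuousOn (loc e J s) (closure (ball x₁ r)) := by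
    have h1 : ContinuousOn s (closure (ball x₁ r)) := hs.cont.mono (hVcl.trans hsub)
    exact (e.symm.continuous.comp J.continuous).comp_continuousOn h1
  have hJ0 : ∀ x ∈ closedBall x₁ r, J (s x) = 0 → s x = 0 := by
    intro x hx h0
    have h1 := hch.TJ x hx (s x) (hs.mem x (hsub hx))
    rw [h0, map_zero] at h1
    exact h1.symm
  have hne : ∀ x ∈ closedBall x₁ r', x ∈ A₂ → x ∉ interior A₁ → loc e J s x ≠ 0 := by
    intro x hx hxA hxi h0
    have hx' : x ∈ closedBall x₁ r := closedBall_subset_closedBall hr'.le hx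
    refine hA x hxA hxi (hJ0 x hx' ?_)
    exact e.symm.map_eq_zero_iff.1 h0
  have hKV : closedBall x₁ r' ⊆ ball x₁ r := closedBall_subset_ball hr'
  have hBM : 0 < B * M := mul_pos hB hM
  obtain ⟨d, hdc, ⟨C, hCc, hCV, hdC⟩, hdA, hdb, hdf⟩ := exists_pert_rel isOpen_ball isBounded_ball
    hg (isCompact_closedBall x₁ r') hKV hA1 hA2 h12 hne (ε := ε / (B * M)) (div_pos hε hBM)
  obtain ⟨t, ht⟩ : ∃ t : X → E, t = fun x => T x (e (d x)) := ⟨_, rfl⟩
  have htx : ∀ x, t x = T x (e (d x)) := fun x => by rw [ht]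
  have htS : IsSec O P t := by
    rw [ht]
    exact hch.isSec_bump e hdc hCc hCV hdC
  have ht0 : ∀ x, d x = 0 → t x = 0 := by
    intro x hx
    rw [htx, hx, map_zero, map_zero]
  have htC : ∀ x, x ∉ closedBall x₁ r → t x = 0 := fun x hx =>
    ht0 x (hdC x fun h => hx (ball_subset_closedBall (hCV h)))
  have htb : ∀ x, ‖t x‖ ≤ M * (ε / (B * M)) := by
    intro x
    by_cases hx : x ∈ closedBall x₁ r
    · rw [htx]
      exact (hMb x hx _).trans (mul_le_mul_of_nonneg_left (hdb x) hM.le)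
    · rw [htC x hx, norm_zero]
      positivity
  have hone : ∀ γ x, x ∈ closedBall x₁ r → ρ γ x ∈ closedBall x₁ r → γ = 1 := by
    intro γ x hx hγx
    by_contra hγ
    exact disjoint_left.1 (hdisj γ hγ) (mem_image_of_mem _ hx) hγx
  have huniq : ∀ γ γ' x, t (ρ γ⁻¹ x) ≠ 0 → t (ρ γ'⁻¹ x) ≠ 0 → γ = γ' := by
    intro γ γ' x h1 h2
    have h3 : ρ γ⁻¹ x ∈ closedBall x₁ r := by
      by_contra h
      exact h1 (htC _ h)
    have h4 : ρ γ'⁻¹ x ∈ closedBall x₁ r := by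
      by_contra h
      exact h2 (htC _ h)
    have h5 : ρ (γ'⁻¹ * γ) (ρ γ⁻¹ x) = ρ γ'⁻¹ x := by
      rw [es_mul, es_inv]
    have h6 := hone _ _ h3 (h5 ▸ h4)
    rw [inv_mul_eq_one] at h6
    exact h6.symm
  obtain ⟨s', hs'⟩ : ∃ s' : X → E, s' = fun x => s x + ∑ γ, τ γ (t (ρ γ⁻¹ x)) := ⟨_, rfl⟩
  have hs'x : ∀ x, s' x = s x + ∑ γ, τ γ (t (ρ γ⁻¹ x)) := fun x => by rw [hs']
  have hsec : IsSec O P s' := by
    refine ⟨?_, fun x hx => ?_⟩
    · rw [hs']
      refine hs.cont.add (continuousOn_finsetSum _ fun γ _ => ?_)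
      refine (τ γ).continuous.comp_continuousOn ?_
      exact htS.cont.comp (ρ γ⁻¹).continuous.continuousOn fun x hx => hE.inv γ⁻¹ x hx
    · rw [hs'x, map_add, hs.mem x hx, map_sum]
      congr 1
      refine Finset.sum_congr rfl fun γ _ => ?_
      have hx' := hE.inv γ⁻¹ x hx
      have h1 := hE.eqv γ (ρ γ⁻¹ x) hx' (t (ρ γ⁻¹ x))
      rw [es_inv, htS.mem _ hx'] at h1
      exact h1
  have heq : IsEqSec O ρ τ s' := by
    intro δ x hx
    rw [hs'x, hs'x, map_add, hse δ x hx, map_sum]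
    congr 1
    rw [← Equiv.sum_comp (Equiv.mulLeft δ)]
    refine Finset.sum_congr rfl fun γ _ => ?_
    have h1 : ρ (δ * γ)⁻¹ (ρ δ x) = ρ γ⁻¹ x := by
      rw [← es_mul]
      congr 2
      group
    have hx' := hE.inv γ⁻¹ x hx
    show τ (δ * γ) (t (ρ (δ * γ)⁻¹ (ρ δ x))) = τ δ (τ γ (t (ρ γ⁻¹ x)))
    rw [h1]
    exact (hE.mul δ γ _ hx' _ (htS.mem _ hx')).symm
  have hball : ∀ x ∈ closedBall x₁ r, s' x = s x + t x := by
    intro x hx
    rw [hs'x]
    congr 1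
    rw [Finset.sum_eq_single (1 : Γ)]
    · rw [inv_one, es_one]
      exact es_tau_one hE (hsub hx) (htS.mem x (hsub hx))
    · intro γ _ hγ
      rw [htC, map_zero]
      intro h
      exact hγ (inv_eq_one.1 (hone γ⁻¹ x hx h))
    · intro h
      exact absurd (Finset.mem_univ _) h
  have hA' : ∀ x ∈ A₁, s' x = s x := by
    intro x hx
    rw [hs'x, Finset.sum_eq_zero, add_zero]
    intro γ _
    rw [ht0 _ (hdA _ (hAi γ⁻¹ x hx)), map_zero]
  refine ⟨s', hsec, heq, fun x hx => ?_, interior A₁ ∪ ⋃ γ, ρ γ '' ball x₁ r', ?_, ?_, ?_, ?_, ?_⟩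
  · rw [hs'x, add_sub_cancel_left]
    by_cases h : ∃ γ₀, t (ρ γ₀⁻¹ x) ≠ 0
    · obtain ⟨γ₀, h0⟩ := h
      rw [Finset.sum_eq_single γ₀]
      · refine (hBb γ₀ _).trans ((mul_le_mul_of_nonneg_left (htb _) hB.le).trans (le_of_eq ?_))
        field_simp
      · intro γ _ hγ
        have h1 : t (ρ γ⁻¹ x) = 0 := by
          by_contra h2
          exact hγ (huniq γ γ₀ x h2 h0)
        rw [h1, map_zero]
      · intro h
        exact absurd (Finset.mem_univ _) h
    · push_neg at h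
      rw [Finset.sum_eq_zero, norm_zero]
      · exact hε.le
      · intro γ _
        rw [h γ, map_zero]
  · refine isOpen_interior.union (isOpen_iUnion fun γ => ?_)
    rw [LinearIsometryEquiv.image_ball]
    exact isOpen_ball
  · refine union_subset ?_ (iUnion_subset fun γ => ?_)
    · exact (interior_subset.trans (h12.trans interior_subset)).trans (hA2N.trans hNO)
    · rintro _ ⟨x, hx, rfl⟩
      exact hE.inv γ x (hsub (ball_subset_closedBall (ball_subset_ball hr'.le hx)))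
  · exact hCA.trans subset_union_left
  · intro γ
    refine Subset.trans ?_ (subset_union_right.trans' (subset_iUnion (fun γ => ρ γ '' ball x₁ r') γ))
    exact image_mono (closedBall_subset_ball hr1')
  · refine (hfin.union (finite_iUnion fun γ => hdf.image (ρ γ))).subset ?_
    rintro z ⟨hz, hz0⟩
    by_cases hzA : z ∈ A₁
    · left
      refine ⟨hA2N (interior_subset (h12 hzA)), ?_⟩
      rw [← hA' z hzA]
      exact hz0
    · right
      rcases hz with hz | hz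
      · exact absurd (interior_subset hz) hzA
      · obtain ⟨γ, x, hx, rfl⟩ := mem_iUnion.1 hz
        refine mem_iUnion.2 ⟨γ, x, ⟨ball_subset_closedBall hx, fun h => hzA (hAi γ x h), ?_⟩, rfl⟩
        have hxr : x ∈ closedBall x₁ r := ball_subset_closedBall (ball_subset_ball hr'.le hx)
        have h1 : s' x = 0 := by
          have h2 := heq γ x (hsub hxr)
          rw [hz0] at h2
          exact ((τ γ).map_eq_zero_iff.1 h2.symm)
        rw [hball x hxr] at h1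
        have h2 : J (s x) + e (d x) = 0 := by
          have h3 := congrArg J h1
          rw [map_add, map_zero, htx, hch.JT x hxr] at h3
          exact h3
        show e.symm (J (s x)) + d x = 0
        have h4 : e.symm (J (s x) + e (d x)) = 0 := by rw [h2, map_zero]
        rw [map_add, ContinuousLinearEquiv.symm_apply_apply] at h4
        exact h4

end EMU
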