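import Pool.Agent.Lib.EMU.B.Chart
import Pool.Agent.Lib.EMU.D.Add
import Pool.Agent.Lib.EMU.D.Cube

/-!
# MP_9aab3b_gt, module B.Ind: the index of an isolated zero is well defined

PROOF. `ind_congr`: for small `r` the functions `loc e J s`, `loc e J s'` agree on `closedBall x r`, which contains the frontier of the ball,
so the degrees agree (`deg_congr`): the conditions in the two definitions are the same for every `m, J` (`Filter.Eventually` congruence),
so `ind` is the same by `congr`/`simp` (prove the predicates are equal, `funext`, `propext`).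
`deg_ball_const`: `J` good at `x`: take a chart of radius `R` (`exists_chart`), smaller than the radius on which `s ≠ 0` off `x`. For
`0 < r ≤ r' < R`, `deg (ball x r) g = deg (ball x r') g`, `g = loc e J s`, by `deg_sum` with one set (`g y = 0` iff `s y = 0` since `J` is
good at `y`, so there is no zero of `g` in `closedBall x R` except possibly `x`).
`ind_spec`: by `deg_ball_const` the condition in `ind` holds for `J` and some `m`; so `ind e P s x` is given by some `J'` good at `x` and it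
remains to see that `J` and `J'` give the same degree for small `r`. Let `R : (Fin K → ℂ) →L[ℂ] E` be the inverse of `J` on the fibre at `x`
(from a chart: `R = T x`). `A = J' ∘ R : (Fin K → ℂ) → (Fin K → ℂ)` is injective, so a complex linear isomorphism. `D = J' - A ∘ J` vanishes on
the fibre at `x`, so `D (s y) = D (s y - P x (s y)) = D ((P y - P x) (s y))` and `‖D (s y)‖ ≤ ‖D‖ ‖P y - P x‖ ‖s y‖`, while
`‖A (J (s y))‖ ≥ c ‖s y‖` with `c > 0` for `y` near `x` (by the chart: `s y = T y (J (s y))`, `T` bounded). So for small `r`, on the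
sphere, `‖loc e J' s y - e.symm (A (J (s y)))‖ < ‖e.symm (A (J (s y)))‖` (norms are equivalent through `e`), and
`deg_rouche` + `deg_comp_left` with the real isomorphism `e.symm ∘ A ∘ e`, whose determinant is positive (`det_real_pos`), give
`deg (ball x r) (loc e J' s) = deg (ball x r) (loc e J s)`.
(Note that `s x = 0` is not assumed: then there is no zero near `x` and both degrees are `0`; the same proof works if the
zeros of `s` in a small closed ball are contained in `{x}`.)
`ind_eq_zero`: if `s x ≠ 0` then `loc e J s` has no zero on small closed balls: `deg_sum` with `s = ∅`.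
-/

set_option autoImplicit false

open Set Metric Topology

namespace EMU

variable {X E : Type*} [NormedAddCommGroup X] [NormedSpace ℝ X] [FiniteDimensional ℝ X] [Nontrivial X]
  [NormedAddCommGroup E] [NormedSpace ℂ E] [FiniteDimensional ℂ E] {K : ℕ}
  {O : Set X} {P : X → E →L[ℂ] E}

open Classical in
private lemma ind_dite_congr {p q : ℤ → Prop} (h : p = q) :
    (if h : ∃ m, p m then h.choose else 0) = (if h : ∃ m, q m then h.choose else 0) := by
  subst h
  rfl

omit [FiniteDimensional ℝ X] [Nontrivial X] [FiniteDimensional ℂ E] in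
theorem ind_congr (e : X ≃L[ℝ] (Fin K → ℂ)) {s s' : X → E} {x : X} (h : s =ᶠ[𝓝 x] s') :
    ind e P s x = ind e P s' x := by
  obtain ⟨ε, hε, hb⟩ := Metric.eventually_nhds_iff_ball.mp h
  have key : ∀ J : E →L[ℂ] (Fin K → ℂ), ∀ᶠ r in 𝓝[>] (0 : ℝ),
      deg (ball x r) (loc e J s) = deg (ball x r) (loc e J s') := by
    intro J
    filter_upwards [Ioo_mem_nhdsGT hε] with r hr
    refine deg_congr ?_
    intro y hy
    have h1 : y ∈ closedBall x r := closure_ball_subset_closedBall (frontier_subset_closure hy)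
    have h2 : y ∈ ball x ε := closedBall_subset_ball hr.2 h1
    simp only [loc, hb y h2]
  unfold ind
  refine ind_dite_congr ?_
  funext m
  apply propext
  refine exists_congr fun J => and_congr_right fun _ => ?_
  refine Filter.eventually_congr ?_
  filter_upwards [key J] with r hr
  rw [hr]

private lemma ind_ball_eq {g : X → X} {x : X} {R : ℝ} (hg : ContinuousOn g (closedBall x R))
    (hz : ∀ y ∈ closedBall x R, y ≠ x → g y ≠ 0) {r : ℝ} (h0 : 0 < r) (hr : r ≤ R) :
    deg (ball x R) g = deg (ball x r) g := by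
  have h := deg_sum (V := ball x R) isOpen_ball isBounded_ball
    (hg.mono closure_ball_subset_closedBall) ({()} : Finset Unit) (fun _ => ball x r)
    (fun _ _ => isOpen_ball) (fun _ _ => ball_subset_ball hr)
    (fun i _ j _ hij => absurd (Subsingleton.elim i j) hij)
    (by
      intro y hy hn
      apply hz y (closure_ball_subset_closedBall hy)
      rintro rfl
      exact hn () (Finset.mem_singleton_self _) (mem_ball_self h0))
  simpa using h

omit [FiniteDimensional ℝ X] [Nontrivial X] [FiniteDimensional ℂ E] in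
private lemma ind_loc_cont (e : X ≃L[ℝ] (Fin K → ℂ)) {s : X → E} (hs : IsSec O P s)
    (J : E →L[ℂ] (Fin K → ℂ)) : ContinuousOn (loc e J s) O := by
  unfold loc
  exact e.symm.continuous.comp_continuousOn (J.continuous.comp_continuousOn hs.cont)

omit [FiniteDimensional ℝ X] [Nontrivial X] [FiniteDimensional ℂ E] in
private lemma ind_loc_ne (e : X ≃L[ℝ] (Fin K → ℂ)) {s : X → E} (hs : IsSec O P s)
    {J : E →L[ℂ] (Fin K → ℂ)} {y : X} (hy : y ∈ O) (hJ : Good P J y) (h : s y ≠ 0) :
    loc e J s y ≠ 0 := by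
  intro h0
  apply h
  apply hJ _ (hs.mem y hy)
  unfold loc at h0
  exact (map_eq_zero_iff e.symm e.symm.injective).mp h0

theorem deg_ball_const (hO : IsOpen O) (hP : IsBun O P K) (e : X ≃L[ℝ] (Fin K → ℂ)) {s : X → E}
    (hs : IsSec O P s) {x : X} (hx : x ∈ O) (hz : ∀ᶠ y in 𝓝[≠] x, s y ≠ 0)
    {J : E →L[ℂ] (Fin K → ℂ)} (hJ : Good P J x) :
    ∃ m : ℤ, ∀ᶠ r in 𝓝[>] (0 : ℝ), deg (ball x r) (loc e J s) = m := by
  obtain ⟨r0, T, hT⟩ := exists_chart hO hP hx hJ
  rw [eventually_nhdsWithin_iff] at hz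
  obtain ⟨ε, hε, hb⟩ := Metric.eventually_nhds_iff_ball.mp hz
  set R := min r0 (ε / 2) with hR
  have hR0 : 0 < R := lt_min hT.pos (half_pos hε)
  have hsub : closedBall x R ⊆ closedBall x r0 := closedBall_subset_closedBall (min_le_left _ _)
  have hg : ContinuousOn (loc e J s) (closedBall x R) :=
    (ind_loc_cont e hs J).mono (hsub.trans hT.sub)
  have hz' : ∀ y ∈ closedBall x R, y ≠ x → loc e J s y ≠ 0 := by
    intro y hy hyx
    have h1 : y ∈ closedBall x r0 := hsub hy
    apply ind_loc_ne e hs (hT.sub h1) (hT.good h1)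
    apply hb y _ hyx
    have : dist y x ≤ R := hy
    have h2 : R ≤ ε / 2 := min_le_right _ _
    rw [mem_ball]
    linarith
  refine ⟨deg (ball x R) (loc e J s), ?_⟩
  filter_upwards [Ioo_mem_nhdsGT hR0] with r hr
  exact (ind_ball_eq hg hz' hr.1 hr.2.le).symm

private lemma ind_indep (hO : IsOpen O) (hP : IsBun O P K) (e : X ≃L[ℝ] (Fin K → ℂ)) {s : X → E}
    (hs : IsSec O P s) {x : X} (hx : x ∈ O) (hz : ∀ᶠ y in 𝓝[≠] x, s y ≠ 0)
    {J J' : E →L[ℂ] (Fin K → ℂ)} (hJ : Good P J x) (hJ' : Good P J' x) :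
    ∀ᶠ r in 𝓝[>] (0 : ℝ), deg (ball x r) (loc e J' s) = deg (ball x r) (loc e J s) := by
  obtain ⟨r0, T, hT⟩ := exists_chart hO hP hx hJ
  rw [eventually_nhdsWithin_iff] at hz
  obtain ⟨ε, hε, hb⟩ := Metric.eventually_nhds_iff_ball.mp hz
  have hxc : x ∈ closedBall x r0 := mem_closedBall_self hT.pos.le
  -- the isomorphism `A`
  have hinj : Function.Injective (J'.comp (T x) : (Fin K → ℂ) →ₗ[ℂ] (Fin K → ℂ)) := by
    rw [← LinearMap.ker_eq_bot, LinearMap.ker_eq_bot']
    intro w hw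
    have h1 : T x w = 0 := hJ' _ (hT.PT x hxc w) hw
    have h2 := hT.JT x hxc w
    rw [h1, map_zero] at h2
    exact h2.symm
  set A : (Fin K → ℂ) ≃L[ℂ] (Fin K → ℂ) :=
    (LinearEquiv.ofInjectiveEndo (J'.comp (T x) : (Fin K → ℂ) →ₗ[ℂ] (Fin K → ℂ))
      hinj).toContinuousLinearEquiv with hA
  have hAv : ∀ w, A w = J' (T x w) := fun w => rfl
  set B : X ≃L[ℝ] X := (e.trans (A.restrictScalars ℝ)).trans e.symm with hB
  have hBv : ∀ y, B (loc e J s y) = e.symm (A (J (s y))) := by
    intro y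
    simp [hB, loc]
  obtain ⟨M, hM⟩ := (isCompact_closedBall x r0).exists_bound_of_continuousOn hT.cont
  set D : E →L[ℂ] (Fin K → ℂ) := J' - (A : (Fin K → ℂ) →L[ℂ] (Fin K → ℂ)).comp J with hD
  have hD0 : ∀ v, P x v = v → D v = 0 := by
    intro v hv
    have h1 := hT.TJ x hxc v hv
    simp only [hD, ContinuousLinearMap.sub_apply, ContinuousLinearMap.comp_apply,
      ContinuousLinearEquiv.coe_coe, hAv, h1, sub_self]
  -- a constant
  set C : ℝ := ‖(e.symm : (Fin K → ℂ) →L[ℝ] X)‖ * ‖D‖ * |M| *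
    ‖(A.symm : (Fin K → ℂ) →L[ℂ] (Fin K → ℂ))‖ * ‖(e : X →L[ℝ] (Fin K → ℂ))‖ with hC
  have hC0 : 0 ≤ C := by positivity
  have hPc : ∀ᶠ y in 𝓝 x, C * ‖P y - P x‖ < 1 := by
    have h1 : ContinuousAt P x := hP.cont.continuousAt (hO.mem_nhds hx)
    have h2 : ContinuousAt (fun y => C * ‖P y - P x‖) x :=
      continuousAt_const.mul ((h1.sub continuousAt_const).norm)
    have h3 : C * ‖P x - P x‖ < 1 := by simp
    exact h2.eventually_lt continuousAt_const h3
  obtain ⟨δ, hδ, hbδ⟩ := Metric.eventually_nhds_iff_ball.mp hPc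
  filter_upwards [Ioo_mem_nhdsGT (lt_min hT.pos (lt_min hε hδ))] with r hr
  have hr1 : r < r0 := lt_of_lt_of_le hr.2 (min_le_left _ _)
  have hr2 : r < ε := lt_of_lt_of_le hr.2 ((min_le_right _ _).trans (min_le_left _ _))
  have hr3 : r < δ := lt_of_lt_of_le hr.2 ((min_le_right _ _).trans (min_le_right _ _))
  have hclo : closure (ball x r) ⊆ O := fun y hy =>
    hT.sub (closedBall_subset_closedBall hr1.le (closure_ball_subset_closedBall hy))
  have hfr : ∀ y ∈ frontier (ball x r), y ∈ closedBall x r0 ∧ s y ≠ 0 ∧ C * ‖P y - P x‖ < 1 := by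
    intro y hy
    have h1 : y ∈ closedBall x r := closure_ball_subset_closedBall (frontier_subset_closure hy)
    refine ⟨closedBall_subset_closedBall hr1.le h1, ?_, hbδ y (closedBall_subset_ball hr3 h1)⟩
    apply hb y (closedBall_subset_ball hr2 h1)
    rintro rfl
    rw [isOpen_ball.frontier_eq] at hy
    exact hy.2 (mem_ball_self hr.1)
  have hcJ : ContinuousOn (loc e J s) (closure (ball x r)) := (ind_loc_cont e hs J).mono hclo
  have hcJ' : ContinuousOn (loc e J' s) (closure (ball x r)) := (ind_loc_cont e hs J').mono hclo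
  have hnz : ∀ y ∈ frontier (ball x r), loc e J s y ≠ 0 := by
    intro y hy
    obtain ⟨h1, h2, _⟩ := hfr y hy
    exact ind_loc_ne e hs (hT.sub h1) (hT.good h1) h2
  have hlin : deg (ball x r) (fun y => B (loc e J s y)) = deg (ball x r) (loc e J s) := by
    rw [deg_comp_left isOpen_ball isBounded_ball hcJ hnz B]
    have : SignType.sign (B : X →L[ℝ] X).det = 1 := sign_pos (det_real_pos e A)
    rw [this]
    simp
  rw [← hlin]
  refine deg_rouche isOpen_ball isBounded_ball (B.continuous.comp_continuousOn hcJ) hcJ' ?_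
  intro y hy
  obtain ⟨h1, h2, h3⟩ := hfr y hy
  have hyO : y ∈ O := hT.sub h1
  have hyn : B (loc e J s y) ≠ 0 := by
    intro h0
    exact hnz y hy ((map_eq_zero_iff B B.injective).mp h0)
  have hpos : 0 < ‖B (loc e J s y)‖ := norm_pos_iff.mpr hyn
  have hsub : loc e J' s y - B (loc e J s y) = e.symm (D (s y)) := by
    rw [hBv]
    simp only [loc, hD, ContinuousLinearMap.sub_apply, ContinuousLinearMap.comp_apply,
      ContinuousLinearEquiv.coe_coe, map_sub]
  have hDs : D (s y) = D ((P y - P x) (s y)) := by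
    have h4 : D (P x (s y)) = 0 := hD0 _ (hP.idem x hx _)
    have h5 : (P y - P x) (s y) = s y - P x (s y) := by
      rw [ContinuousLinearMap.sub_apply, hs.mem y hyO]
    rw [h5, map_sub D, h4, sub_zero]
  have hsy : ‖s y‖ ≤ |M| * (‖(A.symm : (Fin K → ℂ) →L[ℂ] (Fin K → ℂ))‖ *
      (‖(e : X →L[ℝ] (Fin K → ℂ))‖ * ‖B (loc e J s y)‖)) := by
    have h5 : s y = T y (J (s y)) := (hT.TJ y h1 _ (hs.mem y hyO)).symm
    have h6 : J (s y) = A.symm (A (J (s y))) := (A.symm_apply_apply _).symm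
    have h7 : A (J (s y)) = e (B (loc e J s y)) := by rw [hBv, e.apply_symm_apply]
    calc ‖s y‖ = ‖T y (J (s y))‖ := by rw [← h5]
      _ ≤ ‖T y‖ * ‖J (s y)‖ := (T y).le_opNorm _
      _ ≤ |M| * ‖J (s y)‖ := by
          gcongr
          exact (hM y h1).trans (le_abs_self M)
      _ = |M| * ‖(A.symm : (Fin K → ℂ) →L[ℂ] (Fin K → ℂ)) (A (J (s y)))‖ := by
          rw [ContinuousLinearEquiv.coe_coe, ← h6]
      _ ≤ |M| * (‖(A.symm : (Fin K → ℂ) →L[ℂ] (Fin K → ℂ))‖ * ‖A (J (s y))‖) := by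
          gcongr
          exact ContinuousLinearMap.le_opNorm _ _
      _ = |M| * (‖(A.symm : (Fin K → ℂ) →L[ℂ] (Fin K → ℂ))‖ *
            ‖(e : X →L[ℝ] (Fin K → ℂ)) (B (loc e J s y))‖) := by
          rw [ContinuousLinearEquiv.coe_coe, ← h7]
      _ ≤ _ := by
          gcongr
          exact ContinuousLinearMap.le_opNorm _ _
  rw [hsub, hDs]
  calc ‖e.symm (D ((P y - P x) (s y)))‖
      = ‖(e.symm : (Fin K → ℂ) →L[ℝ] X) (D ((P y - P x) (s y)))‖ := rfl
    _ ≤ ‖(e.symm : (Fin K → ℂ) →L[ℝ] X)‖ * ‖D ((P y - P x) (s y))‖ :=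
        ContinuousLinearMap.le_opNorm _ _
    _ ≤ ‖(e.symm : (Fin K → ℂ) →L[ℝ] X)‖ * (‖D‖ * ‖(P y - P x) (s y)‖) := by
        gcongr
        exact ContinuousLinearMap.le_opNorm _ _
    _ ≤ ‖(e.symm : (Fin K → ℂ) →L[ℝ] X)‖ * (‖D‖ * (‖P y - P x‖ * ‖s y‖)) := by
        gcongr
        exact ContinuousLinearMap.le_opNorm _ _
    _ ≤ ‖(e.symm : (Fin K → ℂ) →L[ℝ] X)‖ * (‖D‖ * (‖P y - P x‖ * (|M| *
          (‖(A.symm : (Fin K → ℂ) →L[ℂ] (Fin K → ℂ))‖ *
          (‖(e : X →L[ℝ] (Fin K → ℂ))‖ * ‖B (loc e J s y)‖))))) := by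
        gcongr
    _ = (C * ‖P y - P x‖) * ‖B (loc e J s y)‖ := by
        rw [hC]; ring
    _ < 1 * ‖B (loc e J s y)‖ := by
        exact mul_lt_mul_of_pos_right h3 hpos
    _ = ‖B (loc e J s y)‖ := one_mul _

theorem ind_spec (hO : IsOpen O) (hP : IsBun O P K) (e : X ≃L[ℝ] (Fin K → ℂ)) {s : X → E}
    (hs : IsSec O P s) {x : X} (hx : x ∈ O) (hz : ∀ᶠ y in 𝓝[≠] x, s y ≠ 0)
    {J : E →L[ℂ] (Fin K → ℂ)} (hJ : Good P J x) :
    ∀ᶠ r in 𝓝[>] (0 : ℝ), deg (ball x r) (loc e J s) = ind e P s x := by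
  have h : ∃ m : ℤ, ∃ J : E →L[ℂ] (Fin K → ℂ), Good P J x ∧
      ∀ᶠ r in 𝓝[>] (0 : ℝ), deg (ball x r) (loc e J s) = m := by
    obtain ⟨m, hm⟩ := deg_ball_const hO hP e hs hx hz hJ
    exact ⟨m, J, hJ, hm⟩
  have hi : ind e P s x = h.choose := by
    unfold ind
    rw [dif_pos h]
  obtain ⟨J', hJ', hev⟩ := h.choose_spec
  rw [hi]
  filter_upwards [hev, ind_indep hO hP e hs hx hz hJ hJ'] with r h1 h2
  rw [← h1, h2]

end EMU
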