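import Pool.Agent.Lib.EMU.B.DegSum

/-!
# MP_9aab3b_gt, module B.WdClose: two close sections with finitely many zeros have the same count

PROOF. Let `F` be the finite set of zeros of `s` in `closure U` (all in `U`, since there is none on the frontier). For `x ∈ F` take a chart
`(J_x, T_x)` centred at `x` of radius `r_x` (`exists_good`, `exists_chart`); shrink the radii (`IsChart.mono`) so that the closed balls
`closedBall x r_x` are contained in `U` and pairwise disjoint. On the compact set `closure U \ ⋃ ball x r_x` one has `‖s‖ ≥ μ > 0` (if it is empty take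
`μ = 1`), and on the spheres `‖loc e J_x s‖ ≥ μ' > 0`. For `‖s' - s‖ ≤ η₀` on `closure U` with `η₀ < μ` and `‖e.symm ∘ J_x‖ η₀ < μ'`, the zeros of
`s'` in `closure U` lie in the balls and on each sphere `‖loc e J_x s' - loc e J_x s‖ < ‖loc e J_x s‖`, so `deg_rouche` gives the equality of
the degrees on the balls, which are `cntS e P s' (ball x r_x)` and `cntS e P s (ball x r_x)` (`deg_eq_cntS`). Sum over `x ∈ F`
(`finsum_mem` over a finite disjoint union: both counts over `U` are the sums of the counts over the balls).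
-/

set_option autoImplicit false

open Set Metric Topology

namespace EMU

variable {X E : Type*} [NormedAddCommGroup X] [NormedSpace ℝ X] [FiniteDimensional ℝ X] [Nontrivial X]
  [NormedAddCommGroup E] [NormedSpace ℂ E] [FiniteDimensional ℂ E] {K : ℕ}
  {O : Set X} {P : X → E →L[ℂ] E}

omit [FiniteDimensional ℝ X] [Nontrivial X] in
private theorem WdClose_lower {Y : Type*} [NormedAddCommGroup Y] {C : Set X} (hC : IsCompact C) {g : X → Y}
    (hg : ContinuousOn g C) (h0 : ∀ x ∈ C, g x ≠ 0) : ∃ μ : ℝ, 0 < μ ∧ ∀ x ∈ C, μ ≤ ‖g x‖ := by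
  rcases C.eq_empty_or_nonempty with hE | hne
  · subst hE
    exact ⟨1, one_pos, fun x hx => absurd hx (notMem_empty x)⟩
  · obtain ⟨x0, hx0, hmin⟩ := hC.exists_isMinOn hne hg.norm
    exact ⟨‖g x0‖, norm_pos_iff.mpr (h0 x0 hx0), fun x hx => hmin hx⟩

omit [FiniteDimensional ℝ X] [Nontrivial X] [FiniteDimensional ℂ E] in
private theorem WdClose_loc_cont (e : X ≃L[ℝ] (Fin K → ℂ)) (J : E →L[ℂ] (Fin K → ℂ)) {s : X → E} {C : Set X}
    (hs : ContinuousOn s C) : ContinuousOn (loc e J s) C := by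
  unfold loc
  exact e.symm.continuous.comp_continuousOn (J.continuous.comp_continuousOn hs)

omit [FiniteDimensional ℝ X] [Nontrivial X] [FiniteDimensional ℂ E] in
private theorem WdClose_loc_diff (e : X ≃L[ℝ] (Fin K → ℂ)) (J : E →L[ℂ] (Fin K → ℂ)) (s s' : X → E) (x : X) :
    ‖loc e J s' x - loc e J s x‖
      ≤ ‖(e.symm : (Fin K → ℂ) →L[ℝ] X)‖ * ‖J‖ * ‖s' x - s x‖ := by
  unfold loc
  have h1 : e.symm (J (s' x)) - e.symm (J (s x)) = (e.symm : (Fin K → ℂ) →L[ℝ] X) (J (s' x - s x)) := by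
    rw [map_sub, ← map_sub e.symm]
    rfl
  rw [h1]
  calc ‖(e.symm : (Fin K → ℂ) →L[ℝ] X) (J (s' x - s x))‖
      ≤ ‖(e.symm : (Fin K → ℂ) →L[ℝ] X)‖ * ‖J (s' x - s x)‖ := ContinuousLinearMap.le_opNorm _ _
    _ ≤ ‖(e.symm : (Fin K → ℂ) →L[ℝ] X)‖ * (‖J‖ * ‖s' x - s x‖) :=
        mul_le_mul_of_nonneg_left (ContinuousLinearMap.le_opNorm _ _) (norm_nonneg _)
    _ = _ := by ring

theorem wd_close (hO : IsOpen O) (hP : IsBun O P K) (e : X ≃L[ℝ] (Fin K → ℂ)) {U : Set X}
    (hU : IsOpen U) (hc : IsCompact (closure U)) (hUO : closure U ⊆ O) {s : X → E}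
    (hs : IsSec O P s) (hf : {x | x ∈ closure U ∧ s x = 0}.Finite) (h0 : ∀ x ∈ frontier U, s x ≠ 0) :
    ∃ η₀ : ℝ, 0 < η₀ ∧ ∀ s' : X → E, IsSec O P s' → {x | x ∈ closure U ∧ s' x = 0}.Finite →
      (∀ x ∈ closure U, ‖s' x - s x‖ ≤ η₀) → cntS e P s' U = cntS e P s U := by
  classical
  set F : Set X := {x | x ∈ closure U ∧ s x = 0} with hF
  have hFU : ∀ x ∈ F, x ∈ U := by
    rintro x ⟨hx1, hx2⟩
    by_contra hx
    have : x ∈ frontier U := by
      rw [hU.frontier_eq]
      exact ⟨hx1, hx⟩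
    exact h0 x this hx2
  -- charts
  have hch : ∀ x : X, x ∈ F → ∃ (J : E →L[ℂ] (Fin K → ℂ)) (r : ℝ) (T : X → (Fin K → ℂ) →L[ℂ] E),
      IsChart O P x r J T := by
    intro x hx
    have hxO : x ∈ O := hUO hx.1
    obtain ⟨J, hJ⟩ := exists_good hP hxO
    obtain ⟨r, T, h⟩ := exists_chart hO hP hxO hJ
    exact ⟨J, r, T, h⟩
  choose! J r T hJ using hch
  -- common radius
  have hρ : ∀ᶠ ρ in 𝓝[>] (0 : ℝ), ∀ x ∈ F, (ρ < r x ∧ closedBall x ρ ⊆ U) ∧
      ∀ y ∈ F, x ≠ y → 2 * ρ < dist x y := by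
    rw [Filter.eventually_all_finite hf]
    intro x hx
    refine Filter.Eventually.and (Filter.Eventually.and ?_ ?_) ?_
    · have := (hJ x hx).pos
      exact nhdsWithin_le_nhds (Iio_mem_nhds this)
    · obtain ⟨ε, hε, hball⟩ := Metric.isOpen_iff.mp hU x (hFU x hx)
      have : ∀ᶠ ρ in 𝓝[>] (0 : ℝ), ρ < ε := nhdsWithin_le_nhds (Iio_mem_nhds hε)
      filter_upwards [this] with ρ hρ
      exact (closedBall_subset_ball hρ).trans hball
    · rw [Filter.eventually_all_finite hf]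
      intro y hy
      by_cases hxy : x = y
      · exact Filter.Eventually.of_forall fun ρ h => absurd hxy h
      · have hd : 0 < dist x y / 2 := by
          have := dist_pos.mpr hxy
          positivity
        have : ∀ᶠ ρ in 𝓝[>] (0 : ℝ), ρ < dist x y / 2 := nhdsWithin_le_nhds (Iio_mem_nhds hd)
        filter_upwards [this] with ρ hρ _
        linarith
  obtain ⟨ρ, hρF, hρ0⟩ := (hρ.and self_mem_nhdsWithin).exists
  have hρpos : 0 < ρ := hρ0
  -- lower bound away from the balls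
  have hKc : IsCompact (closure U \ ⋃ x ∈ F, ball x ρ) :=
    hc.diff (isOpen_biUnion fun x _ => isOpen_ball)
  obtain ⟨μ, hμ, hμs⟩ := WdClose_lower hKc (g := s)
    (hs.cont.mono (fun x hx => hUO hx.1)) (fun x hx hz => by
      apply hx.2
      have hxF : x ∈ F := ⟨hx.1, hz⟩
      exact mem_biUnion hxF (mem_ball_self hρpos))
  -- spheres
  have hsph : ∀ x ∈ F, ∀ y ∈ sphere x ρ, y ∈ closedBall x (r x) ∧ y ∈ U ∧ s y ≠ 0 := by
    intro x hx y hy
    have hyc : y ∈ closedBall x ρ := sphere_subset_closedBall hy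
    have hyU : y ∈ U := (hρF x hx).1.2 hyc
    refine ⟨closedBall_subset_closedBall (hρF x hx).1.1.le hyc, hyU, fun hz => ?_⟩
    have hyF : y ∈ F := ⟨subset_closure hyU, hz⟩
    have hdist : dist y x = ρ := mem_sphere.mp hy
    by_cases hxy : x = y
    · subst hxy
      rw [dist_self] at hdist
      linarith
    · have := (hρF x hx).2 y hyF hxy
      rw [dist_comm, hdist] at this
      linarith
  have hlow : ∀ x : X, x ∈ F → ∃ μ' : ℝ, 0 < μ' ∧ ∀ y ∈ sphere x ρ, μ' ≤ ‖loc e (J x) s y‖ := by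
    intro x hx
    refine WdClose_lower (isCompact_sphere x ρ) (WdClose_loc_cont e (J x)
      (hs.cont.mono fun y hy => hUO (subset_closure (hsph x hx y hy).2.1))) ?_
    intro y hy hz
    obtain ⟨h1, h2, h3⟩ := hsph x hx y hy
    have hJ0 : J x (s y) = 0 := by
      unfold loc at hz
      have := congrArg e hz
      rwa [ContinuousLinearEquiv.apply_symm_apply, map_zero] at this
    exact h3 ((hJ x hx).good h1 (s y) (hs.mem y (hUO (subset_closure h2))) hJ0)
  choose! μ' hμ' hμ's using hlow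
  have hη : ∀ᶠ η in 𝓝[>] (0 : ℝ), η < μ ∧ ∀ x ∈ F,
      ‖(e.symm : (Fin K → ℂ) →L[ℝ] X)‖ * ‖J x‖ * η < μ' x := by
    refine Filter.Eventually.and (nhdsWithin_le_nhds (Iio_mem_nhds hμ)) ?_
    rw [Filter.eventually_all_finite hf]
    intro x hx
    have hcont : Continuous fun η : ℝ => ‖(e.symm : (Fin K → ℂ) →L[ℝ] X)‖ * ‖J x‖ * η :=
      continuous_const.mul continuous_id
    have h1 : ∀ᶠ η in 𝓝 (0 : ℝ), ‖(e.symm : (Fin K → ℂ) →L[ℝ] X)‖ * ‖J x‖ * η < μ' x := by
      apply hcont.continuousAt.eventually_lt continuousAt_const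
      simpa using hμ' x hx
    exact nhdsWithin_le_nhds h1
  obtain ⟨η, ⟨hημ, hηF⟩, hη0⟩ := (hη.and self_mem_nhdsWithin).exists
  refine ⟨η, hη0, fun s' hs' hf' hclose => ?_⟩
  -- sum decomposition for a section with zeros in the balls only
  have hsum : ∀ t : X → E, {x | x ∈ closure U ∧ t x = 0}.Finite →
      (∀ y ∈ closure U, t y = 0 → ∃ x ∈ F, y ∈ ball x ρ) →
      cntS e P t U = ∑ᶠ x ∈ F, cntS e P t (ball x ρ) := by
    intro t hft ht
    unfold cntS
    have hset : {x | x ∈ U ∧ t x = 0} = ⋃ x ∈ F, {y | y ∈ ball x ρ ∧ t y = 0} := by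
      ext y
      simp only [mem_iUnion, Set.mem_ofPred_eq, exists_prop]
      constructor
      · rintro ⟨hyU, hy0⟩
        obtain ⟨x, hx, hyx⟩ := ht y (subset_closure hyU) hy0
        exact ⟨x, hx, hyx, hy0⟩
      · rintro ⟨x, hx, hyx, hy0⟩
        exact ⟨(hρF x hx).1.2 (ball_subset_closedBall hyx), hy0⟩
    rw [hset]
    refine finsum_mem_biUnion ?_ hf ?_
    · intro x hx y hy hxy
      rw [Function.onFun, Set.disjoint_left]
      rintro z ⟨hz1, _⟩ ⟨hz2, _⟩
      have h1 := (hρF x hx).2 y hy hxy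
      have h2 : dist x y ≤ dist x z + dist z y := dist_triangle _ _ _
      rw [mem_ball] at hz1 hz2
      rw [dist_comm x z] at h2
      linarith
    · intro x hx
      refine hft.subset ?_
      rintro y ⟨hy1, hy2⟩
      exact ⟨subset_closure ((hρF x hx).1.2 (ball_subset_closedBall hy1)), hy2⟩
  rw [hsum s hf (fun y hy hz => ⟨y, ⟨hy, hz⟩, mem_ball_self hρpos⟩),
    hsum s' hf' (fun y hy hz => by
      by_contra hcon
      have hyK : y ∈ closure U \ ⋃ x ∈ F, ball x ρ := by
        refine ⟨hy, fun hmem => hcon ?_⟩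
        simp only [mem_iUnion, exists_prop] at hmem
        exact hmem
      have h1 := hμs y hyK
      have h2 := hclose y hy
      rw [hz, zero_sub, norm_neg] at h2
      linarith)]
  refine finsum_mem_congr rfl fun x hx => ?_
  have hfr : ∀ y ∈ frontier (ball x ρ), y ∈ sphere x ρ := fun y hy => frontier_ball_subset_sphere hy
  have hcl : ∀ y ∈ closure (ball x ρ), y ∈ closedBall x ρ := fun y hy =>
    closure_ball_subset_closedBall hy
  have hclO : closure (ball x ρ) ⊆ O := fun y hy =>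
    hUO (subset_closure ((hρF x hx).1.2 (hcl y hy)))
  have hgood : ∀ y ∈ closure (ball x ρ), Good P (J x) y := fun y hy =>
    (hJ x hx).good (closedBall_subset_closedBall (hρF x hx).1.1.le (hcl y hy))
  have hdiff : ∀ y ∈ frontier (ball x ρ), ‖loc e (J x) s' y - loc e (J x) s y‖ < ‖loc e (J x) s y‖ := by
    intro y hy
    have hyU : y ∈ closure U := subset_closure (hsph x hx y (hfr y hy)).2.1
    calc ‖loc e (J x) s' y - loc e (J x) s y‖
        ≤ ‖(e.symm : (Fin K → ℂ) →L[ℝ] X)‖ * ‖J x‖ * ‖s' y - s y‖ := WdClose_loc_diff e (J x) s s' y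
      _ ≤ ‖(e.symm : (Fin K → ℂ) →L[ℝ] X)‖ * ‖J x‖ * η :=
          mul_le_mul_of_nonneg_left (hclose y hyU) (by positivity)
      _ < μ' x := hηF x hx
      _ ≤ ‖loc e (J x) s y‖ := hμ's x hx y (hfr y hy)
  have hfin : ∀ t : X → E, {x | x ∈ closure U ∧ t x = 0}.Finite →
      {y | y ∈ ball x ρ ∧ t y = 0}.Finite := by
    intro t hft
    refine hft.subset ?_
    rintro y ⟨hy1, hy2⟩
    exact ⟨subset_closure ((hρF x hx).1.2 (ball_subset_closedBall hy1)), hy2⟩
  have e1 := deg_eq_cntS hO hP e hs isOpen_ball isBounded_ball hclO hgood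
    (fun y hy => (hsph x hx y (hfr y hy)).2.2) (hfin s hf)
  have e2 := deg_eq_cntS hO hP e hs' isOpen_ball isBounded_ball hclO hgood
    (fun y hy hz => by
      have h1 := hdiff y hy
      have h2 : loc e (J x) s' y = 0 := by
        unfold loc
        rw [hz, map_zero, map_zero]
      rw [h2, zero_sub, norm_neg] at h1
      exact lt_irrefl _ h1) (hfin s' hf')
  rw [← e1, ← e2]
  exact deg_rouche isOpen_ball isBounded_ball
    (WdClose_loc_cont e (J x) (hs.cont.mono hclO)) (WdClose_loc_cont e (J x) (hs'.cont.mono hclO)) hdiff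

end EMU
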