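import Pool.Agent.Lib.EMU.B.WdStep
import Pool.Agent.Lib.EMU.B.WdClose

/-!
# MP_9aab3b_gt, module B.Wd: homotopy invariance of the count of zeros of sections

PROOF. Cover the compact set `closure U` by finitely many balls `ball x_j r_j` of charts (`exists_good`, `exists_chart`), `j = 1, ..., n`, and take
continuous `φ_j : X → [0,1]` with support (`tsupport`) a compact `S_j ⊆ ball x_j r_j` and `∑ φ_j = 1` on `closure U`
(`exists_continuous_sum_one_of_isOpen_isCompact`), and `∑ φ_j ≤ 1` on `closure U` for partial sums (obvious). Put `Φ_j = ∑ i ≤ j, φ_i`,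
`D = s₁ - s₀`. On the compact set `frontier U × [0,1]` one has `‖s₀ x + t • D x‖ ≥ m > 0` (`m = 1` if empty).
Claim: for every `j ≤ n` and every `η ∈ (0, m)` there is a section `s` with finitely many zeros in `closure U`,
`‖s x - (s₀ x + Φ_j x • D x)‖ ≤ η` on `closure U`, and `cntS s U = cntS s₀ U`. Induction on `j`: for `j = 0` take `s = s₀`. Step: take the `s` given
for `η / 2` and apply `wd_step` with `Δ x = φ_{j+1} x • D x` (a section over `O`, zero outside `S_{j+1}`) and `η / 2`; on `frontier U`, for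
`t ∈ [0,1]`, `s + t • Δ` is at distance `≤ η / 2 < m` from `s₀ + (Φ_j + t φ_{j+1}) • D`, where `0 ≤ Φ_j + t φ_{j+1} ≤ 1`, so it is not zero.
(`Δ` must vanish outside `S_{j+1}` on all of `X`: `φ` does.)
For `j = n`: `Φ_n = 1` on `closure U`, so `s` is `η`-close to `s₁` on `closure U`, and `wd_close` (applied to `s₁`) gives
`cntS s U = cntS s₁ U` for `η` small.
(Sections: `Δ` is a section: `P x` is linear; real scalars act through `ℂ`.)
-/

set_option autoImplicit false

open Set Metric Topology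

namespace EMU

variable {X E : Type*} [NormedAddCommGroup X] [NormedSpace ℝ X] [FiniteDimensional ℝ X] [Nontrivial X]
  [NormedAddCommGroup E] [NormedSpace ℂ E] [FiniteDimensional ℂ E] {K : ℕ}
  {O : Set X} {P : X → E →L[ℂ] E}

theorem cntS_eq_of_homotopy (hO : IsOpen O) (hP : IsBun O P K) (e : X ≃L[ℝ] (Fin K → ℂ))
    {U : Set X} (hU : IsOpen U) (hc : IsCompact (closure U)) (hUO : closure U ⊆ O) {s₀ s₁ : X → E}
    (h₀ : IsSec O P s₀) (h₁ : IsSec O P s₁) (f₀ : {x | x ∈ closure U ∧ s₀ x = 0}.Finite)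
    (f₁ : {x | x ∈ closure U ∧ s₁ x = 0}.Finite)
    (hne : ∀ x ∈ frontier U, ∀ t ∈ Icc (0 : ℝ) 1, s₀ x + t • (s₁ x - s₀ x) ≠ 0) :
    cntS e P s₀ U = cntS e P s₁ U := by
  classical
  -- charts
  have hch : ∀ x : X, x ∈ closure U → ∃ (r : ℝ) (J : E →L[ℂ] (Fin K → ℂ))
      (T : X → (Fin K → ℂ) →L[ℂ] E), IsChart O P x r J T := by
    intro x hx
    obtain ⟨J, hJ⟩ := exists_good hP (hUO hx)
    obtain ⟨r, T, h⟩ := exists_chart hO hP (hUO hx) hJ
    exact ⟨r, J, T, h⟩
  choose! r J T hch using hch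
  obtain ⟨t, htU, htc⟩ := hc.elim_nhds_subcover (fun x => ball x (r x))
    (fun x hx => ball_mem_nhds x (hch x hx).pos)
  obtain ⟨c, hcU, hcov⟩ : ∃ c : Fin t.card → X, (∀ i, c i ∈ closure U) ∧
      closure U ⊆ ⋃ i : Fin t.card, ball (c i) (r (c i)) := by
    refine ⟨fun i => (t.equivFin.symm i : X), fun i => htU _ (t.equivFin.symm i).2, ?_⟩
    intro x hx
    obtain ⟨y, hy, hxy⟩ := mem_iUnion₂.1 (htc hx)
    refine mem_iUnion.2 ⟨t.equivFin ⟨y, hy⟩, ?_⟩
    simpa using hxy
  obtain ⟨φ, hφs, hφ1, hφI, hφc⟩ :=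
    exists_continuous_sum_one_of_isOpen_isCompact (fun i => isOpen_ball) hc hcov
  have hfr : frontier U ⊆ closure U := frontier_subset_closure
  -- the minimum on the frontier
  obtain ⟨m, hm0, hm⟩ : ∃ m : ℝ, 0 < m ∧ ∀ x ∈ frontier U, ∀ t ∈ Icc (0 : ℝ) 1,
      m ≤ ‖s₀ x + t • (s₁ x - s₀ x)‖ := by
    have hK : IsCompact (frontier U ×ˢ Icc (0 : ℝ) 1) :=
      (hc.of_isClosed_subset isClosed_frontier hfr).prod isCompact_Icc
    have hcont : ContinuousOn (fun p : X × ℝ => ‖s₀ p.1 + p.2 • (s₁ p.1 - s₀ p.1)‖)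
        (frontier U ×ˢ Icc (0 : ℝ) 1) := by
      have hmaps : MapsTo (Prod.fst : X × ℝ → X) (frontier U ×ˢ Icc (0 : ℝ) 1) O :=
        fun p hp => hUO (hfr hp.1)
      have c0 : ContinuousOn (fun p : X × ℝ => s₀ p.1) (frontier U ×ˢ Icc (0 : ℝ) 1) :=
        h₀.cont.comp continuousOn_fst hmaps
      have c1 : ContinuousOn (fun p : X × ℝ => s₁ p.1) (frontier U ×ˢ Icc (0 : ℝ) 1) :=
        h₁.cont.comp continuousOn_fst hmaps
      exact (c0.add (continuousOn_snd.smul (c1.sub c0))).norm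
    rcases (frontier U ×ˢ Icc (0 : ℝ) 1).eq_empty_or_nonempty with hem | hnem
    · refine ⟨1, one_pos, fun x hx t ht => ?_⟩
      have : ((x, t) : X × ℝ) ∈ frontier U ×ˢ Icc (0 : ℝ) 1 := ⟨hx, ht⟩
      rw [hem] at this
      exact this.elim
    · obtain ⟨p, hp, hmin⟩ := hK.exists_isMinOn hnem hcont
      refine ⟨_, norm_pos_iff.2 (hne p.1 hp.1 p.2 hp.2), fun x hx t ht => ?_⟩
      exact hmin (show ((x, t) : X × ℝ) ∈ frontier U ×ˢ Icc (0 : ℝ) 1 from ⟨hx, ht⟩)
  -- real scalars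
  have hreal : ∀ (a : ℝ) (v : E), a • v = (a : ℂ) • v := fun a v => (Complex.coe_smul a v).symm
  -- the sections `φ i • D`
  have hΔ : ∀ i, IsSec O P (fun x => φ i x • (s₁ x - s₀ x)) := by
    intro i
    refine ⟨?_, ?_⟩
    · exact ((φ i).continuous.continuousOn).smul (h₁.cont.sub h₀.cont)
    · intro x hx
      simp only [hreal]
      rw [map_smul, map_sub, h₁.mem x hx, h₀.mem x hx]
  have hsum : ∀ F : Finset (Fin t.card), ∀ x ∈ closure U, (∑ i ∈ F, φ i x) ≤ 1 := by
    intro F x hx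
    have h1 := hφ1 hx
    simp only [ContinuousMap.coe_sum, Finset.sum_apply, Pi.one_apply] at h1
    rw [← h1]
    exact Finset.sum_le_sum_of_subset_of_nonneg (Finset.subset_univ _)
      (fun i _ _ => (hφI i x).1)
  have hsum0 : ∀ F : Finset (Fin t.card), ∀ x, 0 ≤ (∑ i ∈ F, φ i x) :=
    fun F x => Finset.sum_nonneg fun i _ => (hφI i x).1
  -- the induction
  have key : ∀ F : Finset (Fin t.card), ∀ η : ℝ, 0 < η → η < m → ∃ s : X → E, IsSec O P s ∧
      {x | x ∈ closure U ∧ s x = 0}.Finite ∧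
      (∀ x ∈ closure U, ‖s x - (s₀ x + (∑ i ∈ F, φ i x) • (s₁ x - s₀ x))‖ ≤ η) ∧
      cntS e P s U = cntS e P s₀ U := by
    intro F
    induction F using Finset.induction_on with
    | empty =>
      intro η hη hηm
      refine ⟨s₀, h₀, f₀, fun x _ => ?_, rfl⟩
      simpa using hη.le
    | insert a F haF ih =>
      intro η hη hηm
      obtain ⟨s, hs, hfs, hclose, hcnt⟩ := ih (η / 2) (by linarith) (by linarith)
      have hmF : ∀ x ∈ frontier U, ∀ t ∈ Icc (0 : ℝ) 1,
          s x + t • (φ a x • (s₁ x - s₀ x)) ≠ 0 := by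
        intro x hx t' ht h0
        have hxc := hfr hx
        have hT : (∑ i ∈ F, φ i x) + t' * φ a x ∈ Icc (0 : ℝ) 1 := by
          refine ⟨add_nonneg (hsum0 F x) (mul_nonneg ht.1 (hφI a x).1), ?_⟩
          have h1 := hsum (insert a F) x hxc
          rw [Finset.sum_insert haF] at h1
          have h2 : t' * φ a x ≤ φ a x := by
            nlinarith [ht.2, (hφI a x).1]
          linarith
        have h1 := hm x hx _ hT
        have h2 := hclose x hxc
        have h3 : s₀ x + ((∑ i ∈ F, φ i x) + t' * φ a x) • (s₁ x - s₀ x)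
            = -(s x - (s₀ x + (∑ i ∈ F, φ i x) • (s₁ x - s₀ x))) := by
          have h4 : s x = -(t' • (φ a x • (s₁ x - s₀ x))) := eq_neg_of_add_eq_zero_left h0
          rw [h4, smul_smul, add_smul]
          abel
        rw [h3, norm_neg] at h1
        linarith
      obtain ⟨s', hs', hclose', hfs', hcnt'⟩ := wd_step hO hP e hU hc hUO (hch (c a) (hcU a)) hs
        (hΔ a) (hφc a).isCompact (hφs a) (fun x hx => by
          have : φ a x = 0 := image_eq_zero_of_notMem_tsupport hx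
          simp [this]) hfs hmF (show 0 < η / 2 by linarith)
      refine ⟨s', hs', hfs', fun x hx => ?_, hcnt'.trans hcnt⟩
      have e1 : s' x - (s₀ x + (∑ i ∈ insert a F, φ i x) • (s₁ x - s₀ x))
          = (s' x - (s x + φ a x • (s₁ x - s₀ x)))
            + (s x - (s₀ x + (∑ i ∈ F, φ i x) • (s₁ x - s₀ x))) := by
        rw [Finset.sum_insert haF, add_smul]
        abel
      rw [e1]
      refine (norm_add_le _ _).trans ?_
      have := hclose' x
      have := hclose x hx
      linarith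
  have hn1 : ∀ x ∈ frontier U, s₁ x ≠ 0 := by
    intro x hx h
    refine hne x hx 1 ⟨zero_le_one, le_rfl⟩ ?_
    simp [h]
  obtain ⟨η₀, hη₀, hW⟩ := wd_close hO hP e hU hc hUO h₁ f₁ hn1
  obtain ⟨s, hs, hfs, hclose, hcnt⟩ := key Finset.univ (min (m / 2) η₀)
    (lt_min (by linarith) hη₀) (lt_of_le_of_lt (min_le_left _ _) (by linarith))
  rw [← hcnt]
  refine hW s hs hfs (fun x hx => ?_)
  have h1 := hclose x hx
  have h2 := hφ1 hx
  simp only [ContinuousMap.coe_sum, Finset.sum_apply, Pi.one_apply] at h2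
  rw [h2, one_smul, add_sub_cancel] at h1
  exact h1.trans (min_le_right _ _)

end EMU
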