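import Pool.Agent.Lib.EMU.B.Ex
import Pool.Agent.Lib.EMU.B.Wd

/-!
# MP_9aab3b_gt, module B.NzBasic: the number of zeros of a section without zeros on the frontier

PROOF. `Nz_exists`: `exists_finite_equivariant` with the trivial group `Γ = Unit` (`ρ = 1`, `τ = fun _ => refl`), `C = closure U`.
`Nz_congr`: the defining condition only involves `s` on `frontier U`, so the two predicates are equal.
`Nz_eq`: the chosen section `s''` and `s'` are both closer to `s` than `‖s‖` on the frontier, so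
`s'' + t • (s' - s'')` is (convexity), so it does not vanish there; `cntS_eq_of_homotopy`.
`Nz_rouche`: as `deg_rouche`: `‖s‖ - ‖s' - s‖ ≥ m > 0` on the compact frontier (and `‖s'‖ ≥ m`): a section `s''` with finitely many zeros in `closure U` which
is closer than `m` to `s'` (`Nz_exists`) computes both numbers (`Nz_eq`). (If the frontier is empty: `Nz_congr`.)
`Nz_homotopy`: subdivide `[0,1]`; on `frontier U` the norm of `s + t • (s' - s)` is `≥ m > 0` and `‖s' - s‖ ≤ M`; apply `Nz_rouche` to the sections with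
`t = i / n`, `(i + 1) / n`, `n > M / m`.
`Nz_of_finite`: `s` itself is an admissible choice in `Nz_eq` (`‖s - s‖ = 0 < ‖s‖` on the frontier).
-/

set_option autoImplicit false

open Set Metric Topology

namespace EMU

variable {X E : Type*} [NormedAddCommGroup X] [NormedSpace ℝ X] [FiniteDimensional ℝ X] [Nontrivial X]
  [NormedAddCommGroup E] [NormedSpace ℂ E] [FiniteDimensional ℂ E] {K : ℕ}
  {O : Set X} {P : X → E →L[ℂ] E}

omit [FiniteDimensional ℝ X] [Nontrivial X] [FiniteDimensional ℂ E] in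
private theorem nzb_sec {s s' : X → E} (hs : IsSec O P s) (hs' : IsSec O P s') (t : ℝ) :
    IsSec O P (fun x => s x + t • (s' x - s x)) := by
  refine ⟨hs.cont.add ((hs'.cont.sub hs.cont).const_smul t), fun x hx => ?_⟩
  show P x (s x + t • (s' x - s x)) = s x + t • (s' x - s x)
  rw [map_add, hs.mem x hx, ContinuousLinearMap.map_smul_of_tower, map_sub, hs.mem x hx,
    hs'.mem x hx]

omit [FiniteDimensional ℝ X] [Nontrivial X] [FiniteDimensional ℂ E] in
private theorem nzb_conv {a b c : E} (ha : ‖a - c‖ < ‖c‖) (hb : ‖b - c‖ < ‖c‖) {t : ℝ}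
    (ht : t ∈ Icc (0 : ℝ) 1) : a + t • (b - a) ≠ 0 := by
  intro h0
  have h1 : a + t • (b - a) ∈ ball c ‖c‖ :=
    (convex_ball c ‖c‖).add_smul_sub_mem (mem_ball_iff_norm.2 ha) (mem_ball_iff_norm.2 hb) ht
  rw [h0, mem_ball, dist_zero_left] at h1
  exact lt_irrefl _ h1

theorem Nz_exists (hO : IsOpen O) (hP : IsBun O P K) (e : X ≃L[ℝ] (Fin K → ℂ)) {U : Set X}
    (hc : IsCompact (closure U)) (hUO : closure U ⊆ O) {s : X → E} (hs : IsSec O P s) {ε : ℝ}
    (hε : 0 < ε) : ∃ s' : X → E, IsSec O P s' ∧ (∀ x ∈ O, ‖s' x - s x‖ ≤ ε) ∧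
      {x | x ∈ closure U ∧ s' x = 0}.Finite := by
  obtain ⟨s', h1, -, h3, h4⟩ := exists_finite_equivariant (Γ := Unit) (ρ := 1)
    (τ := fun _ => ContinuousLinearEquiv.refl ℂ E) hO hP e
    ⟨fun _ x hx => hx, fun _ x _ v => rfl, fun _ _ x _ v _ => rfl⟩ hs (fun _ x _ => rfl) hc hUO
    (fun x _ γ hγ => absurd (Subsingleton.elim γ 1) hγ) hε
  exact ⟨s', h1, h3, h4⟩

omit [FiniteDimensional ℝ X] [Nontrivial X] [FiniteDimensional ℂ E] in
theorem Nz_congr (e : X ≃L[ℝ] (Fin K → ℂ)) {U : Set X} {s s' : X → E}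
    (h : ∀ x ∈ frontier U, s x = s' x) : Nz e O P s U = Nz e O P s' U := by
  classical
  have gen : ∀ p q : (X → E) → Prop, p = q →
      (if h : ∃ s'', p s'' then cntS e P h.choose U else 0) =
        (if h : ∃ s'', q s'' then cntS e P h.choose U else 0) := by
    rintro p q rfl
    rfl
  refine gen _ _ ?_
  funext s''
  apply propext
  refine and_congr_right fun _ => and_congr_right fun _ => ?_
  constructor
  · intro h1 x hx
    rw [← h x hx]
    exact h1 x hx
  · intro h1 x hx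
    rw [h x hx]
    exact h1 x hx

theorem Nz_eq (hO : IsOpen O) (hP : IsBun O P K) (e : X ≃L[ℝ] (Fin K → ℂ)) {U : Set X}
    (hU : IsOpen U) (hc : IsCompact (closure U)) (hUO : closure U ⊆ O) {s s' : X → E}
    (hs' : IsSec O P s') (hf : {x | x ∈ closure U ∧ s' x = 0}.Finite)
    (hcl : ∀ x ∈ frontier U, ‖s' x - s x‖ < ‖s x‖) : Nz e O P s U = cntS e P s' U := by
  classical
  have hex : ∃ s'' : X → E, IsSec O P s'' ∧ {x | x ∈ closure U ∧ s'' x = 0}.Finite ∧
      ∀ x ∈ frontier U, ‖s'' x - s x‖ < ‖s x‖ := ⟨s', hs', hf, hcl⟩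
  have h1 : Nz e O P s U = cntS e P hex.choose U := dif_pos hex
  obtain ⟨g1, g2, g3⟩ := hex.choose_spec
  rw [h1]
  exact cntS_eq_of_homotopy hO hP e hU hc hUO g1 hs' g2 hf fun x hx t ht =>
    nzb_conv (g3 x hx) (hcl x hx) ht

theorem Nz_rouche (hO : IsOpen O) (hP : IsBun O P K) (e : X ≃L[ℝ] (Fin K → ℂ)) {U : Set X}
    (hU : IsOpen U) (hc : IsCompact (closure U)) (hUO : closure U ⊆ O) {s s' : X → E}
    (hs : IsSec O P s) (hs' : IsSec O P s') (hcl : ∀ x ∈ frontier U, ‖s' x - s x‖ < ‖s x‖) :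
    Nz e O P s' U = Nz e O P s U := by
  rcases (frontier U).eq_empty_or_nonempty with hemp | hnon
  · refine Nz_congr e fun x hx => ?_
    rw [hemp] at hx
    exact absurd hx (notMem_empty x)
  · have hfc : IsCompact (frontier U) :=
      hc.of_isClosed_subset isClosed_frontier frontier_subset_closure
    have hfO : frontier U ⊆ O := frontier_subset_closure.trans hUO
    have hcont : ContinuousOn (fun x => ‖s x‖ - ‖s' x - s x‖) (frontier U) :=
      ((hs.cont.mono hfO).norm).sub (((hs'.cont.mono hfO).sub (hs.cont.mono hfO)).norm)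
    obtain ⟨x₀, hx₀, hmin⟩ := hfc.exists_isMinOn hnon hcont
    set m : ℝ := ‖s x₀‖ - ‖s' x₀ - s x₀‖ with hm
    have hm0 : 0 < m := sub_pos.2 (hcl x₀ hx₀)
    have hmle : ∀ x ∈ frontier U, m ≤ ‖s x‖ - ‖s' x - s x‖ := fun x hx => hmin hx
    obtain ⟨s'', g1, g2, g3⟩ := Nz_exists hO hP e hc hUO hs' (half_pos hm0)
    have e1 : Nz e O P s' U = cntS e P s'' U := by
      refine Nz_eq hO hP e hU hc hUO g1 g3 fun x hx => ?_
      have h1 := g2 x (hfO hx)
      have h2 := hmle x hx
      have h3 : ‖s x‖ ≤ ‖s' x‖ + ‖s' x - s x‖ := by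
        have h4 : s x = s' x - (s' x - s x) := by abel
        calc ‖s x‖ = ‖s' x - (s' x - s x)‖ := by rw [← h4]
          _ ≤ _ := norm_sub_le _ _
      linarith
    have e2 : Nz e O P s U = cntS e P s'' U := by
      refine Nz_eq hO hP e hU hc hUO g1 g3 fun x hx => ?_
      have h1 := g2 x (hfO hx)
      have h2 := hmle x hx
      have h3 : ‖s'' x - s x‖ ≤ ‖s'' x - s' x‖ + ‖s' x - s x‖ := by
        have h4 : s'' x - s x = (s'' x - s' x) + (s' x - s x) := by abel
        rw [h4]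
        exact norm_add_le _ _
      linarith
    rw [e1, e2]

theorem Nz_homotopy (hO : IsOpen O) (hP : IsBun O P K) (e : X ≃L[ℝ] (Fin K → ℂ)) {U : Set X}
    (hU : IsOpen U) (hc : IsCompact (closure U)) (hUO : closure U ⊆ O) {s s' : X → E}
    (hs : IsSec O P s) (hs' : IsSec O P s')
    (hne : ∀ x ∈ frontier U, ∀ t ∈ Icc (0 : ℝ) 1, s x + t • (s' x - s x) ≠ 0) :
    Nz e O P s U = Nz e O P s' U := by
  rcases (frontier U).eq_empty_or_nonempty with hemp | hnon
  · refine Nz_congr e fun x hx => ?_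
    rw [hemp] at hx
    exact absurd hx (notMem_empty x)
  · have hfc : IsCompact (frontier U) :=
      hc.of_isClosed_subset isClosed_frontier frontier_subset_closure
    have hfO : frontier U ⊆ O := frontier_subset_closure.trans hUO
    have c1 : ContinuousOn s (frontier U) := hs.cont.mono hfO
    have c2 : ContinuousOn s' (frontier U) := hs'.cont.mono hfO
    have hcont : ContinuousOn (fun q : X × ℝ => ‖s q.1 + q.2 • (s' q.1 - s q.1)‖)
        (frontier U ×ˢ Icc (0 : ℝ) 1) := by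
      have d1 : ContinuousOn (fun q : X × ℝ => s q.1) (frontier U ×ˢ Icc (0 : ℝ) 1) :=
        c1.comp continuousOn_fst fun q hq => hq.1
      have d2 : ContinuousOn (fun q : X × ℝ => s' q.1) (frontier U ×ˢ Icc (0 : ℝ) 1) :=
        c2.comp continuousOn_fst fun q hq => hq.1
      exact (d1.add (continuousOn_snd.smul (d2.sub d1))).norm
    have hne' : (frontier U ×ˢ Icc (0 : ℝ) 1).Nonempty :=
      hnon.prod ⟨0, left_mem_Icc.2 zero_le_one⟩
    obtain ⟨q₀, hq₀, hmin⟩ := (hfc.prod isCompact_Icc).exists_isMinOn hne' hcont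
    set m : ℝ := ‖s q₀.1 + q₀.2 • (s' q₀.1 - s q₀.1)‖ with hm
    have hm0 : 0 < m := norm_pos_iff.2 (hne q₀.1 hq₀.1 q₀.2 hq₀.2)
    have hmle : ∀ x ∈ frontier U, ∀ t ∈ Icc (0 : ℝ) 1, m ≤ ‖s x + t • (s' x - s x)‖ :=
      fun x hx t ht => hmin (show (x, t) ∈ frontier U ×ˢ Icc (0 : ℝ) 1 from ⟨hx, ht⟩)
    obtain ⟨M, hM⟩ := hfc.exists_bound_of_continuousOn (c2.sub c1)
    have hM0 : 0 ≤ M := by
      obtain ⟨x, hx⟩ := hnon
      exact (norm_nonneg _).trans (hM x hx)
    obtain ⟨N, hN⟩ := exists_nat_gt (M / m)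
    have hN0 : 0 < (N : ℝ) := (div_nonneg hM0 hm0.le).trans_lt hN
    have hstep : ∀ i : ℕ, i < N → Nz e O P (fun x => s x + ((i : ℝ) / N) • (s' x - s x)) U =
        Nz e O P (fun x => s x + (((i + 1 : ℕ) : ℝ) / N) • (s' x - s x)) U := by
      intro i hi
      refine (Nz_rouche hO hP e hU hc hUO (nzb_sec hs hs' _) (nzb_sec hs hs' _) ?_).symm
      intro x hx
      have h1 : (s x + (((i + 1 : ℕ) : ℝ) / N) • (s' x - s x)) -
          (s x + ((i : ℝ) / N) • (s' x - s x)) = (1 / (N : ℝ)) • (s' x - s x) := by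
        rw [add_sub_add_left_eq_sub, ← sub_smul]
        congr 1
        push_cast
        ring
      have h2 : ‖(1 / (N : ℝ)) • (s' x - s x)‖ < m := by
        rw [norm_smul, Real.norm_of_nonneg (by positivity), one_div, inv_mul_lt_iff₀ hN0]
        have h3 := hM x hx
        rw [div_lt_iff₀ hm0] at hN
        exact h3.trans_lt hN
      rw [h1]
      refine h2.trans_le (hmle x hx _ ⟨by positivity, ?_⟩)
      rw [div_le_one hN0]
      exact_mod_cast hi.le
    have hall : ∀ i : ℕ, i ≤ N → Nz e O P s U =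
        Nz e O P (fun x => s x + ((i : ℝ) / N) • (s' x - s x)) U := by
      intro i
      induction i with
      | zero =>
        intro _
        refine Nz_congr e fun x _ => ?_
        simp
      | succ i ih =>
        intro hi
        rw [ih (by omega), hstep i (by omega)]
    rw [hall N le_rfl]
    refine Nz_congr e fun x _ => ?_
    rw [div_self hN0.ne', one_smul]
    abel

theorem Nz_of_finite (hO : IsOpen O) (hP : IsBun O P K) (e : X ≃L[ℝ] (Fin K → ℂ)) {U : Set X}
    (hU : IsOpen U) (hc : IsCompact (closure U)) (hUO : closure U ⊆ O) {s : X → E}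
    (hs : IsSec O P s) (hf : {x | x ∈ closure U ∧ s x = 0}.Finite)
    (h0 : ∀ x ∈ frontier U, s x ≠ 0) : Nz e O P s U = cntS e P s U := by
  exact Nz_eq hO hP e hU hc hUO hs hf fun x hx => by
    rw [sub_self, norm_zero]
    exact norm_pos_iff.2 (h0 x hx)

end EMU
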