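import Pool.Agent.Lib.EMU.B.NzBasic
import Pool.Agent.Lib.EMU.B.CubeInd

/-!
# MP_9aab3b_gt, module B.NzCube: cubing the line component multiplies the number of zeros by 3

PROOF. `(f x, cb (h x)) = 0` iff `(f x, h x) = 0` (`cb v = 0 ↔ v = 0`: `inj`, and `hom` with `c = 0`). The function
`v ↦ cb v` is uniformly continuous on compact sets; `‖(f, cb ∘ h)‖ ≥ m > 0` on the compact `frontier U`. Take by `Nz_exists` (for
`dsum PF PL`, rank `K₁ + 1`, `isBun_dsum`) a section `s' = (f', h')` with finitely many zeros in `closure U`, so close to `(f, h)` that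
`‖s' - (f, h)‖ < ‖(f, h)‖` and `‖(f', cb h') - (f, cb h)‖ < m` on `frontier U`. (`f' x = (s' x).1`, `h' x = (s' x).2`.) By `Nz_eq` for both bundles and `cntS_cube`:
`Nz (f, cb h) U = cntS (f', cb h') U = 3 cntS (f', h') U = 3 Nz (f, h) U`.
-/

set_option autoImplicit false

open Set Metric Topology

namespace EMU

variable {X F A : Type*} [NormedAddCommGroup X] [NormedSpace ℝ X] [FiniteDimensional ℝ X]
  [Nontrivial X] [NormedAddCommGroup F] [NormedSpace ℂ F] [FiniteDimensional ℂ F]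
  [NormedAddCommGroup A] [NormedSpace ℂ A] [FiniteDimensional ℂ A] {K₁ : ℕ}
  {O : Set X} {PF : X → F →L[ℂ] F} {PL PC : X → A →L[ℂ] A} {cb : A → A}

omit [NormedSpace ℝ X] [FiniteDimensional ℝ X] [Nontrivial X] [NormedSpace ℂ F]
  [FiniteDimensional ℂ F] in
private theorem NzCube_bound {G : Set X} (hG : IsCompact G) {g : X → F} (hg : ContinuousOn g G)
    (h : ∀ x ∈ G, g x ≠ 0) : ∃ m : ℝ, 0 < m ∧ ∀ x ∈ G, m ≤ ‖g x‖ := by
  rcases G.eq_empty_or_nonempty with hE | hne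
  · exact ⟨1, one_pos, fun x hx => by simp [hE] at hx⟩
  · obtain ⟨x₀, hx₀, hmin⟩ := hG.exists_isMinOn hne hg.norm
    exact ⟨‖g x₀‖, norm_pos_iff.2 (h x₀ hx₀), fun x hx => hmin hx⟩

theorem Nz_cube (hO : IsOpen O) (hF : IsBun O PF K₁) (hL : IsBun O PL 1) (hC : IsBun O PC 1)
    (hc : IsCube O PL PC cb) (e : X ≃L[ℝ] (Fin (K₁ + 1) → ℂ)) {f : X → F} {h : X → A}
    (hs : IsSec O (dsum PF PL) (fun x => (f x, h x))) {U : Set X} (hU : IsOpen U)
    (hcU : IsCompact (closure U)) (hUO : closure U ⊆ O) (h0 : ∀ x ∈ frontier U, (f x, h x) ≠ 0) :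
    Nz e O (dsum PF PC) (fun x => (f x, cb (h x))) U =
      3 * Nz e O (dsum PF PL) (fun x => (f x, h x)) U := by
  have hcb0 : cb 0 = 0 := by
    have h1 := hc.hom 0 (0 : A)
    simpa using h1
  have hfrO : frontier U ⊆ O := frontier_subset_closure.trans hUO
  have hfc : IsCompact (frontier U) :=
    hcU.of_isClosed_subset isClosed_frontier frontier_subset_closure
  have hs2 : IsSec O (dsum PF PC) (fun x => (f x, cb (h x))) := isSec_cube hc hs
  have h02 : ∀ x ∈ frontier U, (f x, cb (h x)) ≠ 0 := by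
    intro x hx h1
    obtain ⟨e1, e2⟩ := Prod.ext_iff.1 h1
    exact h0 x hx (Prod.ext e1 (hc.inj _ e2))
  obtain ⟨m₁, hm₁, hb₁⟩ := NzCube_bound hfc (hs.cont.mono hfrO) h0
  obtain ⟨m₂, hm₂, hb₂⟩ := NzCube_bound hfc (hs2.cont.mono hfrO) h02
  have hhc : ContinuousOn h (frontier U) :=
    (continuous_snd.comp_continuousOn hs.cont).mono hfrO
  have hKc : IsCompact (h '' frontier U) := hfc.image_of_continuousOn hhc
  have huc := hKc.uniformContinuousAt_of_continuousAt cb (fun a _ => hc.cont.continuousAt)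
    (Metric.dist_mem_uniformity hm₂)
  obtain ⟨δ, hδ, hδb⟩ := Metric.mem_uniformity_dist.1 huc
  have hδ' : ∀ x ∈ frontier U, ∀ v, ‖v - h x‖ < δ → ‖cb v - cb (h x)‖ < m₂ := by
    intro x hx v hv
    have h1 : dist (h x) v < δ := by
      rw [dist_comm, dist_eq_norm]
      exact hv
    have h2 : dist (cb (h x)) (cb v) < m₂ := hδb h1 ⟨x, hx, rfl⟩
    rw [dist_comm, dist_eq_norm] at h2
    exact h2
  set ε : ℝ := min (m₁ / 2) (min (m₂ / 2) (δ / 2)) with hε
  have hε0 : 0 < ε := lt_min (half_pos hm₁) (lt_min (half_pos hm₂) (half_pos hδ))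
  have hε1 : ε < m₁ := lt_of_le_of_lt (min_le_left _ _) (by linarith)
  have hε2 : ε < m₂ := lt_of_le_of_lt ((min_le_right _ _).trans (min_le_left _ _)) (by linarith)
  have hε3 : ε < δ := lt_of_le_of_lt ((min_le_right _ _).trans (min_le_right _ _)) (by linarith)
  obtain ⟨s', hs', hcl', hfin'⟩ := Nz_exists hO (isBun_dsum hF hL) e hcU hUO hs hε0
  have hs'' : IsSec O (dsum PF PL) (fun x => ((s' x).1, (s' x).2)) := hs'
  have hs3 : IsSec O (dsum PF PC) (fun x => ((s' x).1, cb (s' x).2)) := isSec_cube hc hs''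
  have hfin2 : {x | x ∈ closure U ∧ ((s' x).1, cb (s' x).2) = 0}.Finite := by
    refine hfin'.subset ?_
    rintro x ⟨hx, hx0⟩
    obtain ⟨e1, e2⟩ := Prod.ext_iff.1 hx0
    exact ⟨hx, Prod.ext e1 (hc.inj _ e2)⟩
  have hN1 : Nz e O (dsum PF PL) (fun x => (f x, h x)) U = cntS e (dsum PF PL) s' U := by
    refine Nz_eq hO (isBun_dsum hF hL) e hU hcU hUO hs' hfin' fun x hx => ?_
    exact (hcl' x (hfrO hx)).trans_lt (hε1.trans_le (hb₁ x hx))
  have hN2 : Nz e O (dsum PF PC) (fun x => (f x, cb (h x))) U =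
      cntS e (dsum PF PC) (fun x => ((s' x).1, cb (s' x).2)) U := by
    refine Nz_eq hO (isBun_dsum hF hC) e hU hcU hUO hs3 hfin2 fun x hx => ?_
    refine lt_of_lt_of_le ?_ (hb₂ x hx)
    have h1 := hcl' x (hfrO hx)
    have h2 : ‖(s' x).1 - f x‖ ≤ ε := (norm_fst_le (s' x - (f x, h x))).trans h1
    have h3 : ‖(s' x).2 - h x‖ ≤ ε := (norm_snd_le (s' x - (f x, h x))).trans h1
    have h4 := hδ' x hx _ (h3.trans_lt hε3)
    show ‖((s' x).1 - f x, cb (s' x).2 - cb (h x))‖ < m₂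
    rw [Prod.norm_def]
    exact max_lt (h2.trans_lt hε2) h4
  rw [hN1, hN2]
  exact cntS_cube hO hF hL hC hc e hs'' hU (subset_closure.trans hUO)
    (hfin'.subset fun x hx => ⟨subset_closure hx.1, hx.2⟩)

end EMU
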