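import Pool.Agent.Lib.EMU.B.NzBasic
import Pool.Agent.Lib.EMU.B.Eqv

/-!
# MP_9aab3b_gt, module B.NzDvd: equivariance properties of the number of zeros

PROOF. `Nz_dvd`. For `μ > 0` let `C_μ = {x ∈ closure U | ‖s x‖ ≤ μ}` (compact). There is `μ > 0` such that `ρ γ x ≠ x` for all `x ∈ C_μ`, `γ ≠ 1`: otherwise
(finitely many `γ`) there are `γ ≠ 1` and `x_n ∈ closure U` with `‖s x_n‖ → 0`, `ρ γ x_n = x_n`; a limit point contradicts `hfree`. Also choose `μ` less
than the minimum of `‖s‖` on the compact frontier. `exists_finite_equivariant` with `C = C_μ`, `ε = μ / 2`: an equivariant section `s'` with finitely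
many zeros in `C_μ`; its zeros in `closure U` satisfy `‖s x‖ ≤ μ / 2`, so they are in `C_μ`: finite in number, and `Γ` acts freely on them. `Nz_eq`:
`Nz s U = cntS s' U` (`‖s' - s‖ ≤ μ/2 < ‖s‖` on the frontier), and `card_dvd_cntS`. (`U ⊆ closure U ⊆ O`.)
`Nz_image`. Take by `Nz_exists` a section `s'` (not equivariant) with finitely many zeros in `closure U` and `‖s' - s‖ ≤ ε` on `O`, `ε` small. Then
`s'' y = τ γ (s' (ρ γ⁻¹ y))` is a section over `O` (`eqv`, `inv`) with zero set in `closure (ρ γ '' U) = ρ γ '' closure U` the image of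
the zero set of `s'`, and `‖s'' - s‖ ≤ ‖τ γ‖ ε < ‖s‖` on the frontier of `ρ γ '' U` (`s y = τ γ (s (ρ γ⁻¹ y))` by equivariance). So
`Nz s (ρ γ '' U) = cntS s'' (ρ γ '' U)` and `Nz s U = cntS s' U`. The indices: `ind s'' (ρ γ x) = ind s' x` is proved exactly as `ind_eqv` in
`B/Eqv.lean` (read its proof; only the relation `s'' (ρ γ y) = τ γ (s' y)` for `y` near `x` is used there): with `J' = J ∘ (τ γ)⁻¹`,
`loc e J' s'' (ρ γ y) = loc e J s' y`, `deg_comp_right`, `ind_spec`.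
-/

set_option autoImplicit false

open Set Metric Topology

namespace EMU

variable {X E : Type*} [NormedAddCommGroup X] [NormedSpace ℝ X] [FiniteDimensional ℝ X] [Nontrivial X]
  [NormedAddCommGroup E] [NormedSpace ℂ E] [FiniteDimensional ℂ E] {K : ℕ}
  {O : Set X} {P : X → E →L[ℂ] E} {Γ : Type*} [Group Γ] {ρ : Γ →* (X ≃ₗᵢ[ℝ] X)}
  {τ : Γ → (E ≃L[ℂ] E)}

omit [NormedSpace ℝ X] [FiniteDimensional ℝ X] [Nontrivial X] [NormedSpace ℂ E] [FiniteDimensional ℂ E] in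
private lemma ne_zero_bound {F : Set X} (hF : IsCompact F) {f : X → E} (hf : ContinuousOn f F)
    (h : ∀ x ∈ F, f x ≠ 0) : ∃ m : ℝ, 0 < m ∧ ∀ x ∈ F, m ≤ ‖f x‖ := by
  rcases F.eq_empty_or_nonempty with hE | hne
  · exact ⟨1, one_pos, fun x hx => by simp [hE] at hx⟩
  · obtain ⟨x₀, hx₀, hmin⟩ := hF.exists_isMinOn hne hf.norm
    exact ⟨‖f x₀‖, norm_pos_iff.2 (h x₀ hx₀), fun x hx => hmin hx⟩

omit [NormedSpace ℝ X] [FiniteDimensional ℝ X] [Nontrivial X] [NormedSpace ℂ E] [FiniteDimensional ℂ E] in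
private lemma isolated_of_finite {U : Set X} (hU : IsOpen U) {s : X → E}
    (hf : {x | x ∈ closure U ∧ s x = 0}.Finite) {x : X} (hx : x ∈ U) :
    ∀ᶠ y in 𝓝[≠] x, s y ≠ 0 := by
  have h1 : ∀ᶠ y in 𝓝 x, y ∈ U := hU.mem_nhds hx
  have h2 : ∀ᶠ y in 𝓝 x, y ∉ {y | y ∈ closure U ∧ s y = 0} \ {x} :=
    (hf.subset sdiff_subset).isClosed.isOpen_compl.mem_nhds (by simp)
  refine eventually_nhdsWithin_iff.2 ?_
  filter_upwards [h1, h2] with y hy1 hy2 hy3 hy4
  exact hy2 ⟨⟨subset_closure hy1, hy4⟩, hy3⟩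

private lemma ind_push (hO : IsOpen O) (hP : IsBun O P K) (e : X ≃L[ℝ] (Fin K → ℂ))
    (hE : IsEqBun O P ρ τ) {s' s'' : X → E} (hs' : IsSec O P s') (hs'' : IsSec O P s'') {γ : Γ}
    (hrel : ∀ y ∈ O, s'' (ρ γ y) = τ γ (s' y))
    (hdet : 0 < (((ρ γ).toContinuousLinearEquiv : X ≃L[ℝ] X) : X →L[ℝ] X).det) {x : X}
    (hx : x ∈ O) (hz : ∀ᶠ y in 𝓝[≠] x, s' y ≠ 0) :
    ind e P s'' (ρ γ x) = ind e P s' x := by
  obtain ⟨J, hJ⟩ := exists_good hP hx
  obtain ⟨R, T, hch⟩ := exists_chart hO hP hx hJ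
  set J' : E →L[ℂ] (Fin K → ℂ) := J ∘L ((τ γ).symm : E →L[ℂ] E) with hJ'def
  have hJ'ap : ∀ v, J' (τ γ v) = J v := fun v => by simp [hJ'def]
  have hJ' : Good P J' (ρ γ x) := by
    intro v hv hv0
    have h1 : P x ((τ γ).symm v) = (τ γ).symm v := by
      have := hE.eqv γ x hx ((τ γ).symm v)
      rw [ContinuousLinearEquiv.apply_symm_apply, hv] at this
      exact ((τ γ).symm_apply_eq.2 this).symm
    have h2 : (τ γ).symm v = 0 := hJ _ h1 (by simpa [hJ'def] using hv0)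
    have := congrArg (τ γ) h2
    simpa using this
  have hρx : ρ γ x ∈ O := hE.inv γ x hx
  obtain ⟨r₀, hr₀, hr₀z⟩ : ∃ r₀ > 0, ∀ y ∈ ball x r₀, y ≠ x → s' y ≠ 0 := by
    rw [eventually_nhdsWithin_iff, Metric.eventually_nhds_iff] at hz
    obtain ⟨r₀, h0, h⟩ := hz
    exact ⟨r₀, h0, fun y hy hne => h hy hne⟩
  have hz'' : ∀ᶠ y in 𝓝[≠] (ρ γ x), s'' y ≠ 0 := by
    rw [eventually_nhdsWithin_iff, Metric.eventually_nhds_iff]
    refine ⟨min r₀ R, lt_min hr₀ hch.pos, fun y hy hne => ?_⟩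
    obtain ⟨z, rfl⟩ := (ρ γ).surjective y
    rw [(ρ γ).dist_map] at hy
    have hzO : z ∈ O := hch.sub (ball_subset_closedBall (lt_of_lt_of_le hy (min_le_right _ _)))
    rw [hrel z hzO]
    have : s' z ≠ 0 := hr₀z z (lt_of_lt_of_le hy (min_le_left _ _)) (fun h => hne (by rw [h]; rfl))
    simpa using this
  have e1 := ind_spec hO hP e hs' hx hz hJ
  have e2 := ind_spec hO hP e hs'' hρx hz'' hJ'
  have e3 : ∀ᶠ r in 𝓝[>] (0 : ℝ), r < min r₀ R :=
    eventually_nhdsWithin_of_eventually_nhds (eventually_lt_nhds (lt_min hr₀ hch.pos))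
  have e4 : ∀ᶠ r in 𝓝[>] (0 : ℝ), 0 < r := self_mem_nhdsWithin
  obtain ⟨r, h1, h2, h3, h4⟩ := (e1.and (e2.and (e3.and e4))).exists
  have h3a := lt_of_lt_of_le h3 (min_le_left _ _)
  have h3b := lt_of_lt_of_le h3 (min_le_right _ _)
  set B : X ≃L[ℝ] X := (ρ γ).toContinuousLinearEquiv with hB
  have hBap : ∀ y, B y = ρ γ y := fun y => rfl
  have hsubx : closedBall x r ⊆ O := (closedBall_subset_closedBall h3b.le).trans hch.sub
  have hsub : closedBall (ρ γ x) r ⊆ O := by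
    intro y hy
    obtain ⟨z, rfl⟩ := (ρ γ).surjective y
    rw [mem_closedBall, (ρ γ).dist_map] at hy
    exact hE.inv γ z (hsubx hy)
  have hpre : B ⁻¹' (ball (ρ γ x) r) = ball x r := by
    ext y
    simp only [mem_preimage, mem_ball, hBap, (ρ γ).dist_map]
  have hc := deg_comp_right (V := ball (ρ γ x) r) isOpen_ball isBounded_ball
    (g := loc e J' s'') ?_ ?_ B
  · rw [hpre, h2, sign_pos hdet] at hc
    simp only [SignType.coe_one, one_mul] at hc
    rw [← hc, ← h1]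
    refine deg_congr fun y hy => ?_
    have hyO : y ∈ O := hsubx (by
      rw [frontier_ball x h4.ne'] at hy
      exact sphere_subset_closedBall hy)
    show e.symm (J' (s'' (ρ γ y))) = e.symm (J (s' y))
    rw [hrel y hyO, hJ'ap]
  · have hcl : closure (ball (ρ γ x) r) ⊆ O := closure_ball_subset_closedBall.trans hsub
    have : ContinuousOn s'' (closure (ball (ρ γ x) r)) := hs''.cont.mono hcl
    exact e.symm.continuous.comp_continuousOn (J'.continuous.comp_continuousOn this)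
  · intro y hy
    rw [frontier_ball _ h4.ne'] at hy
    obtain ⟨z, rfl⟩ := (ρ γ).surjective y
    rw [mem_sphere, (ρ γ).dist_map] at hy
    have hzc : z ∈ closedBall x r := hy.le
    have hzO := hsubx hzc
    show e.symm (J' (s'' (ρ γ z))) ≠ 0
    rw [hrel z hzO, hJ'ap]
    intro h0
    have h0' : J (s' z) = 0 := by
      have := congrArg e h0
      simpa using this
    have hgood := hch.good (closedBall_subset_closedBall h3b.le hzc)
    have hs0 := hgood _ (hs'.mem z hzO) h0'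
    refine hr₀z z ?_ ?_ hs0
    · rw [mem_ball, hy]; exact h3a
    · rintro rfl
      rw [dist_self] at hy
      exact h4.ne hy

theorem Nz_dvd [Finite Γ] (hO : IsOpen O) (hP : IsBun O P K) (e : X ≃L[ℝ] (Fin K → ℂ))
    (hE : IsEqBun O P ρ τ) {s : X → E} (hs : IsSec O P s) (hse : IsEqSec O ρ τ s)
    (hdet : ∀ γ, 0 < (((ρ γ).toContinuousLinearEquiv : X ≃L[ℝ] X) : X →L[ℝ] X).det) {U : Set X}
    (hU : IsOpen U) (hc : IsCompact (closure U)) (hUO : closure U ⊆ O)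
    (hUi : ∀ γ, ∀ x ∈ U, ρ γ x ∈ U) (h0 : ∀ x ∈ frontier U, s x ≠ 0)
    (hfree : ∀ x ∈ closure U, s x = 0 → ∀ γ, γ ≠ 1 → ρ γ x ≠ x) :
    (Nat.card Γ : ℤ) ∣ Nz e O P s U := by
  obtain ⟨m, hm, hmb⟩ : ∃ m : ℝ, 0 < m ∧
      ∀ x ∈ closure U ∩ (frontier U ∪ ⋃ γ : Γ, {x | γ ≠ 1 ∧ ρ γ x = x}), m ≤ ‖s x‖ := by
    refine ne_zero_bound (hc.inter_right ?_) ((hs.cont.mono hUO).mono inter_subset_left) ?_
    · refine isClosed_frontier.union (isClosed_iUnion_of_finite fun γ => ?_)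
      by_cases hγ : γ = 1
      · simp [hγ]
      · simp only [ne_eq, hγ, not_false_eq_true, true_and]
        exact isClosed_eq (ρ γ).continuous continuous_id
    · rintro x ⟨hx, hx' | hx'⟩
      · exact h0 x hx'
      · obtain ⟨γ, hγ, hγx⟩ := mem_iUnion.1 hx'
        exact fun h => hfree x hx h γ hγ hγx
  set μ := m / 2 with hμ
  have hμ0 : 0 < μ := by positivity
  have hμm : μ < m := by rw [hμ]; linarith
  set C : Set X := closure U ∩ s ⁻¹' closedBall 0 μ with hCdef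
  have hC : IsCompact C := by
    refine hc.of_isClosed_subset ?_ inter_subset_left
    exact (hs.cont.mono hUO).preimage_isClosed_of_isClosed isClosed_closure isClosed_closedBall
  have hCs : ∀ x, x ∈ C ↔ x ∈ closure U ∧ ‖s x‖ ≤ μ := fun x => by simp [hCdef]
  have hfreeC : ∀ x ∈ C, ∀ γ, γ ≠ 1 → ρ γ x ≠ x := by
    intro x hx γ hγ hγx
    obtain ⟨hx1, hx2⟩ := (hCs x).1 hx
    have := hmb x ⟨hx1, Or.inr (mem_iUnion.2 ⟨γ, hγ, hγx⟩)⟩
    linarith
  obtain ⟨s', hs', hse', hcl', hfin'⟩ := exists_finite_equivariant hO hP e hE hs hse hC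
    (inter_subset_left.trans hUO) hfreeC (half_pos hμ0)
  have hzC : ∀ x ∈ closure U, s' x = 0 → x ∈ C := by
    intro x hx hx0
    refine (hCs x).2 ⟨hx, ?_⟩
    have := hcl' x (hUO hx)
    rw [hx0, zero_sub, norm_neg] at this
    linarith
  have hfin : {x | x ∈ closure U ∧ s' x = 0}.Finite :=
    hfin'.subset fun x hx => ⟨hzC x hx.1 hx.2, hx.2⟩
  have hNz : Nz e O P s U = cntS e P s' U := by
    refine Nz_eq hO hP e hU hc hUO hs' hfin fun x hx => ?_
    have hxc := frontier_subset_closure hx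
    have h1 := hcl' x (hUO hxc)
    have h2 := hmb x ⟨hxc, Or.inl hx⟩
    linarith
  rw [hNz]
  refine card_dvd_cntS hO hP e hE hs' hse' hdet hU (subset_closure.trans hUO) hUi
    (hfin.subset fun x hx => ⟨subset_closure hx.1, hx.2⟩) ?_
  intro x hx hx0 γ hγ
  exact hfreeC x (hzC x (subset_closure hx) hx0) γ hγ

theorem Nz_image (hO : IsOpen O) (hP : IsBun O P K) (e : X ≃L[ℝ] (Fin K → ℂ))
    (hE : IsEqBun O P ρ τ) {s : X → E} (hs : IsSec O P s) (hse : IsEqSec O ρ τ s) {γ : Γ}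
    (hdet : 0 < (((ρ γ).toContinuousLinearEquiv : X ≃L[ℝ] X) : X →L[ℝ] X).det) {U : Set X}
    (hU : IsOpen U) (hc : IsCompact (closure U)) (hUO : closure U ⊆ O)
    (h0 : ∀ x ∈ frontier U, s x ≠ 0) :
    Nz e O P s (ρ γ '' U) = Nz e O P s U := by
  have hfrO : frontier U ⊆ O := frontier_subset_closure.trans hUO
  have hfc : IsCompact (frontier U) := hc.of_isClosed_subset isClosed_frontier frontier_subset_closure
  obtain ⟨m, hm, hmb⟩ := ne_zero_bound hfc (hs.cont.mono hfrO) h0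
  obtain ⟨m', hm', hmb'⟩ := ne_zero_bound (f := fun x => τ γ (s x)) hfc
    ((τ γ).continuous.comp_continuousOn (hs.cont.mono hfrO))
    (fun x hx h => h0 x hx (by simpa using h))
  set A : ℝ := ‖((τ γ : E ≃L[ℂ] E) : E →L[ℂ] E)‖ with hA
  have hA0 : 0 ≤ A := norm_nonneg _
  set ε : ℝ := min (m / 2) (m' / (2 * (A + 1))) with hε
  have hε0 : 0 < ε := lt_min (by positivity) (by positivity)
  obtain ⟨s', hs', hcl', hfin'⟩ := Nz_exists hO hP e hc hUO hs hε0
  have hεm : ε < m := lt_of_le_of_lt (min_le_left _ _) (by linarith)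
  have hεm' : A * ε < m' := by
    have h1 : ε ≤ m' / (2 * (A + 1)) := min_le_right _ _
    have h2 : A * ε ≤ A * (m' / (2 * (A + 1))) := mul_le_mul_of_nonneg_left h1 hA0
    refine lt_of_le_of_lt h2 ?_
    rw [mul_div_assoc', div_lt_iff₀ (by positivity)]
    nlinarith
  set s'' : X → E := fun y => τ γ (s' ((ρ γ).symm y)) with hs''def
  have hinv : ∀ y ∈ O, (ρ γ).symm y ∈ O := by
    intro y hy
    have h1 := hE.inv γ⁻¹ y hy
    have h2 : ρ γ⁻¹ y = (ρ γ).symm y := by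
      rw [map_inv]; rfl
    rwa [h2] at h1
  have hrel : ∀ y, s'' (ρ γ y) = τ γ (s' y) := fun y => by simp [hs''def]
  have hs''s : IsSec O P s'' := by
    refine ⟨(τ γ).continuous.comp_continuousOn
      (hs'.cont.comp (ρ γ).symm.continuous.continuousOn hinv), fun y hy => ?_⟩
    have h1 := hE.eqv γ _ (hinv y hy) (s' ((ρ γ).symm y))
    rw [LinearIsometryEquiv.apply_symm_apply, hs'.mem _ (hinv y hy)] at h1
    exact h1
  have hU' : IsOpen (ρ γ '' U) := (ρ γ).toHomeomorph.isOpenMap U hU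
  have hclI : closure (ρ γ '' U) = ρ γ '' closure U := ((ρ γ).toHomeomorph.image_closure U).symm
  have hfrI : frontier (ρ γ '' U) = ρ γ '' frontier U := ((ρ γ).toHomeomorph.image_frontier U).symm
  have hc' : IsCompact (closure (ρ γ '' U)) := by
    rw [hclI]; exact hc.image (ρ γ).continuous
  have hUO' : closure (ρ γ '' U) ⊆ O := by
    rw [hclI]; rintro _ ⟨x, hx, rfl⟩; exact hE.inv γ x (hUO hx)
  have hfin'' : {y | y ∈ closure (ρ γ '' U) ∧ s'' y = 0}.Finite := by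
    refine (hfin'.image (ρ γ)).subset ?_
    rintro y ⟨hy1, hy2⟩
    rw [hclI] at hy1
    obtain ⟨x, hx, rfl⟩ := hy1
    rw [hrel] at hy2
    exact ⟨x, ⟨hx, by simpa using hy2⟩, rfl⟩
  have hN1 : Nz e O P s (ρ γ '' U) = cntS e P s'' (ρ γ '' U) := by
    refine Nz_eq hO hP e hU' hc' hUO' hs''s hfin'' fun y hy => ?_
    rw [hfrI] at hy
    obtain ⟨x, hx, rfl⟩ := hy
    rw [hrel, hse γ x (hfrO hx), ← map_sub]
    have h1 : ‖τ γ (s' x - s x)‖ ≤ A * ‖s' x - s x‖ :=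
      ((τ γ : E ≃L[ℂ] E) : E →L[ℂ] E).le_opNorm _
    have h2 : A * ‖s' x - s x‖ ≤ A * ε := mul_le_mul_of_nonneg_left (hcl' x (hfrO hx)) hA0
    have h3 := hmb' x hx
    exact lt_of_le_of_lt (h1.trans h2) (lt_of_lt_of_le hεm' h3)
  have hN2 : Nz e O P s U = cntS e P s' U := by
    refine Nz_eq hO hP e hU hc hUO hs' hfin' fun x hx => ?_
    exact lt_of_le_of_lt (hcl' x (hfrO hx)) (lt_of_lt_of_le hεm (hmb x hx))
  rw [hN1, hN2]
  unfold cntS
  have hset : {y | y ∈ ρ γ '' U ∧ s'' y = 0} = ρ γ '' {x | x ∈ U ∧ s' x = 0} := by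
    ext y
    constructor
    · rintro ⟨⟨x, hx, rfl⟩, hy⟩
      rw [hrel] at hy
      exact ⟨x, ⟨hx, by simpa using hy⟩, rfl⟩
    · rintro ⟨x, ⟨hx, hx0⟩, rfl⟩
      exact ⟨⟨x, hx, rfl⟩, by rw [hrel, hx0, map_zero]⟩
  rw [hset, finsum_mem_image (ρ γ).injective.injOn]
  refine finsum_mem_congr rfl fun x hx => ?_
  exact ind_push hO hP e hE hs' hs''s (fun y _ => hrel y) hdet (hUO (subset_closure hx.1))
    (isolated_of_finite hU hfin' hx.1)

end EMU
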