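import Pool.Agent.Lib.EMU.B.NzBasic

/-!
# MP_9aab3b_gt, module B.NzSum: additivity of the number of zeros of a section

PROOF. The set `G = closure V \ ⋃ i ∈ I, U i` is compact and `s ≠ 0` on it: `‖s‖ ≥ m > 0` on `G` (`m = 1` if it is empty).
`frontier V ⊆ G`, and `frontier (U i) ⊆ G` for `i ∈ I` (a point of `frontier (U i)` is in `closure V`, not in the open set `U i`, and not in
`U j`, `j ≠ i`, which is open and disjoint from `U i`). Take (`Nz_exists`) a section `s'` with finitely many zeros in `closure V` and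
`‖s' - s‖ ≤ m / 2` on `O`. By `Nz_eq` (`closure (U i) ⊆ closure V`, compact) `Nz` for `V` and the `U i` are the `cntS` of `s'`; `s'` has no zero on
`G`, so its zeros in `V` are the disjoint union of its zeros in the `U i` (`finsum_mem_biUnion` / `finsum_mem_union`, finite sets).
-/

set_option autoImplicit false

open Set Metric Topology

namespace EMU

variable {X E : Type*} [NormedAddCommGroup X] [NormedSpace ℝ X] [FiniteDimensional ℝ X] [Nontrivial X]
  [NormedAddCommGroup E] [NormedSpace ℂ E] [FiniteDimensional ℂ E] {K : ℕ}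
  {O : Set X} {P : X → E →L[ℂ] E}

theorem Nz_sum (hO : IsOpen O) (hP : IsBun O P K) (e : X ≃L[ℝ] (Fin K → ℂ)) {V : Set X}
    (hV : IsOpen V) (hc : IsCompact (closure V)) (hVO : closure V ⊆ O) {s : X → E}
    (hs : IsSec O P s) {ι : Type*} (I : Finset ι) (U : ι → Set X) (hU : ∀ i ∈ I, IsOpen (U i))
    (hUV : ∀ i ∈ I, U i ⊆ V) (hd : ∀ i ∈ I, ∀ j ∈ I, i ≠ j → Disjoint (U i) (U j))
    (hz : ∀ x ∈ closure V, (∀ i ∈ I, x ∉ U i) → s x ≠ 0) :
    Nz e O P s V = ∑ i ∈ I, Nz e O P s (U i) := by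
  classical
  let G : Set X := {x | x ∈ closure V ∧ ∀ i ∈ I, x ∉ U i}
  have hGc : IsCompact G := by
    have h1 : IsClosed {x | ∀ i ∈ I, x ∉ U i} := by
      have h2 : {x | ∀ i ∈ I, x ∉ U i} = ⋂ i ∈ I, (U i)ᶜ := by
        ext x
        simp
      rw [h2]
      exact isClosed_biInter fun i hi => (hU i hi).isClosed_compl
    exact hc.inter_right h1
  obtain ⟨m, hm, hmb⟩ : ∃ m : ℝ, 0 < m ∧ ∀ x ∈ G, m ≤ ‖s x‖ := by
    rcases G.eq_empty_or_nonempty with h | h
    · exact ⟨1, one_pos, fun x hx => by rw [h] at hx; exact absurd hx (Set.notMem_empty x)⟩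
    · have hsG : ContinuousOn s G := hs.cont.mono fun x hx => hVO hx.1
      obtain ⟨x₀, hx₀, hmin⟩ := hGc.exists_isMinOn h hsG.norm
      exact ⟨‖s x₀‖, norm_pos_iff.2 (hz x₀ hx₀.1 hx₀.2), fun x hx => hmin hx⟩
  have hVG : frontier V ⊆ G := fun x hx => ⟨frontier_subset_closure hx, fun i hi hxi =>
    hx.2 (by rw [hV.interior_eq]; exact hUV i hi hxi)⟩
  have hUG : ∀ i ∈ I, frontier (U i) ⊆ G := by
    intro i hi x hx
    refine ⟨closure_mono (hUV i hi) (frontier_subset_closure hx), fun j hj hxj => ?_⟩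
    by_cases hij : i = j
    · subst hij
      exact hx.2 (by rw [(hU i hi).interior_eq]; exact hxj)
    · obtain ⟨y, hy1, hy2⟩ := mem_closure_iff.1 (frontier_subset_closure hx) (U j) (hU j hj) hxj
      exact Set.disjoint_left.1 (hd i hi j hj hij) hy2 hy1
  obtain ⟨s', hs', hcl, hfin⟩ := Nz_exists hO hP e hc hVO hs (half_pos hm)
  have hclose : ∀ x ∈ G, ‖s' x - s x‖ < ‖s x‖ := fun x hx =>
    lt_of_le_of_lt (hcl x (hVO hx.1)) (by have h1 := hmb x hx; linarith)
  have hne : ∀ x ∈ G, s' x ≠ 0 := fun x hx h => by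
    have h1 := hclose x hx
    rw [h, zero_sub, norm_neg] at h1
    exact lt_irrefl _ h1
  have hcU : ∀ i ∈ I, closure (U i) ⊆ closure V := fun i hi => closure_mono (hUV i hi)
  have h1 : Nz e O P s V = cntS e P s' V :=
    Nz_eq hO hP e hV hc hVO hs' hfin fun x hx => hclose x (hVG hx)
  have h2 : ∀ i ∈ I, Nz e O P s (U i) = cntS e P s' (U i) := fun i hi =>
    Nz_eq hO hP e (hU i hi) (hc.of_isClosed_subset isClosed_closure (hcU i hi))
      ((hcU i hi).trans hVO) hs' (hfin.subset fun x hx => ⟨hcU i hi hx.1, hx.2⟩)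
      fun x hx => hclose x (hUG i hi hx)
  rw [h1, Finset.sum_congr rfl h2]
  unfold cntS
  have hset : {x | x ∈ V ∧ s' x = 0} = ⋃ i ∈ (I : Set ι), {x | x ∈ U i ∧ s' x = 0} := by
    ext x
    simp only [Set.mem_iUnion, Set.mem_ofPred_eq, exists_prop, Finset.mem_coe]
    constructor
    · rintro ⟨hx, hx0⟩
      by_contra hcon
      push Not at hcon
      exact hne x ⟨subset_closure hx, fun i hi hxi => hcon i hi hxi hx0⟩ hx0
    · rintro ⟨i, hi, hx, hx0⟩
      exact ⟨hUV i hi hx, hx0⟩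
  rw [hset, finsum_mem_biUnion, finsum_mem_coe_finset]
  · intro i hi j hj hij
    rw [Function.onFun, Set.disjoint_left]
    rintro x ⟨hx, -⟩ ⟨hx', -⟩
    exact Set.disjoint_left.1 (hd i hi j hj hij) hx hx'
  · exact I.finite_toSet
  · intro i hi
    exact hfin.subset fun x hx => ⟨hcU i hi (subset_closure hx.1), hx.2⟩

end EMU
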