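import Pool.Agent.Lib.EMU.B.DegSum
import Pool.Agent.Lib.EMU.D.Pert

/-!
# MP_9aab3b_gt, module B.WdStep: changing a section inside one chart does not change the count

PROOF. `S` is compact in `ball x₀ r`, so `S ⊆ ball x₀ r'` for all `r'` in some interval `[r₁, r)`; the zeros of `s₀` in `closure U` are finite in
number, so there is `r' ∈ (r₁, r)` with no zero of `s₀` in `closure U ∩ sphere x₀ r'`. `V = U ∩ ball x₀ r'` is open, bounded,
`closure V ⊆ closure U ∩ closedBall x₀ r'`, `frontier V ⊆ (frontier U ∩ closedBall x₀ r') ∪ (closure U ∩ sphere x₀ r')`. `J` is good on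
`closure V`. On `frontier V`, for `t ∈ [0,1]`, `s₀ + t • Δ ≠ 0`: on `frontier U` by `hm`, on the sphere because `Δ = 0` there (`S ⊆ ball x₀ r'`).
So `deg V (loc e J s₀) = deg V (loc e J (s₀ + Δ))` (`deg_homotopy`; `loc e J` is real linear in the section, and
`s₀ x + t • Δ x` is in the fibre, `J` is injective there).
Let `M` be as in `IsChart.bound`. `exists_pert` for `g = loc e J (s₀ + Δ)` on `V`, with a positive number at most `min (η / M) (m / (2 M))`, gives
`d`, supported in a compact `C ⊆ V ⊆ ball x₀ r`. Put `s₁ x = s₀ x + Δ x + T x (e (d x))`: a section (`IsChart.isSec_bump`),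
`‖s₁ - (s₀ + Δ)‖ ≤ η` (inside the closed ball by `bound`, outside `d = 0`).
Zeros of `s₁` in `closure U`: on `closure V` one has `loc e J s₁ = g + d`, finitely many zeros. A point `x ∈ closure U` which is not in
`closure V` is not in `ball x₀ r'` (`U` and the open ball), so `Δ x = 0`, `d x = 0` and `s₁ x = s₀ x`: finitely many zeros.
The counts: the zeros of `s₀` and of `s₁` in `U \ V = U \ ball x₀ r'` are the same, and they are not on the sphere (no zero of `s₀` there), so
near such a point `s₁ = s₀` (the complement of the closed ball is open, and `Δ = 0`, `d = 0` there) and the indices agree (`ind_congr`).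
In `V`: `cntS s₁ V = deg V (loc e J s₁) = deg V g = deg V (loc e J s₀) = cntS s₀ V` (`deg_eq_cntS`, and `deg_congr` since `d = 0` on
`frontier V`). `cntS s U = cntS s V + cntS s (U \ V)` (`finsum_mem_union`, finite sets).
-/

set_option autoImplicit false

open Set Metric Topology

namespace EMU

variable {X E : Type*} [NormedAddCommGroup X] [NormedSpace ℝ X] [FiniteDimensional ℝ X] [Nontrivial X]
  [NormedAddCommGroup E] [NormedSpace ℂ E] [FiniteDimensional ℂ E] {K : ℕ}
  {O : Set X} {P : X → E →L[ℂ] E}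

omit [NormedSpace ℝ X] [FiniteDimensional ℝ X] [Nontrivial X] [FiniteDimensional ℂ E] in
private theorem ws_add {s s' : X → E} (hs : IsSec O P s) (hs' : IsSec O P s') :
    IsSec O P (fun x => s x + s' x) :=
  ⟨hs.cont.add hs'.cont, fun x hx => by rw [map_add, hs.mem x hx, hs'.mem x hx]⟩

omit [FiniteDimensional ℝ X] [Nontrivial X] [FiniteDimensional ℂ E] in
private theorem ws_loc_add (e : X ≃L[ℝ] (Fin K → ℂ)) (J : E →L[ℂ] (Fin K → ℂ)) (s s' : X → E)
    (x : X) (t : ℝ) : (1 - t) • loc e J s x + t • loc e J (fun y => s y + s' y) x =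
      e.symm (J (s x + t • s' x)) := by
  have h1 : J (s x + t • s' x) = J (s x) + t • J (s' x) := by
    rw [map_add, map_real_smul J J.continuous]
  show (1 - t) • e.symm (J (s x)) + t • e.symm (J (s x + s' x)) = e.symm (J (s x + t • s' x))
  rw [h1, map_add J, map_add e.symm, map_add e.symm, map_smul]
  module

omit [NormedSpace ℝ X] [FiniteDimensional ℝ X] [Nontrivial X] in
private theorem ws_radius {S : Set X} (hS : IsCompact S) {x₀ : X} {r : ℝ} (hr : 0 < r)
    (hSr : S ⊆ ball x₀ r) : ∃ r₁, 0 < r₁ ∧ r₁ < r ∧ ∀ x ∈ S, dist x x₀ < r₁ := by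
  rcases S.eq_empty_or_nonempty with h | h
  · exact ⟨r / 2, by linarith, by linarith, fun x hx => by rw [h] at hx; exact absurd hx (by simp)⟩
  · obtain ⟨y, hy, hmax⟩ := hS.exists_isMaxOn h
      ((continuous_id.dist continuous_const).continuousOn : ContinuousOn (fun x => dist x x₀) S)
    have hyr : dist y x₀ < r := hSr hy
    refine ⟨(dist y x₀ + r) / 2, ?_, by linarith, fun x hx => ?_⟩
    · have := dist_nonneg (x := y) (y := x₀)
      linarith
    · have h1 : dist x x₀ ≤ dist y x₀ := hmax hx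
      linarith

theorem wd_step (hO : IsOpen O) (hP : IsBun O P K) (e : X ≃L[ℝ] (Fin K → ℂ)) {U : Set X}
    (hU : IsOpen U) (hc : IsCompact (closure U)) (hUO : closure U ⊆ O) {x₀ : X} {r : ℝ}
    {J : E →L[ℂ] (Fin K → ℂ)} {T : X → (Fin K → ℂ) →L[ℂ] E} (hch : IsChart O P x₀ r J T)
    {s₀ Δ : X → E} (hs : IsSec O P s₀) (hΔ : IsSec O P Δ) {S : Set X} (hS : IsCompact S)
    (hSr : S ⊆ ball x₀ r) (hΔS : ∀ x, x ∉ S → Δ x = 0)
    (hf : {x | x ∈ closure U ∧ s₀ x = 0}.Finite)
    (hm : ∀ x ∈ frontier U, ∀ t ∈ Icc (0 : ℝ) 1, s₀ x + t • Δ x ≠ 0) {η : ℝ} (hη : 0 < η) :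
    ∃ s₁ : X → E, IsSec O P s₁ ∧ (∀ x, ‖s₁ x - (s₀ x + Δ x)‖ ≤ η) ∧
      {x | x ∈ closure U ∧ s₁ x = 0}.Finite ∧ cntS e P s₁ U = cntS e P s₀ U := by
  obtain ⟨r₁, hr₁, hr₁r, hSr₁⟩ := ws_radius hS hch.pos hSr
  obtain ⟨r', ⟨hr'1, hr'2⟩, hr'3⟩ := (Set.Ioo_infinite hr₁r).exists_notMem_finite
    (hf.image (fun x => dist x x₀))
  have hsph : ∀ x, x ∈ closure U → s₀ x = 0 → dist x x₀ ≠ r' := by
    intro x hx h0 hd
    exact hr'3 ⟨x, ⟨hx, h0⟩, hd⟩
  have hΔ0 : ∀ x, r' ≤ dist x x₀ → Δ x = 0 := by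
    intro x hx
    apply hΔS
    intro hxS
    have := hSr₁ x hxS
    linarith
  set V : Set X := U ∩ ball x₀ r' with hVdef
  have hVo : IsOpen V := hU.inter isOpen_ball
  have hVb : Bornology.IsBounded V := isBounded_ball.subset inter_subset_right
  have hVU : closure V ⊆ closure U := closure_mono inter_subset_left
  have hVB : closure V ⊆ closedBall x₀ r' :=
    (closure_mono inter_subset_right).trans closure_ball_subset_closedBall
  have hBB : closedBall x₀ r' ⊆ closedBall x₀ r := closedBall_subset_closedBall hr'2.le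
  have hVO : closure V ⊆ O := hVU.trans hUO
  have hgood : ∀ x ∈ closure V, Good P J x := fun x hx => hch.good (hBB (hVB hx))
  -- no zero on the frontier
  have hfr : ∀ x ∈ frontier V, ∀ t ∈ Icc (0 : ℝ) 1, s₀ x + t • Δ x ≠ 0 := by
    intro x hx t ht
    rw [hVo.frontier_eq] at hx
    obtain ⟨hxc, hxn⟩ := hx
    by_cases hxU : x ∈ U
    · have hxb : x ∉ ball x₀ r' := fun hb => hxn ⟨hxU, hb⟩
      have hd : r' ≤ dist x x₀ := not_lt.mp hxb
      have hd2 : dist x x₀ ≤ r' := hVB hxc
      rw [hΔ0 x hd, smul_zero, add_zero]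
      intro h0
      exact hsph x (hVU hxc) h0 (le_antisymm hd2 hd)
    · exact hm x (by rw [hU.frontier_eq]; exact ⟨hVU hxc, hxU⟩) t ht
  have hcloc : ∀ s : X → E, IsSec O P s → ContinuousOn (loc e J s) (closure V) := by
    intro s hsec
    exact (e.symm.continuous.comp J.continuous).comp_continuousOn (hsec.cont.mono hVO)
  have hsΔ : IsSec O P (fun x => s₀ x + Δ x) := ws_add hs hΔ
  have hzero : ∀ x ∈ closure V, ∀ v, P x v = v → e.symm (J v) = 0 → v = 0 := by
    intro x hx v hv h0
    apply hgood x hx v hv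
    have := congrArg e h0
    rwa [e.apply_symm_apply, map_zero] at this
  have hdeg1 : deg V (loc e J s₀) = deg V (loc e J (fun x => s₀ x + Δ x)) := by
    apply deg_homotopy hVo hVb (hcloc _ hs) (hcloc _ hsΔ)
    intro x hx t ht h0
    rw [ws_loc_add] at h0
    have hxc := frontier_subset_closure hx
    have hxO := hVO hxc
    apply hfr x hx t ht
    apply hzero x hxc _ _ h0
    rw [map_add, map_real_smul (P x) (P x).continuous, hs.mem x hxO, hΔ.mem x hxO]
  have hne1 : ∀ x ∈ frontier V, s₀ x + Δ x ≠ 0 := by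
    intro x hx
    have := hfr x hx 1 ⟨zero_le_one, le_rfl⟩
    rwa [one_smul] at this
  have hne0 : ∀ x ∈ frontier V, s₀ x ≠ 0 := by
    intro x hx
    have := hfr x hx 0 ⟨le_rfl, zero_le_one⟩
    rwa [zero_smul, add_zero] at this
  obtain ⟨M, hM, hMb⟩ := hch.bound e
  obtain ⟨d, hdc, ⟨C, hC, hCV, hC0⟩, hdε, hdf⟩ := exists_pert hVo hVb (hcloc _ hsΔ)
    (by
      intro x hx h0
      have hxc := frontier_subset_closure hx
      exact hne1 x hx (hzero x hxc _ (hsΔ.mem x (hVO hxc)) h0)) (div_pos hη hM)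
  have hCr : C ⊆ ball x₀ r := fun x hx => ball_subset_ball hr'2.le (hCV hx).2
  have hbump : IsSec O P (fun x => T x (e (d x))) := hch.isSec_bump e hdc hC hCr hC0
  have hd0 : ∀ x, r' ≤ dist x x₀ → d x = 0 := by
    intro x hx
    apply hC0
    intro hxC
    have : dist x x₀ < r' := (hCV hxC).2
    linarith
  have hdfr : ∀ x ∈ frontier V, d x = 0 := by
    intro x hx
    apply hC0
    intro hxC
    rw [hVo.frontier_eq] at hx
    exact hx.2 (hCV hxC)
  have hs1 : IsSec O P (fun x => s₀ x + Δ x + T x (e (d x))) := ws_add hsΔ hbump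
  have hout : ∀ x, r' ≤ dist x x₀ → s₀ x + Δ x + T x (e (d x)) = s₀ x := by
    intro x hx
    rw [hΔ0 x hx, hd0 x hx, map_zero, map_zero, add_zero, add_zero]
  have hlocs1 : ∀ x ∈ closure V, loc e J (fun x => s₀ x + Δ x + T x (e (d x))) x =
      loc e J (fun x => s₀ x + Δ x) x + d x := by
    intro x hx
    unfold loc
    rw [map_add J, hch.JT x (hBB (hVB hx)), map_add, e.symm_apply_apply]
  have hfin1 : {x | x ∈ closure U ∧ s₀ x + Δ x + T x (e (d x)) = 0}.Finite := by
    apply (hdf.union hf).subset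
    rintro x ⟨hxU, hx0⟩
    by_cases hxV : x ∈ closure V
    · left
      refine ⟨hxV, ?_⟩
      rw [← hlocs1 x hxV]
      show e.symm (J (s₀ x + Δ x + T x (e (d x)))) = 0
      rw [hx0, map_zero, map_zero]
    · right
      refine ⟨hxU, ?_⟩
      rw [← hout x _]
      · exact hx0
      · by_contra hlt
        push Not at hlt
        apply hxV
        have : x ∈ ball x₀ r' ∩ closure U := ⟨hlt, hxU⟩
        have h2 := isOpen_ball.inter_closure this
        rwa [inter_comm] at h2
  refine ⟨fun x => s₀ x + Δ x + T x (e (d x)), hs1, ?_, hfin1, ?_⟩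
  · intro x
    have e1 : s₀ x + Δ x + T x (e (d x)) - (s₀ x + Δ x) = T x (e (d x)) := by abel
    rw [e1]
    by_cases hx : x ∈ closedBall x₀ r
    · refine (hMb x hx (d x)).trans ?_
      have := mul_le_mul_of_nonneg_left (hdε x) hM.le
      rwa [mul_div_cancel₀ η hM.ne'] at this
    · have hx2 : r' ≤ dist x x₀ := by
        have : r < dist x x₀ := not_le.mp hx
        linarith
      rw [hd0 x hx2, map_zero, map_zero, norm_zero]
      exact hη.le
  · -- the counts
    have hsplit : ∀ s : X → E, {x | x ∈ closure U ∧ s x = 0}.Finite →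
        cntS e P s U = cntS e P s V + ∑ᶠ x ∈ {x | x ∈ U ∧ x ∉ ball x₀ r' ∧ s x = 0}, ind e P s x := by
      intro s hfs
      have hun : {x | x ∈ U ∧ s x = 0} =
          {x | x ∈ V ∧ s x = 0} ∪ {x | x ∈ U ∧ x ∉ ball x₀ r' ∧ s x = 0} := by
        ext x
        constructor
        · rintro ⟨h1, h2⟩
          by_cases h3 : x ∈ ball x₀ r'
          · exact Or.inl ⟨⟨h1, h3⟩, h2⟩
          · exact Or.inr ⟨h1, h3, h2⟩
        · rintro (⟨⟨h1, h3⟩, h2⟩ | ⟨h1, h3, h2⟩)
          · exact ⟨h1, h2⟩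
          · exact ⟨h1, h2⟩
      unfold cntS
      rw [hun, finsum_mem_union]
      · rw [Set.disjoint_left]
        rintro x ⟨⟨_, h3⟩, _⟩ ⟨_, h4, _⟩
        exact h4 h3
      · exact hfs.subset (fun x hx => ⟨subset_closure hx.1.1, hx.2⟩)
      · exact hfs.subset (fun x hx => ⟨subset_closure hx.1, hx.2.2⟩)
    have hV0 : deg V (loc e J s₀) = cntS e P s₀ V :=
      deg_eq_cntS hO hP e hs hVo hVb hVO hgood hne0
        (hf.subset (fun x hx => ⟨subset_closure hx.1.1, hx.2⟩))
    have hV1 : deg V (loc e J (fun x => s₀ x + Δ x + T x (e (d x)))) =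
        cntS e P (fun x => s₀ x + Δ x + T x (e (d x))) V := by
      apply deg_eq_cntS hO hP e hs1 hVo hVb hVO hgood
      · intro x hx
        show s₀ x + Δ x + T x (e (d x)) ≠ 0
        rw [hdfr x hx, map_zero, map_zero, add_zero]
        exact hne1 x hx
      · exact hfin1.subset (fun x hx => ⟨subset_closure hx.1.1, hx.2⟩)
    have hV2 : deg V (loc e J (fun x => s₀ x + Δ x + T x (e (d x)))) =
        deg V (loc e J (fun x => s₀ x + Δ x)) := by
      apply deg_congr
      intro x hx
      rw [hlocs1 x (frontier_subset_closure hx), hdfr x hx, add_zero]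
    rw [hsplit _ hfin1, hsplit _ hf, ← hV1, hV2, ← hdeg1, hV0]
    congr 1
    have hset : {x | x ∈ U ∧ x ∉ ball x₀ r' ∧ s₀ x + Δ x + T x (e (d x)) = 0} =
        {x | x ∈ U ∧ x ∉ ball x₀ r' ∧ s₀ x = 0} := by
      ext x
      constructor
      · rintro ⟨h1, h2, h3⟩
        exact ⟨h1, h2, by rw [← hout x (not_lt.mp h2)]; exact h3⟩
      · rintro ⟨h1, h2, h3⟩
        exact ⟨h1, h2, by rw [hout x (not_lt.mp h2)]; exact h3⟩
    rw [hset]
    apply finsum_mem_congr rfl
    rintro x ⟨h1, h2, h3⟩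
    apply ind_congr
    have hlt : r' < dist x x₀ :=
      lt_of_le_of_ne (not_lt.mp h2) (fun h => hsph x (subset_closure h1) h3 h.symm)
    have hopen : IsOpen {y : X | r' < dist y x₀} :=
      isOpen_lt continuous_const (continuous_id.dist continuous_const)
    filter_upwards [hopen.mem_nhds hlt] with y hy
    exact hout y (le_of_lt hy)

end EMU
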